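import Pool.Agent.KZ.A1a

set_option autoImplicit false
set_option linter.unusedSectionVars false

namespace Pool.Agent.KZ

open MeasureTheory ProbabilityTheory Set Real Filter Topology

/-- PROOF. Chernoff bound: for `x ≥ 0`, `exp (-x u) ≥ exp (x^2)` on `u < -x`, and `∫ exp (-x u) d(gaussianReal 0 1) = exp (x^2/2)`
(`mgf_gaussianReal`); `ProbabilityTheory.measure_le_le_exp_mul_mgf`. -/
theorem Qb_exp (x : ℝ) (hx : 0 ≤ x) : Qb x ≤ exp (-x ^ 2 / 2) := by
  have h1 := measure_le_le_exp_mul_mgf (μ := gaussianReal 0 1) (X := id) (t := -x) (-x)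
    (by linarith) (integrable_exp_mul_gaussianReal (-x))
  rw [mgf_id_gaussianReal] at h1
  have h2 : Qb x ≤ (gaussianReal 0 1).real {ω | id ω ≤ -x} := by
    refine measureReal_mono ?_
    intro u hu
    exact (mem_Iio.1 hu).le
  refine h2.trans (h1.trans (le_of_eq ?_))
  simp only
  rw [← exp_add]
  congr 1
  push_cast
  ring

/-- PROOF. `Qb x = ∫_x^∞ e^{-u²/2}/√(2π) du ≥ ∫_x^{x+h} ≥ h e^{-(x+h)²/2}/√(2π)` with `h = 1/(1+x)`;
`(x+h)² = x² + 2xh + h² ≤ x² + 3`, and `e^{-3/2}/√(2π) ≥ 1/12` (`e^3 ≤ 20.1`, `π ≤ 3.15`: `e^3 * 2π ≤ 144`). -/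
theorem Qb_low (x : ℝ) (hx : 0 ≤ x) : exp (-x ^ 2 / 2) / (12 * (1 + x)) ≤ Qb x := by
  rw [Qb_eq]
  set h : ℝ := 1 / (1 + x) with hh
  have h0 : 0 < 1 + x := by linarith
  have hh0 : 0 < h := by positivity
  have hh1 : h ≤ 1 := by
    rw [hh, div_le_one h0]
    linarith
  have hxh : x * h ≤ 1 := by
    rw [hh, mul_one_div, div_le_one h0]
    linarith
  have hs : 0 < √(2 * π) := by positivity
  have hint : Integrable (fun u : ℝ => exp (-u ^ 2 / 2) / √(2 * π)) := by
    have h1 := (integrable_exp_neg_mul_sq (b := 1 / 2) (by norm_num)).div_const (√(2 * π))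
    refine h1.congr (Filter.Eventually.of_forall fun u => ?_)
    simp only
    congr 2
    ring
  have hnn : ∀ u : ℝ, 0 ≤ exp (-u ^ 2 / 2) / √(2 * π) := fun u => by positivity
  have hA : ∫ u in Ioc x (x + h), exp (-u ^ 2 / 2) / √(2 * π) ≤
      ∫ u in Ioi x, exp (-u ^ 2 / 2) / √(2 * π) := by
    refine setIntegral_mono_set hint.integrableOn
      (Filter.Eventually.of_forall fun u => hnn u) ?_
    exact (Ioc_subset_Ioi_self).eventuallyLE
  have hB : h * (exp (-(x + h) ^ 2 / 2) / √(2 * π)) ≤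
      ∫ u in Ioc x (x + h), exp (-u ^ 2 / 2) / √(2 * π) := by
    have h1 : ∫ u in Ioc x (x + h), (exp (-(x + h) ^ 2 / 2) / √(2 * π)) ≤
        ∫ u in Ioc x (x + h), exp (-u ^ 2 / 2) / √(2 * π) := by
      refine setIntegral_mono_on ?_ hint.integrableOn measurableSet_Ioc ?_
      · exact integrableOn_const (by simp)
      · intro u hu
        have hu1 : x < u := hu.1
        have hu2 : u ≤ x + h := hu.2
        have hu3 : u ^ 2 ≤ (x + h) ^ 2 := by nlinarith
        refine div_le_div_of_nonneg_right (exp_le_exp.2 (by linarith)) hs.le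
    have h2 : ∫ u in Ioc x (x + h), (exp (-(x + h) ^ 2 / 2) / √(2 * π)) =
        h * (exp (-(x + h) ^ 2 / 2) / √(2 * π)) := by
      rw [setIntegral_const, smul_eq_mul]
      congr 1
      rw [volume_real_Ioc_of_le (by linarith)]
      ring
    rw [← h2]
    exact h1
  refine le_trans ?_ (hB.trans hA)
  have hsq : (x + h) ^ 2 ≤ x ^ 2 + 3 := by nlinarith
  have he : exp (-x ^ 2 / 2) ≤ exp (3 / 2) * exp (-(x + h) ^ 2 / 2) := by
    rw [← exp_add]
    exact exp_le_exp.2 (by linarith)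
  have he3 : exp (3 / 2) ≤ 4.5 := by
    have h1 : exp (3 / 2) ^ 2 ≤ 4.5 ^ 2 := by
      have h2 : exp (3 / 2) ^ 2 = exp 1 ^ 3 := by
        rw [← exp_nat_mul, ← exp_nat_mul]
        congr 1
        norm_num
      rw [h2]
      have h3 : exp 1 ≤ 2.72 := by
        have := exp_one_lt_d9
        norm_num at this ⊢
        linarith
      calc exp 1 ^ 3 ≤ 2.72 ^ 3 := pow_le_pow_left₀ (exp_pos 1).le h3 3
        _ ≤ 4.5 ^ 2 := by norm_num
    exact (pow_le_pow_iff_left₀ (exp_pos _).le (by norm_num) two_ne_zero).1 h1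
  have hpi : √(2 * π) ≤ 2.52 := by
    rw [sqrt_le_left (by norm_num)]
    have := pi_lt_d2
    norm_num at this ⊢
    linarith
  have hep := exp_pos (-(x + h) ^ 2 / 2)
  have hprod : exp (3 / 2) * √(2 * π) ≤ 12 := by
    calc exp (3 / 2) * √(2 * π) ≤ 4.5 * 2.52 :=
          mul_le_mul he3 hpi hs.le (by norm_num)
      _ ≤ 12 := by norm_num
  calc exp (-x ^ 2 / 2) / (12 * (1 + x))
      ≤ exp (3 / 2) * exp (-(x + h) ^ 2 / 2) / (12 * (1 + x)) :=
        div_le_div_of_nonneg_right he (by positivity)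
    _ = exp (-(x + h) ^ 2 / 2) * h * (exp (3 / 2) / 12) := by
        rw [hh]
        field_simp
    _ ≤ exp (-(x + h) ^ 2 / 2) * h * (1 / √(2 * π)) := by
        refine mul_le_mul_of_nonneg_left ?_ (by positivity)
        rw [div_le_div_iff₀ (by norm_num) hs]
        linarith
    _ = h * (exp (-(x + h) ^ 2 / 2) / √(2 * π)) := by ring

/-- PROOF. `Qb` is antitone and `Qb 0 = γ(Iio 0) = 1/2`: `γ(Iio 0) = γ(Ioi 0)` (symmetry, `gaussianReal_map_neg`), `γ{0} = 0`
(`noAtoms_gaussianReal`), total mass 1. -/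
theorem Qb_half (x : ℝ) (hx : x ≤ 0) : 1 / 2 ≤ Qb x := by
  refine le_trans ?_ (Qb_anti hx)
  unfold Qb
  rw [neg_zero]
  have hn : ((gaussianReal 0 1).map (fun x ↦ -x)) = gaussianReal 0 1 := by
    rw [gaussianReal_map_neg, neg_zero]
  have h1 : (gaussianReal 0 1).real (Iio 0) = (gaussianReal 0 1).real (Ioi 0) := by
    conv_lhs => rw [← hn]
    rw [map_measureReal_apply (by fun_prop) measurableSet_Iio]
    congr 1
    ext u
    simp
  have h2 : (gaussianReal 0 1).real {0} = 0 := by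
    have := nullSingletonClass_gaussianReal (μ := 0) (v := 1) one_ne_zero
    rw [measureReal_def, measure_singleton]
    rfl
  have h3 : (gaussianReal 0 1).real univ = 1 := by
    rw [measureReal_def, measure_univ]
    rfl
  have h4 : (univ : Set ℝ) = Iio 0 ∪ ({0} ∪ Ioi 0) := by
    ext u
    simp only [mem_univ, mem_union, mem_Iio, mem_singleton_iff, mem_Ioi, true_iff]
    exact lt_trichotomy u 0
  have h5 : (gaussianReal 0 1).real (Iio 0 ∪ ({0} ∪ Ioi 0)) ≤
      (gaussianReal 0 1).real (Iio 0) + (gaussianReal 0 1).real ({0} ∪ Ioi 0) :=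
    measureReal_union_le _ _
  have h6 : (gaussianReal 0 1).real ({0} ∪ Ioi 0) ≤
      (gaussianReal 0 1).real {0} + (gaussianReal 0 1).real (Ioi 0) := measureReal_union_le _ _
  rw [← h4, h3] at h5
  linarith

end Pool.Agent.KZ
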