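import Pool.Agent.KZ.A1a

set_option autoImplicit false
set_option linter.unusedSectionVars false

namespace Pool.Agent.KZ

open MeasureTheory ProbabilityTheory Set Real Filter Topology

/-- PROOF. Squeeze: by `Qb_lower` and `Qb_mills`, for `x > 0`, `(1 - 1/x²)/√(2π) ≤ x e^{x²/2} Qb x ≤ 1/√(2π)`. -/
theorem Qb_lim : Tendsto (fun x : ℝ => x * exp (x ^ 2 / 2) * Qb x) atTop (𝓝 (1 / √(2 * π))) := by
  have hpi : 0 < √(2 * π) := by positivity
  have h1 : Tendsto (fun x : ℝ => (1 - (x⁻¹) ^ 2) * (1 / √(2 * π))) atTop (𝓝 (1 / √(2 * π))) := by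
    have h2 : Tendsto (fun x : ℝ => (1 - (x⁻¹) ^ 2) * (1 / √(2 * π))) atTop
        (𝓝 ((1 - (0 : ℝ) ^ 2) * (1 / √(2 * π)))) :=
      (tendsto_const_nhds.sub (tendsto_inv_atTop_zero.pow 2)).mul_const _
    simpa using h2
  refine tendsto_of_tendsto_of_tendsto_of_le_of_le' h1 tendsto_const_nhds ?_ ?_
  · filter_upwards [eventually_gt_atTop (0 : ℝ)] with x hx
    have hexp : exp (x ^ 2 / 2) * exp (-x ^ 2 / 2) = 1 := by
      rw [← exp_add, show x ^ 2 / 2 + -x ^ 2 / 2 = 0 by ring, exp_zero]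
    have h3 := Qb_lower x hx
    have h4 : 0 < x * exp (x ^ 2 / 2) := mul_pos hx (exp_pos _)
    calc (1 - (x⁻¹) ^ 2) * (1 / √(2 * π))
        = (1 - (x⁻¹) ^ 2) * (exp (x ^ 2 / 2) * exp (-x ^ 2 / 2)) / √(2 * π) := by
          rw [hexp]; ring
      _ = x * exp (x ^ 2 / 2) * ((1 / x - 1 / x ^ 3) * exp (-x ^ 2 / 2) / √(2 * π)) := by
          field_simp
      _ ≤ x * exp (x ^ 2 / 2) * Qb x := mul_le_mul_of_nonneg_left h3 h4.le
  · filter_upwards [eventually_gt_atTop (0 : ℝ)] with x hx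
    have hexp : exp (x ^ 2 / 2) * exp (-x ^ 2 / 2) = 1 := by
      rw [← exp_add, show x ^ 2 / 2 + -x ^ 2 / 2 = 0 by ring, exp_zero]
    have h3 := Qb_mills x hx
    have h4 : 0 < x * exp (x ^ 2 / 2) := mul_pos hx (exp_pos _)
    calc x * exp (x ^ 2 / 2) * Qb x
        ≤ x * exp (x ^ 2 / 2) * (exp (-x ^ 2 / 2) / (x * √(2 * π))) :=
          mul_le_mul_of_nonneg_left h3 h4.le
      _ = (exp (x ^ 2 / 2) * exp (-x ^ 2 / 2)) / √(2 * π) := by field_simp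
      _ = 1 / √(2 * π) := by rw [hexp]

end Pool.Agent.KZ
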