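import Pool.Agent.KZ.Base

set_option autoImplicit false
set_option linter.unusedSectionVars false

namespace Pool.Agent.KZ

open MeasureTheory ProbabilityTheory Set Real Filter Topology

/-- `Qb` as an integral of the density.
PROOF. `gaussianReal 0 1` has density `gaussianPDFReal 0 1 u = exp (-u^2/2)/√(2π)` (`gaussianReal_apply_eq_integral`, or
`gaussianReal_of_var_ne_zero` + `withDensity`), so `Qb x = ∫ u in Iio (-x), exp(-u^2/2)/√(2π)`; substitute `u ↦ -u`
(`integral_comp_neg_Iic`/`_Ioi`, `Iio = Iic` a.e., or push the measure forward by `neg`: `gaussianReal_map_neg`). -/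
theorem Qb_eq (x : ℝ) : Qb x = ∫ u in Ioi x, exp (-u ^ 2 / 2) / √(2 * π) := by
  have h1 : Qb x = ∫ u in Iio (-x), gaussianPDFReal 0 1 u := by
    unfold Qb Measure.real
    rw [gaussianReal_apply_eq_integral 0 one_ne_zero, ENNReal.toReal_ofReal]
    exact integral_nonneg fun u => gaussianPDFReal_nonneg _ _ _
  have h2 : ∀ u, gaussianPDFReal 0 1 u = exp (-u ^ 2 / 2) / √(2 * π) := by
    intro u
    unfold gaussianPDFReal
    rw [sub_zero, NNReal.coe_one, mul_one, mul_one]
    ring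
  rw [h1, ← integral_Iic_eq_integral_Iio, ← integral_comp_neg_Ioi]
  refine integral_congr_ae (Filter.Eventually.of_forall fun u => ?_)
  simp only
  rw [h2, neg_sq]

theorem Qb_nonneg (x : ℝ) : 0 ≤ Qb x := measureReal_nonneg

theorem Qb_le_one (x : ℝ) : Qb x ≤ 1 := measureReal_le_one

theorem Qb_anti : Antitone Qb := by
  intro x y h
  exact measureReal_mono (Iio_subset_Iio (by linarith))

theorem a1a_tend : Tendsto (fun u : ℝ => exp (-u ^ 2 / 2)) atTop (𝓝 0) := by
  have h1 : Tendsto (fun u : ℝ => u ^ 2 / 2) atTop atTop :=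
    (tendsto_pow_atTop two_ne_zero).atTop_div_const two_pos
  have h2 := Real.tendsto_exp_neg_atTop_nhds_zero.comp h1
  refine h2.congr fun u => ?_
  simp only [Function.comp_apply]
  congr 1
  ring

theorem a1a_deriv (u : ℝ) : HasDerivAt (fun u : ℝ => exp (-u ^ 2 / 2)) (-u * exp (-u ^ 2 / 2)) u := by
  have h1 : HasDerivAt (fun u : ℝ => -u ^ 2 / 2) (-u) u := by
    have h2 := ((hasDerivAt_pow 2 u).neg).div_const 2
    refine h2.congr_deriv ?_
    simp
    ring
  refine h1.exp.congr_deriv ?_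
  ring

theorem a1a_int : Integrable (fun u : ℝ => exp (-u ^ 2 / 2)) := by
  have h1 := integrable_exp_neg_mul_sq (b := 1 / 2) (by norm_num)
  refine h1.congr (Filter.Eventually.of_forall fun u => ?_)
  simp only
  congr 1
  ring

theorem a1a_scale (x : ℝ) : Qb x = (∫ u in Ioi x, exp (-u ^ 2 / 2)) / √(2 * π) := by
  rw [Qb_eq, integral_div]

/-- Mills ratio, upper bound.
PROOF. `∫_x^∞ e^{-u²/2} du ≤ ∫_x^∞ (u/x) e^{-u²/2} du = e^{-x²/2}/x` (`integral_Ioi_of_hasDerivAt_of_tendsto` with the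
antiderivative `-e^{-u²/2}/x`; integrability: `integrable_exp_neg_mul_sq`-type lemmas or
`integrableOn_Ioi_deriv_of_nonneg`). -/
theorem Qb_mills (x : ℝ) (hx : 0 < x) : Qb x ≤ exp (-x ^ 2 / 2) / (x * √(2 * π)) := by
  have hs : 0 < √(2 * π) := Real.sqrt_pos.2 (by positivity)
  rw [a1a_scale, ← div_div]
  apply div_le_div_of_nonneg_right _ hs.le
  have hd : ∀ u ∈ Ici x, HasDerivAt (fun u : ℝ => -(exp (-u ^ 2 / 2) / x))
      (u / x * exp (-u ^ 2 / 2)) u := by
    intro u _
    refine ((a1a_deriv u).div_const x).neg.congr_deriv ?_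
    ring
  have hp : ∀ u ∈ Ioi x, 0 ≤ u / x * exp (-u ^ 2 / 2) := by
    intro u hu
    have h1 : x < u := hu
    have h2 : 0 < u := hx.trans h1
    positivity
  have ht : Tendsto (fun u : ℝ => -(exp (-u ^ 2 / 2) / x)) atTop (𝓝 0) := by
    have h1 := (a1a_tend.div_const x).neg
    rwa [zero_div, neg_zero] at h1
  have hi := integrableOn_Ioi_deriv_of_nonneg' hd hp ht
  have hv := integral_Ioi_of_hasDerivAt_of_nonneg' hd hp ht
  have hle : ∫ u in Ioi x, exp (-u ^ 2 / 2) ≤ ∫ u in Ioi x, u / x * exp (-u ^ 2 / 2) := by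
    apply setIntegral_mono_on a1a_int.integrableOn hi measurableSet_Ioi
    intro u hu
    have h1 : x < u := hu
    have h2 : 1 ≤ u / x := (one_le_div hx).2 h1.le
    have h3 := exp_pos (-u ^ 2 / 2)
    nlinarith
  rw [hv] at hle
  linarith

/-- Mills ratio, lower bound.
PROOF. The derivative of `-(1/u - 1/u^3) e^{-u²/2}` is `(1 - 3/u^4) e^{-u²/2} ≤ e^{-u²/2}`; so
`(1/x - 1/x^3) e^{-x²/2} = ∫_x^∞ (1 - 3/u^4) e^{-u²/2} du ≤ ∫_x^∞ e^{-u²/2} du`.
(Alternative without integrals of derivatives: the function `x ↦ Qb x - (1/x - 1/x^3) e^{-x²/2}/√(2π)` tends to 0 at infinity and has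
derivative `-(3/x^4) e^{-x²/2}/√(2π) ≤ 0`, so it is antitone on `(0, ∞)` and hence nonnegative.) -/
theorem Qb_lower (x : ℝ) (hx : 0 < x) :
    (1 / x - 1 / x ^ 3) * exp (-x ^ 2 / 2) / √(2 * π) ≤ Qb x := by
  have hs : 0 < √(2 * π) := Real.sqrt_pos.2 (by positivity)
  rw [a1a_scale]
  apply div_le_div_of_nonneg_right _ hs.le
  have hd : ∀ u ∈ Ici x, HasDerivAt (fun u : ℝ => -((1 / u - 1 / u ^ 3) * exp (-u ^ 2 / 2)))
      ((1 - 3 / u ^ 4) * exp (-u ^ 2 / 2)) u := by
    intro u hu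
    have h1 : x ≤ u := hu
    have h2 : u ≠ 0 := (hx.trans_le h1).ne'
    have h3 : HasDerivAt (fun u : ℝ => 1 / u - 1 / u ^ 3) (-1 / u ^ 2 + 3 / u ^ 4) u := by
      have e1 : HasDerivAt (fun u : ℝ => 1 / u) (-1 / u ^ 2) u := by
        have := hasDerivAt_inv h2
        refine (this.congr_of_eventuallyEq (Filter.Eventually.of_forall fun v => ?_)).congr_deriv ?_
        · simp
        · ring
      have e2 : HasDerivAt (fun u : ℝ => 1 / u ^ 3) (-3 / u ^ 4) u := by
        have := (hasDerivAt_pow 3 u).inv (pow_ne_zero 3 h2)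
        refine (this.congr_of_eventuallyEq (Filter.Eventually.of_forall fun v => ?_)).congr_deriv ?_
        · simp
        · field_simp
          push_cast
          ring
      refine (e1.sub e2).congr_deriv ?_
      ring
    refine (h3.mul (a1a_deriv u)).neg.congr_deriv ?_
    field_simp
    ring
  have hb : ∀ u ∈ Ioi x, (1 - 3 / u ^ 4) * exp (-u ^ 2 / 2) ≤ exp (-u ^ 2 / 2) := by
    intro u hu
    have h1 : x < u := hu
    have h2 : 0 < u := hx.trans h1
    have h3 : 0 ≤ 3 / u ^ 4 * exp (-u ^ 2 / 2) := by positivity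
    linarith
  have hi : IntegrableOn (fun u : ℝ => (1 - 3 / u ^ 4) * exp (-u ^ 2 / 2)) (Ioi x) := by
    have hbig : IntegrableOn (fun u : ℝ => (1 + 3 / x ^ 4) * exp (-u ^ 2 / 2)) (Ioi x) :=
      (a1a_int.const_mul _).integrableOn
    refine Integrable.mono' hbig ?_ ?_
    · apply Measurable.aestronglyMeasurable
      fun_prop
    · refine (ae_restrict_iff' measurableSet_Ioi).2 (Filter.Eventually.of_forall fun u hu => ?_)
      have h1 : x < u := hu
      have h2 : 0 < u := hx.trans h1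
      rw [norm_mul, Real.norm_eq_abs, Real.norm_eq_abs, abs_of_pos (exp_pos _)]
      apply mul_le_mul_of_nonneg_right _ (exp_pos _).le
      have h3 : 3 / u ^ 4 ≤ 3 / x ^ 4 := by
        apply div_le_div_of_nonneg_left (by norm_num) (by positivity)
        exact pow_le_pow_left₀ hx.le h1.le 4
      have h4 : 0 ≤ 3 / u ^ 4 := by positivity
      rw [abs_le]
      constructor <;> linarith
  have ht : Tendsto (fun u : ℝ => -((1 / u - 1 / u ^ 3) * exp (-u ^ 2 / 2))) atTop (𝓝 0) := by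
    have e1 : Tendsto (fun u : ℝ => 1 / u) atTop (𝓝 0) := by
      simpa using tendsto_inv_atTop_zero (𝕜 := ℝ)
    have e2 : Tendsto (fun u : ℝ => 1 / u ^ 3) atTop (𝓝 0) := by
      have := (tendsto_inv_atTop_zero (𝕜 := ℝ)).comp (tendsto_pow_atTop (α := ℝ) three_ne_zero)
      refine this.congr fun u => ?_
      simp
    have e3 := ((e1.sub e2).mul a1a_tend).neg
    simpa using e3
  have hv := integral_Ioi_of_hasDerivAt_of_tendsto' hd hi ht
  have hle := setIntegral_mono_on hi a1a_int.integrableOn measurableSet_Ioi hb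
  rw [hv] at hle
  linarith

end Pool.Agent.KZ
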