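import Pool.Agent.KZ.A1

set_option autoImplicit false
set_option linter.unusedSectionVars false

namespace Pool.Agent.KZ

open MeasureTheory ProbabilityTheory Set Real Filter Topology

theorem qq_nonneg (t : ℝ) : 0 ≤ qq t := Qb_nonneg _

/-- PROOF. `Qb_exp` at `t/√3`: `(t/√3)²/2 = t²/6`. -/
theorem qq_exp (t : ℝ) (ht : 0 ≤ t) : qq t ≤ exp (-t ^ 2 / 6) := by
  have h1 := Qb_exp (t / √3) (by positivity)
  have h2 : -(t / √3) ^ 2 / 2 = -t ^ 2 / 6 := by
    rw [div_pow, Real.sq_sqrt (by norm_num)]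
    ring
  rw [h2] at h1
  exact h1

/-- PROOF. `Qb_low` at `t/√3 ≤ t`. -/
theorem qq_low (t : ℝ) (ht : 0 ≤ t) : exp (-t ^ 2 / 6) / (12 * (1 + t)) ≤ qq t := by
  have h1 := Qb_low (t / √3) (by positivity)
  have h2 : -(t / √3) ^ 2 / 2 = -t ^ 2 / 6 := by
    rw [div_pow, Real.sq_sqrt (by norm_num)]
    ring
  rw [h2] at h1
  have h3 : t / √3 ≤ t := by
    apply div_le_self ht
    rw [← Real.sqrt_one]
    exact Real.sqrt_le_sqrt (by norm_num)
  have h0 : 0 ≤ t / √3 := by positivity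
  have h4 : exp (-t ^ 2 / 6) / (12 * (1 + t)) ≤ exp (-t ^ 2 / 6) / (12 * (1 + t / √3)) := by
    apply div_le_div_of_nonneg_left (exp_pos _).le (by positivity)
    linarith
  exact le_trans h4 h1

theorem qq_half (t : ℝ) (ht : t ≤ 0) : 1 / 2 ≤ qq t := by
  apply Qb_half
  exact div_nonpos_of_nonpos_of_nonneg ht (Real.sqrt_nonneg 3)

/-- PROOF. `Qb_lim` composed with `t ↦ t/√3` (tends to `∞`), multiplied by `√3`: `√3/√(2π) = 2 c1`. -/
theorem qq_lim : Tendsto (fun t : ℝ => t * exp (t ^ 2 / 6) * qq t) atTop (𝓝 (2 * c1)) := by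
  have h3 : (0 : ℝ) < √3 := Real.sqrt_pos.mpr (by norm_num)
  have h1 : Tendsto (fun t : ℝ => t / √3) atTop atTop := tendsto_id.atTop_div_const h3
  have h2 := (Qb_lim.comp h1).const_mul (√3)
  have h4 : √3 * (1 / √(2 * π)) = 2 * c1 := by
    unfold c1
    have h6 : √(2 * π) ≠ 0 := (Real.sqrt_pos.mpr (by positivity)).ne'
    field_simp
  rw [h4] at h2
  refine h2.congr (fun t => ?_)
  simp only [Function.comp]
  have h5 : (t / √3) ^ 2 / 2 = t ^ 2 / 6 := by
    rw [div_pow, Real.sq_sqrt (by norm_num)]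
    ring
  rw [h5]
  change √3 * (t / √3 * exp (t ^ 2 / 6) * Qb (t / √3)) = t * exp (t ^ 2 / 6) * Qb (t / √3)
  field_simp

end Pool.Agent.KZ
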