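import Pool.Agent.KZ.Base

set_option autoImplicit false
set_option linter.unusedSectionVars false

namespace Pool.Agent.KZ

open MeasureTheory ProbabilityTheory Set Real Filter Topology

variable {ι : Type} [Fintype ι]

theorem lf_meas (c : ι → ℝ) : Measurable (lf c) := by
  unfold lf
  fun_prop

theorem lf_add (c d y : ι → ℝ) : lf (c + d) y = lf c y + lf d y := by
  simp only [lf, Pi.add_apply, add_mul, Finset.sum_add_distrib]

theorem lf_sub (c d y : ι → ℝ) : lf (c - d) y = lf c y - lf d y := by
  simp only [lf, Pi.sub_apply, sub_mul, Finset.sum_sub_distrib]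

theorem ip_add_left (c d e : ι → ℝ) : ip (c + d) e = ip c e + ip d e := by
  simp only [ip, Pi.add_apply, add_mul, Finset.sum_add_distrib]

theorem ip_sub_left (c d e : ι → ℝ) : ip (c - d) e = ip c e - ip d e := by
  simp only [ip, Pi.sub_apply, sub_mul, Finset.sum_sub_distrib]

theorem ip_comm (c d : ι → ℝ) : ip c d = ip d c := by
  simp only [ip, mul_comm]

theorem ip_self_nonneg (c : ι → ℝ) : 0 ≤ ip c c :=
  Finset.sum_nonneg fun i _ => mul_self_nonneg (c i)

theorem b1_indep : iIndepFun (fun (i : ι) (y : ι → ℝ) => y i) (gm ι) := by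
  have h := iIndepFun_pi (μ := fun _ : ι => gaussianReal 0 1) (X := fun _ => id)
    (fun _ => aemeasurable_id)
  exact h

theorem b1_law (i : ι) : (gm ι).map (fun y => y i) = gaussianReal 0 1 :=
  (measurePreserving_eval (fun _ : ι => gaussianReal 0 1) i).map_eq

theorem b1_coord (i : ι) : HasGaussianLaw (fun y : ι → ℝ => y i) (gm ι) :=
  ⟨by rw [b1_law]; infer_instance⟩

theorem b1_gauss : HasGaussianLaw (fun y : ι → ℝ => fun i => y i) (gm ι) :=
  b1_indep.hasGaussianLaw b1_coord

/-- the continuous linear map of a linear form -/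
noncomputable def b1_L (c : ι → ℝ) : (ι → ℝ) →L[ℝ] ℝ :=
  ∑ i, c i • (ContinuousLinearMap.proj i : (ι → ℝ) →L[ℝ] ℝ)

theorem b1_L_apply (c y : ι → ℝ) : b1_L c y = lf c y := by
  unfold b1_L lf
  rw [ContinuousLinearMap.sum_apply]
  rfl

/-- pairs of linear forms are jointly Gaussian.
PROOF. The coordinates are independent under `Measure.pi` (`iIndepFun_pi` or similar, functions `fun y => y i`), each with law
`gaussianReal 0 1`; `iIndepFun.hasGaussianLaw` (Mathlib/Probability/Distributions/Gaussian/HasGaussianLaw/Independence) gives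
`HasGaussianLaw (fun y => y) (gm ι)`; then `HasGaussianLaw.map` with the continuous linear map `y ↦ (lf c y, lf d y)` into `ℝ × ℝ`
(`LinearMap.toContinuousLinearMap` or sums of `ContinuousLinearMap.proj`). -/
theorem lf_gauss2 (c d : ι → ℝ) : HasGaussianLaw (fun y => (lf c y, lf d y)) (gm ι) := by
  have h := b1_gauss.map_fun ((b1_L c).prod (b1_L d))
  have e : (fun y : ι → ℝ => ((b1_L c).prod (b1_L d)) (fun i => y i)) =
      fun y => (lf c y, lf d y) := by
    funext y
    rw [ContinuousLinearMap.prod_apply]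
    exact Prod.ext (b1_L_apply c y) (b1_L_apply d y)
  rw [e] at h
  exact h

theorem lf_gauss (c : ι → ℝ) : HasGaussianLaw (lf c) (gm ι) := (lf_gauss2 c c).fst

theorem b1_mean (i : ι) : ∫ y : ι → ℝ, y i ∂(gm ι) = 0 := by
  have h : ∫ x, x ∂((gm ι).map (fun y => y i)) = ∫ y : ι → ℝ, y i ∂(gm ι) :=
    integral_map (measurable_pi_apply i).aemeasurable (by fun_prop)
  rw [← h, b1_law, integral_id_gaussianReal]

theorem b1_memLp (i : ι) : MemLp (fun y : ι → ℝ => y i) 2 (gm ι) := (b1_coord i).memLp_two

/-- PROOF. Linearity and `∫ y, y i ∂(gm ι) = ∫ x, x ∂(gaussianReal 0 1) = 0` (`measurePreserving_eval`, `integral_id_gaussianReal`). -/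
theorem lf_mean (c : ι → ℝ) : ∫ y, lf c y ∂(gm ι) = 0 := by
  unfold lf
  rw [integral_finsetSum]
  · refine Finset.sum_eq_zero fun i _ => ?_
    rw [integral_const_mul, b1_mean, mul_zero]
  · intro i _
    exact ((b1_memLp i).integrable (by norm_num)).const_mul (c i)

theorem b1_cov [DecidableEq ι] (i j : ι) :
    cov[fun y : ι → ℝ => y i, fun y : ι → ℝ => y j; gm ι] = if i = j then 1 else 0 := by
  by_cases h : i = j
  · subst h
    rw [if_pos rfl, covariance_self (measurable_pi_apply i).aemeasurable]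
    have h2 := variance_map (μ := gm ι) (Y := fun y : ι → ℝ => y i) (X := fun x : ℝ => x)
      (by fun_prop) (measurable_pi_apply i).aemeasurable
    rw [b1_law, variance_fun_id_gaussianReal] at h2
    have h3 : Var[(fun x : ℝ => x) ∘ (fun y : ι → ℝ => y i); gm ι] =
        Var[fun y : ι → ℝ => y i; gm ι] := rfl
    rw [h3] at h2
    rw [← h2]
    simp
  · rw [if_neg h]
    exact (b1_indep.indepFun h).covariance_eq_zero (b1_memLp i) (b1_memLp j)

/-- PROOF. Bilinearity (`covariance_fun_sum_left`, ...), `cov` of different coordinates is `0` (`IndepFun.covariance_eq_zero`), `cov` of a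
coordinate with itself is its variance `1` (`variance_id_gaussianReal`). -/
theorem lf_cov (c d : ι → ℝ) : cov[lf c, lf d; gm ι] = ip c d := by
  classical
  have h : cov[fun y : ι → ℝ => ∑ i, c i * y i, fun y : ι → ℝ => ∑ j, d j * y j; gm ι] =
      ∑ i, ∑ j, cov[fun y : ι → ℝ => c i * y i, fun y : ι → ℝ => d j * y j; gm ι] :=
    covariance_fun_sum_fun_sum (fun i => (b1_memLp i).const_mul (c i))
      (fun j => (b1_memLp j).const_mul (d j))
  have e1 : lf c = fun y : ι → ℝ => ∑ i, c i * y i := rfl
  have e2 : lf d = fun y : ι → ℝ => ∑ j, d j * y j := rfl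
  rw [e1, e2, h]
  unfold ip
  refine Finset.sum_congr rfl fun i _ => ?_
  have h2 : ∀ j, cov[fun y : ι → ℝ => c i * y i, fun y : ι → ℝ => d j * y j; gm ι] =
      if i = j then c i * d j else 0 := by
    intro j
    rw [covariance_const_mul_left, covariance_const_mul_right, b1_cov]
    split_ifs
    · ring
    · ring
  rw [Finset.sum_congr rfl fun j _ => h2 j, Finset.sum_ite_eq, if_pos (Finset.mem_univ _)]

/-- PROOF. `HasGaussianLaw.map_eq_gaussianReal`, `lf_mean`, `lf_cov` (`covariance_self`). -/
theorem lf_law (c : ι → ℝ) : (gm ι).map (lf c) = gaussianReal 0 (ip c c).toNNReal := by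
  rw [(lf_gauss c).map_eq_gaussianReal, lf_mean, ← covariance_self (lf_meas c).aemeasurable, lf_cov]

/-- PROOF. `HasGaussianLaw.indepFun_of_covariance_eq_zero`. -/
theorem lf_indep (c d : ι → ℝ) (h : ip c d = 0) : IndepFun (lf c) (lf d) (gm ι) :=
  (lf_gauss2 c d).indepFun_of_covariance_eq_zero (by rw [lf_cov, h])

end Pool.Agent.KZ
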