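import Pool.Agent.KZ.B1
import Pool.Agent.KZ.A1

set_option autoImplicit false
set_option linter.unusedSectionVars false

namespace Pool.Agent.KZ

open MeasureTheory ProbabilityTheory Set Real Filter Topology

variable {ι : Type} [Fintype ι]

/-- PROOF. `lf_law`: the left side is `(gaussianReal 0 v).real (Iio (-t))` (`map_measureReal_apply`); `gaussianReal 0 v` is the law of
`√v N` (`gaussianReal_map_const_mul`), so it is `(gaussianReal 0 1).real (Iio (-t/√v))`. -/
theorem lf_tail (c : ι → ℝ) (v : ℝ) (hv : 0 < v) (h : ip c c = v) (t : ℝ) :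
    (gm ι).real {y | lf c y < -t} = Qb (t / √v) := by
  have hs : 0 < √v := Real.sqrt_pos.2 hv
  have e1 : (gm ι).real {y | lf c y < -t} = (gaussianReal 0 v.toNNReal).real (Iio (-t)) := by
    rw [← h, ← lf_law c, map_measureReal_apply (lf_meas c) measurableSet_Iio]
    rfl
  have e2 : (gaussianReal 0 1).map (√v * ·) = gaussianReal 0 v.toNNReal := by
    rw [gaussianReal_map_const_mul]
    congr 1
    · ring
    · rw [mul_one]
      apply NNReal.eq
      rw [NNReal.coe_mk, Real.sq_sqrt hv.le, Real.coe_toNNReal v hv.le]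
  rw [e1, ← e2, map_measureReal_apply (by fun_prop) measurableSet_Iio, Qb]
  congr 1
  ext x
  simp only [mem_preimage, mem_Iio]
  rw [← neg_div, lt_div_iff₀ hs, mul_comm]

/-- PROOF. With `w = ip c c`, `λ = t/v ≥ 0`: Chernoff (`measure_le_le_exp_mul_mgf` on the law, `mgf_gaussianReal`, valid for `w = 0` as well):
`P(lf c < -t) ≤ exp (-λ t + λ² w/2) ≤ exp (-λ t + λ² v/2) = exp (-t²/(2v))`. -/
theorem lf_chernoff (c : ι → ℝ) (v : ℝ) (hv : 0 < v) (h : ip c c ≤ v) (t : ℝ) (ht : 0 ≤ t) :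
    (gm ι).real {y | lf c y < -t} ≤ exp (-t ^ 2 / (2 * v)) := by
  have hw : 0 ≤ ip c c := ip_self_nonneg c
  have e1 : (gm ι).real {y | lf c y < -t} = (gaussianReal 0 (ip c c).toNNReal).real (Iio (-t)) := by
    rw [← lf_law c, map_measureReal_apply (lf_meas c) measurableSet_Iio]
    rfl
  have hlam : -(t / v) ≤ 0 := by
    have : 0 ≤ t / v := by positivity
    linarith
  have h1 := measure_le_le_exp_mul_mgf (μ := gaussianReal 0 (ip c c).toNNReal) (X := fun x => x)
    (-t) hlam (integrable_exp_mul_gaussianReal _)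
  rw [show (fun x : ℝ => x) = id from rfl, mgf_id_gaussianReal] at h1
  have h2 : (gaussianReal 0 (ip c c).toNNReal).real (Iio (-t)) ≤
      (gaussianReal 0 (ip c c).toNNReal).real {x : ℝ | x ≤ -t} :=
    measureReal_mono (fun x hx => by
      simp only [mem_ofPred_eq]
      exact (mem_Iio.1 hx).le)
  rw [e1]
  refine (h2.trans h1).trans ?_
  rw [← exp_add]
  apply exp_le_exp.2
  rw [Real.coe_toNNReal _ hw]
  have h3 : ip c c * (t / v) ^ 2 ≤ v * (t / v) ^ 2 := mul_le_mul_of_nonneg_right h (sq_nonneg _)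
  have h4 : v * (t / v) ^ 2 = t ^ 2 / v := by field_simp
  have h5 : - -(t / v) * -t + (0 * -(t / v) + ip c c * (-(t / v)) ^ 2 / 2)
      = -(t ^ 2 / v) + ip c c * (t / v) ^ 2 / 2 := by ring
  have h6 : -t ^ 2 / (2 * v) = -(t ^ 2 / v) + t ^ 2 / v / 2 := by field_simp; ring
  rw [h5, h6]
  linarith

/-- joint tail for nonpositive covariance.
PROOF. The event is contained in `{lf (c + d) < -(2t)}`, `ip (c+d) (c+d) = 6 + 2 ip c d ≤ 6`; `lf_chernoff` with `v = 6`:
`exp (-(2t)²/12)`. -/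
theorem joint0 (c d : ι → ℝ) (hc : ip c c = 3) (hd : ip d d = 3) (hcd : ip c d ≤ 0) (t : ℝ)
    (ht : 0 ≤ t) : (gm ι).real {y | lf c y < -t ∧ lf d y < -t} ≤ exp (-t ^ 2 / 3) := by
  have h1 : ip (c + d) (c + d) ≤ 6 := by
    rw [ip_add_left, ip_comm c (c + d), ip_comm d (c + d), ip_add_left, ip_add_left, hc, hd,
      ip_comm d c]
    linarith
  have h2 := lf_chernoff (c + d) 6 (by norm_num) h1 (2 * t) (by linarith)
  have h3 : (gm ι).real {y | lf c y < -t ∧ lf d y < -t} ≤
      (gm ι).real {y | lf (c + d) y < -(2 * t)} := by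
    refine measureReal_mono ?_
    intro y hy
    simp only [mem_ofPred_eq] at hy ⊢
    rw [lf_add]
    linarith [hy.1, hy.2]
  refine (h3.trans h2).trans_eq ?_
  congr 1
  ring

end Pool.Agent.KZ
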