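import Pool.Agent.KZ.A1

set_option autoImplicit false
set_option linter.unusedSectionVars false

namespace Pool.Agent.KZ

open MeasureTheory ProbabilityTheory Set Real Filter Topology

theorem b3a_int (a : ℝ) (ha : 0 < a) : Integrable (fun x : ℝ => exp (-(a * |x|))) := by
  rw [← integrableOn_univ, ← Iic_union_Ioi (a := (0 : ℝ))]
  refine IntegrableOn.union ?_ ?_
  · refine (integrableOn_exp_mul_Iic ha 0).congr_fun (fun x hx => ?_) measurableSet_Iic
    simp only
    rw [abs_of_nonpos hx]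
    ring_nf
  · refine (integrableOn_exp_mul_Ioi (neg_neg_of_pos ha) 0).congr_fun (fun x hx => ?_)
      measurableSet_Ioi
    simp only
    rw [abs_of_pos hx]
    ring_nf

theorem b3a_val (a : ℝ) (ha : 0 < a) : ∫ x : ℝ, exp (-(a * |x|)) = 2 / a := by
  have h := integral_comp_abs (f := fun x => exp (-(a * x)))
  have h2 := integral_exp_mul_Ioi (neg_neg_of_pos ha) 0
  have h3 : ∫ x in Ioi (0 : ℝ), exp (-(a * x)) = ∫ x in Ioi (0 : ℝ), exp (-a * x) := by
    refine setIntegral_congr_fun measurableSet_Ioi fun x _ => ?_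
    ring_nf
  rw [h, h3, h2, mul_zero, exp_zero]
  field_simp

theorem b3a_tail (x : ℝ) (hx : 0 < x) : gaussianReal 0 8 (Iio (-x)) ≤
    ENNReal.ofReal (exp (-(x ^ 2 / 16)) / (x * √π / 2)) := by
  have h8 : (0 : ℝ) < √8 := Real.sqrt_pos.2 (by norm_num)
  have h1 : gaussianReal 0 8 = (gaussianReal 0 1).map (√8 * ·) := by
    rw [gaussianReal_map_const_mul, mul_zero, mul_one]
    congr 1
    apply NNReal.eq
    show (8 : ℝ) = √8 ^ 2
    rw [Real.sq_sqrt (by norm_num)]
  have h2 : (fun u : ℝ => √8 * u) ⁻¹' (Iio (-x)) = Iio (-(x / √8)) := by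
    ext u
    simp only [mem_preimage, mem_Iio]
    rw [← neg_div, lt_div_iff₀ h8, mul_comm]
  have h3 : gaussianReal 0 8 (Iio (-x)) = ENNReal.ofReal (Qb (x / √8)) := by
    rw [h1, Measure.map_apply (measurable_const_mul _) measurableSet_Iio, h2]
    unfold Qb Measure.real
    rw [ENNReal.ofReal_toReal (measure_ne_top _ _)]
  rw [h3]
  apply ENNReal.ofReal_le_ofReal
  refine (Qb_mills (x / √8) (by positivity)).trans (le_of_eq ?_)
  have e1 : -(x / √8) ^ 2 / 2 = -(x ^ 2 / 16) := by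
    rw [div_pow, Real.sq_sqrt (by norm_num)]
    ring
  have e2 : √(2 * π) = √2 * √π := Real.sqrt_mul (by norm_num) π
  have e3 : √8 = 2 * √2 := by
    have : (8 : ℝ) = 2 ^ 2 * 2 := by norm_num
    rw [this, Real.sqrt_mul (by norm_num), Real.sqrt_sq (by norm_num)]
  have e4 : x / √8 * √(2 * π) = x * √π / 2 := by
    rw [e2, e3]
    have : √2 ≠ 0 := (Real.sqrt_pos.2 (by norm_num)).ne'
    field_simp
  rw [e1, e4]

/-- the two-dimensional estimate: `S ~ N(0,8)` and `D ~ N(0,4)` independent.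
PROOF. Fubini over the second coordinate (`measureReal_prod`-type lemma / `Measure.prod_apply_symm` and `integral`): the left side is
`∫ P(S < -(2t + |d|)) dN(0,4)(d)`, and `P(N(0,8) < -x) = Qb (x/√8) ≤ exp (-x²/16) √8/(x √(2π))` (`Qb_mills`,
`gaussianReal 0 8` = law of `√8 N`). For `x = 2t + |d| ≥ 2t`: `x² ≥ 4t² + 4t|d|`, so the integrand is at most
`(√8/(2t√(2π))) exp (-t²/4) exp (-t|d|/4) = exp (-t²/4) exp (-t|d|/4)/(t√π)`. The density of `N(0,4)` is at most `1/(2√(2π))`, so
`∫ exp (-t|d|/4) dN(0,4)(d) ≤ (1/(2√(2π))) ∫ exp (-t|d|/4) dd = (1/(2√(2π))) (8/t) = 4/(t√(2π))`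
(`integral_exp_neg_mul_abs`-type, or twice `∫_0^∞`). Product: `4/(√π √(2π)) exp (-t²/4)/t²` and `4/(√2 π) < 1`. -/
theorem fine_abs (t : ℝ) (ht : 0 < t) :
    ((gaussianReal 0 8).prod (gaussianReal 0 4)).real {p : ℝ × ℝ | p.1 + |p.2| < -(2 * t)} ≤
      exp (-t ^ 2 / 4) / t ^ 2 := by
  have hπ := Real.pi_gt_three
  have hπ0 : 0 < √π := Real.sqrt_pos.2 Real.pi_pos
  have hA : MeasurableSet {p : ℝ × ℝ | p.1 + |p.2| < -(2 * t)} :=
    measurableSet_lt (by fun_prop) (by fun_prop)
  set K : ℝ := exp (-(t ^ 2 / 4)) / (t * √π) with hK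
  have hK0 : 0 < K := by positivity
  set c : ℝ := (√(2 * π * 4))⁻¹ with hc
  have hc0 : 0 < c := by
    rw [hc]
    have : 0 < √(2 * π * 4) := Real.sqrt_pos.2 (by positivity)
    positivity
  have hint := b3a_int (t / 4) (by positivity)
  have hval := b3a_val (t / 4) (by positivity)
  have key : ((gaussianReal 0 8).prod (gaussianReal 0 4)) {p : ℝ × ℝ | p.1 + |p.2| < -(2 * t)} ≤
      ENNReal.ofReal (exp (-t ^ 2 / 4) / t ^ 2) := by
    rw [Measure.prod_apply_symm hA]
    have h1 : ∀ y : ℝ, gaussianReal 0 8 ((fun x => (x, y)) ⁻¹' {p : ℝ × ℝ | p.1 + |p.2| < -(2 * t)}) ≤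
        ENNReal.ofReal (K * exp (-(t / 4 * |y|))) := by
      intro y
      have h2 : (fun x => (x, y)) ⁻¹' {p : ℝ × ℝ | p.1 + |p.2| < -(2 * t)} =
          Iio (-(2 * t + |y|)) := by
        ext x
        simp only [mem_preimage, mem_ofPred_eq, mem_Iio]
        constructor <;> intro h <;> linarith
      have hy : 0 ≤ |y| := abs_nonneg y
      have hx0 : 0 < 2 * t + |y| := by linarith
      rw [h2]
      refine (b3a_tail _ hx0).trans (ENNReal.ofReal_le_ofReal ?_)
      have h3 : exp (-((2 * t + |y|) ^ 2 / 16)) ≤ exp (-(t ^ 2 / 4)) * exp (-(t / 4 * |y|)) := by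
        rw [← exp_add]
        apply Real.exp_le_exp.2
        nlinarith [sq_nonneg |y|, mul_nonneg ht.le hy]
      have h4 : t * √π ≤ (2 * t + |y|) * √π / 2 := by nlinarith
      calc exp (-((2 * t + |y|) ^ 2 / 16)) / ((2 * t + |y|) * √π / 2)
          ≤ (exp (-(t ^ 2 / 4)) * exp (-(t / 4 * |y|))) / (t * √π) :=
            div_le_div₀ (by positivity) h3 (by positivity) h4
        _ = K * exp (-(t / 4 * |y|)) := by rw [hK]; ring
    refine (lintegral_mono h1).trans ?_
    rw [gaussianReal_of_var_ne_zero 0 (by norm_num : (4 : NNReal) ≠ 0),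
      lintegral_withDensity_eq_lintegral_mul _ (measurable_gaussianPDF _ _) (by fun_prop)]
    have h5 : ∀ y : ℝ, (gaussianPDF 0 4 * fun y => ENNReal.ofReal (K * exp (-(t / 4 * |y|)))) y ≤
        ENNReal.ofReal (c * K * exp (-(t / 4 * |y|))) := by
      intro y
      rw [Pi.mul_apply, gaussianPDF_def, ← ENNReal.ofReal_mul (gaussianPDFReal_nonneg _ _ _)]
      apply ENNReal.ofReal_le_ofReal
      have h6 : gaussianPDFReal 0 4 y ≤ c := by
        unfold gaussianPDFReal
        have h7 : exp (-(y - 0) ^ 2 / (2 * ((4 : NNReal) : ℝ))) ≤ 1 := by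
          apply Real.exp_le_one_iff.2
          apply div_nonpos_of_nonpos_of_nonneg
          · have := sq_nonneg (y - 0)
            linarith
          · positivity
        have h8 : (√(2 * π * ((4 : NNReal) : ℝ)))⁻¹ = c := by rw [hc]; rfl
        rw [h8]
        nlinarith
      rw [mul_assoc]
      exact mul_le_mul_of_nonneg_right h6 (by positivity)
    refine (lintegral_mono h5).trans ?_
    rw [← ofReal_integral_eq_lintegral_ofReal (hint.const_mul _)
      (Filter.Eventually.of_forall fun y => by positivity)]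
    apply ENNReal.ofReal_le_ofReal
    rw [integral_const_mul, hval]
    have h9 : 8 ≤ √(2 * π * 4) * √π := by
      rw [← Real.sqrt_mul (by positivity)]
      apply Real.le_sqrt_of_sq_le
      nlinarith
    have h10 : 0 < √(2 * π * 4) := Real.sqrt_pos.2 (by positivity)
    have e1 : -t ^ 2 / 4 = -(t ^ 2 / 4) := by ring
    rw [hc, hK, e1]
    have e2 : (√(2 * π * 4))⁻¹ * (exp (-(t ^ 2 / 4)) / (t * √π)) * (2 / (t / 4)) =
        exp (-(t ^ 2 / 4)) / t ^ 2 * (8 / (√(2 * π * 4) * √π)) := by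
      field_simp
      ring
    rw [e2]
    have h11 : 8 / (√(2 * π * 4) * √π) ≤ 1 := (div_le_one (by positivity)).2 h9
    have h12 : 0 ≤ exp (-(t ^ 2 / 4)) / t ^ 2 := by positivity
    nlinarith
  unfold Measure.real
  exact ENNReal.toReal_le_of_le_ofReal (by positivity) key

end Pool.Agent.KZ
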