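import Pool.Agent.KZ.B2
import Pool.Agent.KZ.B3a

set_option autoImplicit false
set_option linter.unusedSectionVars false

namespace Pool.Agent.KZ

open MeasureTheory ProbabilityTheory Set Real Filter Topology

variable {ι : Type} [Fintype ι]

/-- joint tail for covariance one.
PROOF. `S = lf (c + d)`, `D = lf (c - d)`: `ip (c+d) (c-d) = 3 - 3 = 0`, so they are independent (`lf_indep`), with laws `N(0,8)` (`3 + 3 + 2`) and
`N(0,4)` (`lf_law`), so the law of `(S, D)` is the product (`indepFun_iff_map_prod_eq_prod_map_map`). If `lf c y < -t` and `lf d y < -t` then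
`S + |D| = 2 max (lf c y) (lf d y) < -2t`. Apply `fine_abs`. -/
theorem fine (c d : ι → ℝ) (hc : ip c c = 3) (hd : ip d d = 3) (hcd : ip c d = 1) (t : ℝ)
    (ht : 0 < t) : (gm ι).real {y | lf c y < -t ∧ lf d y < -t} ≤ exp (-t ^ 2 / 4) / t ^ 2 := by
  have e1 : ip (c + d) (c + d) = 8 := by
    rw [ip_add_left, ip_comm c (c + d), ip_comm d (c + d), ip_add_left, ip_add_left, hc, hd,
      ip_comm d c, hcd]
    norm_num
  have e2 : ip (c - d) (c - d) = 4 := by
    rw [ip_sub_left, ip_comm c (c - d), ip_comm d (c - d), ip_sub_left, ip_sub_left, hc, hd,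
      ip_comm d c, hcd]
    norm_num
  have e3 : ip (c + d) (c - d) = 0 := by
    rw [ip_add_left, ip_comm c (c - d), ip_comm d (c - d), ip_sub_left, ip_sub_left, hc, hd,
      ip_comm d c, hcd]
    norm_num
  have hm1 := lf_meas (c + d)
  have hm2 := lf_meas (c - d)
  have hi := (indepFun_iff_map_prod_eq_prod_map_map hm1.aemeasurable hm2.aemeasurable).1
    (lf_indep (c + d) (c - d) e3)
  rw [lf_law, lf_law, e1, e2] at hi
  have h8 : (8 : ℝ).toNNReal = 8 := by
    apply NNReal.eq
    simp
  have h4 : (4 : ℝ).toNNReal = 4 := by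
    apply NNReal.eq
    simp
  rw [h8, h4] at hi
  have hA : MeasurableSet {p : ℝ × ℝ | p.1 + |p.2| < -(2 * t)} :=
    measurableSet_lt (by fun_prop) (by fun_prop)
  refine le_trans ?_ (fine_abs t ht)
  rw [← hi, map_measureReal_apply (hm1.prodMk hm2) hA]
  refine measureReal_mono ?_
  rintro y ⟨h1, h2⟩
  show lf (c + d) y + |lf (c - d) y| < -(2 * t)
  rw [lf_add, lf_sub]
  have h3 : |lf c y - lf d y| < -(2 * t) - (lf c y + lf d y) := by
    rw [abs_lt]
    constructor <;> linarith
  linarith

end Pool.Agent.KZ
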