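import Mathlib

/-!
# KZ: asymptotics of the proportion of `a`-cores coming from numerical semigroups

Definitions.
-/

set_option autoImplicit false

namespace Pool.Agent.KZ

open MeasureTheory ProbabilityTheory Set Real

/-- The law of a vector of independent standard Gaussians with index set `ι`. -/
noncomputable def gm (ι : Type) [Fintype ι] : Measure (ι → ℝ) :=
  Measure.pi (fun _ : ι => gaussianReal 0 1)

instance (ι : Type) [Fintype ι] : IsProbabilityMeasure (gm ι) := by
  unfold gm; infer_instance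

/-- The Gaussian tail `P(N < -x) = P(N > x)`. -/
noncomputable def Qb (x : ℝ) : ℝ := (gaussianReal 0 1).real (Iio (-x))

/-- `P(N(0,3) < -t)` -/
noncomputable def qq (t : ℝ) : ℝ := Qb (t / √3)

section

variable {ι : Type} [Fintype ι]

/-- linear form -/
def lf (c y : ι → ℝ) : ℝ := ∑ i, c i * y i

/-- inner product of coefficient vectors -/
def ip (c d : ι → ℝ) : ℝ := ∑ i, c i * d i

/-- the vector `e_u + e_v - e_w` -/
def tri [DecidableEq ι] (u v w : ι) : ι → ℝ := Pi.single u 1 + Pi.single v 1 - Pi.single w 1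

/-- the set `A` depends only on the coordinates in `S` -/
def Dep (A : Set (ι → ℝ)) (S : Finset ι) : Prop :=
  ∀ y y' : ι → ℝ, (∀ i ∈ S, y i = y' i) → (y ∈ A ↔ y' ∈ A)

end

/-- the cone of the general formula -/
def Cone (a : ℕ) : Set (ZMod a → ℝ) := {y | ∀ i j : ZMod a, y (i + j) + y 0 ≤ y i + y j}

/-- the conditional probability given `y 0 = -t` -/
noncomputable def PP (a : ℕ) [NeZero a] (t : ℝ) : ℝ :=
  (gm (ZMod a)).real {y | Function.update y 0 (-t) ∈ Cone a}

/-- the generic pairs -/
def gen (a : ℕ) [NeZero a] : Finset (ZMod a × ZMod a) :=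
  Finset.univ.filter (fun p => p.1.val < p.2.val ∧ p.1 ≠ 0 ∧ p.1 + p.2 ≠ 0)

/-- no violated generic inequality at height `t` -/
def NB (a : ℕ) [NeZero a] (t : ℝ) : Set (ZMod a → ℝ) :=
  {y | ∀ p ∈ gen a, -t ≤ y p.1 + y p.2 - y (p.1 + p.2)}

/-- the constant `√3 / (2 √(2π))` -/
noncomputable def c1 : ℝ := √3 / (2 * √(2 * π))

end Pool.Agent.KZ
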