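import Pool.Agent.KZ.C1a

set_option autoImplicit false
set_option linter.unusedSectionVars false

namespace Pool.Agent.KZ

open MeasureTheory ProbabilityTheory Set Real Filter Topology

variable {ι : Type} [Fintype ι]

/-- product formula for events depending on pairwise disjoint sets of coordinates.
PROOF. Induction on `K`: `range (K+1) = insert K (range K)` (`Finset.range_add_one`, `Finset.set_biInter_insert`); the event
`⋂ k < K, A k` depends on `(range K).biUnion S` (`Dep.iInter`, `Dep.mono`), which is disjoint from `S K`; use `ind`. -/
theorem prod_ind [DecidableEq ι] (K : ℕ) (S : ℕ → Finset ι)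
    (hS : ∀ k < K, ∀ l < K, k ≠ l → Disjoint (S k) (S l)) (A : ℕ → Set (ι → ℝ))
    (hA : ∀ k, MeasurableSet (A k)) (hD : ∀ k < K, Dep (A k) (S k)) :
    (gm ι).real (⋂ k ∈ Finset.range K, A k) = ∏ k ∈ Finset.range K, (gm ι).real (A k) := by
  induction K with
  | zero =>
    have : IsProbabilityMeasure (gm ι) := inferInstance
    simp
  | succ K ih =>
    have ih' := ih (fun k hk l hl h => hS k (by omega) l (by omega) h)
      (fun k hk => hD k (by omega))
    rw [Finset.prod_range_succ, ← ih', Finset.range_add_one, Finset.set_biInter_insert,
      inter_comm]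
    refine ind ((Finset.range K).biUnion S) (S K) ?_ _ _ ?_ (hA K) ?_ (hD K (by omega))
    · rw [Finset.disjoint_biUnion_left]
      intro k hk
      have hk' := Finset.mem_range.mp hk
      exact hS k (by omega) K (by omega) (by omega)
    · exact Finset.measurableSet_biInter _ (fun k _ => hA k)
    · apply Dep.iInter
      intro k hk
      have hk' := Finset.mem_range.mp hk
      exact (hD k (by omega)).mono (Finset.subset_biUnion_of_mem S hk)

end Pool.Agent.KZ
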