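import Pool.Agent.KZ.Base

set_option autoImplicit false
set_option linter.unusedSectionVars false

namespace Pool.Agent.KZ

open MeasureTheory ProbabilityTheory Set Real Filter Topology

variable {ι : Type} [Fintype ι]

theorem c1a_indep : iIndepFun (fun (i : ι) (y : ι → ℝ) => y i) (gm ι) := by
  have h := iIndepFun_pi (μ := fun _ : ι => gaussianReal 0 1) (X := fun _ => id)
    (fun _ => aemeasurable_id)
  exact h

open Classical in
/-- extension by zero -/
noncomputable def c1a_ext (S : Finset ι) (z : S → ℝ) : ι → ℝ :=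
  fun i => if h : i ∈ S then z ⟨i, h⟩ else 0

theorem c1a_ext_meas (S : Finset ι) : Measurable (c1a_ext S) := by
  rw [measurable_pi_iff]
  intro i
  unfold c1a_ext
  by_cases h : i ∈ S
  · simp only [h, dite_true]
    exact measurable_pi_apply _
  · simp only [h, dite_false]
    exact measurable_const

theorem c1a_pre (S : Finset ι) (A : Set (ι → ℝ)) (hAS : Dep A S) :
    (fun (y : ι → ℝ) (i : S) => y i) ⁻¹' (c1a_ext S ⁻¹' A) = A := by
  ext y
  rw [mem_preimage, mem_preimage]
  refine hAS _ _ fun i hi => ?_
  unfold c1a_ext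
  rw [dif_pos hi]

/-- events depending on disjoint sets of coordinates are independent.
PROOF. The coordinates `fun y => y i` are independent under `gm ι = Measure.pi ..` (`iIndepFun_pi` or similar), so
`iIndepFun.indepFun_finset S T hST` : the restrictions `y ↦ (fun i : S => y i)` and `y ↦ (fun i : T => y i)` are independent.
`A` is the preimage of the measurable set `A' = {z : S → ℝ | (fun i => if h : i ∈ S then z ⟨i, h⟩ else 0) ∈ A}` under the first restriction
(by `Dep A S`), the same for `B`; `IndepFun.measure_inter_preimage_eq_mul`. -/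
theorem ind (S T : Finset ι) (hST : Disjoint S T) (A B : Set (ι → ℝ)) (hA : MeasurableSet A)
    (hB : MeasurableSet B) (hAS : Dep A S) (hBT : Dep B T) :
    (gm ι).real (A ∩ B) = (gm ι).real A * (gm ι).real B := by
  have h := c1a_indep.indepFun_finset S T hST (fun i => measurable_pi_apply i)
  have h2 := h.measure_inter_preimage_eq_mul _ _ (c1a_ext_meas S hA) (c1a_ext_meas T hB)
  rw [c1a_pre S A hAS, c1a_pre T B hBT] at h2
  rw [measureReal_def, measureReal_def, measureReal_def, h2, ENNReal.toReal_mul]

theorem Dep.inter {A B : Set (ι → ℝ)} {S : Finset ι} (hA : Dep A S) (hB : Dep B S) :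
    Dep (A ∩ B) S := fun y y' h => and_congr (hA y y' h) (hB y y' h)

theorem Dep.compl {A : Set (ι → ℝ)} {S : Finset ι} (hA : Dep A S) : Dep Aᶜ S :=
  fun y y' h => not_congr (hA y y' h)

theorem Dep.mono {A : Set (ι → ℝ)} {S T : Finset ι} (hA : Dep A S) (h : S ⊆ T) : Dep A T :=
  fun y y' hy => hA y y' fun i hi => hy i (h hi)

theorem Dep.iInter {κ : Type*} {A : κ → Set (ι → ℝ)} {s : Finset κ} {S : Finset ι}
    (hA : ∀ k ∈ s, Dep (A k) S) : Dep (⋂ k ∈ s, A k) S := by
  intro y y' h
  simp only [mem_iInter]
  exact forall₂_congr fun k hk => hA k hk y y' h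

end Pool.Agent.KZ
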