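import Mathlib

set_option autoImplicit false
set_option linter.unusedSectionVars false

namespace Pool.Agent.KZ

open MeasureTheory ProbabilityTheory Set Real Filter Topology

/-- Poisson approximation for the probability that no event occurs (local dependence).
PROOF. Induction on `s` (`Finset.induction_on`); write `D_s = ⋂ j ∈ s, (A j)ᶜ`, `p_k = P(A k)`, `E_s` = the right side. Step `insert k s`, `k ∉ s`:
`P(D_{insert}) = P(D_s) - P(A k ∩ D_s)`. Let `u = {j ∈ s | ¬ R k j}`, `v = {j ∈ s | R k j}`; `D_s ⊆ D_u` and `D_u \ D_s ⊆ ⋃ j ∈ v, A j`, so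
`|P(A k ∩ D_s) - P(A k ∩ D_u)| ≤ ∑_{j ∈ v} P(A k ∩ A j)`, `|P(D_u) - P(D_s)| ≤ ∑_{j ∈ v} P(A j)` and `P(A k ∩ D_u) = p_k P(D_u)` (`hind`). So
`|P(A k ∩ D_s) - p_k P(D_s)| ≤ ∑_{j ∈ v} (P(A k ∩ A j) + p_k p_j) =: ε`, `|P(D_{insert}) - (1 - p_k) P(D_s)| ≤ ε` and
`|P(D_{insert}) - (1 - p_k) ∏_s (1 - p_j)| ≤ ε + (1 - p_k) |P(D_s) - ∏_s| ≤ ε + E_s ≤ E_{insert k s}` (all terms are nonnegative, the sum for
`insert k s` contains the term `k` with the inner sum over `v` (`j ≠ k` is automatic) and for the other outer indices at least the old inner sums). -/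
theorem poisson_approx {Ω κ : Type*} [MeasurableSpace Ω] (P : Measure Ω) [IsProbabilityMeasure P]
    [DecidableEq κ] (s : Finset κ) (A : κ → Set Ω) (hA : ∀ k, MeasurableSet (A k))
    (R : κ → κ → Prop) [DecidableRel R]
    (hind : ∀ k ∈ s, ∀ u ⊆ s, (∀ j ∈ u, ¬ R k j) →
      P.real (A k ∩ ⋂ j ∈ u, (A j)ᶜ) = P.real (A k) * P.real (⋂ j ∈ u, (A j)ᶜ)) :
    |P.real (⋂ j ∈ s, (A j)ᶜ) - ∏ j ∈ s, (1 - P.real (A j))| ≤
      ∑ k ∈ s, ∑ j ∈ s.filter (fun j => j ≠ k ∧ R k j),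
        (P.real (A k ∩ A j) + P.real (A k) * P.real (A j)) := by
  induction s using Finset.induction_on with
  | empty => simp
  | insert k s hk ih =>
    have ih' := ih (fun k' hk' u hu h => hind k' (Finset.mem_insert_of_mem hk') u
      (hu.trans (Finset.subset_insert _ _)) h)
    have hD : ∀ t : Finset κ, MeasurableSet (⋂ j ∈ t, (A j)ᶜ) := fun t =>
      Finset.measurableSet_biInter t (fun j _ => (hA j).compl)
    obtain ⟨u, hu⟩ : ∃ u : Finset κ, u = s.filter (fun j => ¬ R k j) := ⟨_, rfl⟩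
    obtain ⟨v, hv⟩ : ∃ v : Finset κ, v = s.filter (fun j => j ≠ k ∧ R k j) := ⟨_, rfl⟩
    have hus : u ⊆ s := by rw [hu]; exact Finset.filter_subset _ _
    have hind' := hind k (Finset.mem_insert_self _ _) u (hus.trans (Finset.subset_insert _ _))
      (fun j hj => by rw [hu, Finset.mem_filter] at hj; exact hj.2)
    have hsub : (⋂ j ∈ s, (A j)ᶜ) ⊆ ⋂ j ∈ u, (A j)ᶜ := by
      intro x hx
      simp only [Set.mem_iInter] at hx ⊢
      exact fun j hj => hx j (hus hj)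
    have hdiff : (⋂ j ∈ u, (A j)ᶜ) \ (⋂ j ∈ s, (A j)ᶜ) ⊆ ⋃ j ∈ v, A j := by
      rintro x ⟨hx1, hx2⟩
      simp only [Set.mem_iInter, Set.mem_compl_iff, not_forall, not_not] at hx1 hx2
      obtain ⟨j, hj, hxj⟩ := hx2
      simp only [Set.mem_iUnion]
      refine ⟨j, ?_, hxj⟩
      rw [hv, Finset.mem_filter]
      refine ⟨hj, fun e => hk (e ▸ hj), ?_⟩
      by_contra hR
      exact hx1 j (by rw [hu, Finset.mem_filter]; exact ⟨hj, hR⟩) hxj
    -- the events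
    have e1 : P.real (⋂ j ∈ u, (A j)ᶜ) = P.real (⋂ j ∈ s, (A j)ᶜ) +
        P.real ((⋂ j ∈ u, (A j)ᶜ) \ (⋂ j ∈ s, (A j)ᶜ)) := by
      rw [← measureReal_inter_add_sdiff (μ := P) (s := ⋂ j ∈ u, (A j)ᶜ) (hD s)]
      rw [Set.inter_eq_self_of_subset_right hsub]
    have e2 : P.real ((⋂ j ∈ u, (A j)ᶜ) \ (⋂ j ∈ s, (A j)ᶜ)) ≤ ∑ j ∈ v, P.real (A j) :=
      (measureReal_mono hdiff (measure_ne_top _ _)).trans (measureReal_biUnion_finset_le _ _)
    have e3 : P.real (A k ∩ ⋂ j ∈ u, (A j)ᶜ) = P.real (A k ∩ ⋂ j ∈ s, (A j)ᶜ) +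
        P.real (A k ∩ ((⋂ j ∈ u, (A j)ᶜ) \ (⋂ j ∈ s, (A j)ᶜ))) := by
      rw [← measureReal_inter_add_sdiff (μ := P) (s := A k ∩ ⋂ j ∈ u, (A j)ᶜ) (hD s)]
      rw [Set.inter_assoc, Set.inter_eq_self_of_subset_right hsub, Set.inter_sdiff_assoc]
    have e4 : P.real (A k ∩ ((⋂ j ∈ u, (A j)ᶜ) \ (⋂ j ∈ s, (A j)ᶜ))) ≤ ∑ j ∈ v, P.real (A k ∩ A j) := by
      refine (measureReal_mono ?_ (measure_ne_top _ _)).trans (measureReal_biUnion_finset_le v (fun j => A k ∩ A j))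
      rintro x ⟨hx1, hx2⟩
      have h3 := hdiff hx2
      simp only [Set.mem_iUnion] at h3 ⊢
      obtain ⟨j, hj, hxj⟩ := h3
      exact ⟨j, hj, hx1, hxj⟩
    have e5 : P.real (⋂ j ∈ insert k s, (A j)ᶜ) = P.real (⋂ j ∈ s, (A j)ᶜ) -
        P.real (A k ∩ ⋂ j ∈ s, (A j)ᶜ) := by
      have h1 : (⋂ j ∈ insert k s, (A j)ᶜ) = (⋂ j ∈ s, (A j)ᶜ) \ A k := by
        ext x
        simp only [Set.mem_iInter, Finset.mem_insert, Set.mem_sdiff, Set.mem_compl_iff]
        constructor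
        · intro h
          exact ⟨fun j hj => h j (Or.inr hj), h k (Or.inl rfl)⟩
        · rintro ⟨h1, h2⟩ j (rfl | hj)
          · exact h2
          · exact h1 j hj
      have h2 := measureReal_inter_add_sdiff (μ := P) (s := ⋂ j ∈ s, (A j)ᶜ) (hA k)
      rw [h1, ← h2, Set.inter_comm]
      ring
    have p0 : 0 ≤ P.real (A k) := measureReal_nonneg
    have p1 : P.real (A k) ≤ 1 := measureReal_le_one
    have q0 : 0 ≤ P.real ((⋂ j ∈ u, (A j)ᶜ) \ (⋂ j ∈ s, (A j)ᶜ)) := measureReal_nonneg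
    have q1 : 0 ≤ P.real (A k ∩ ((⋂ j ∈ u, (A j)ᶜ) \ (⋂ j ∈ s, (A j)ᶜ))) := measureReal_nonneg
    -- the right side
    have r1 : (insert k s).filter (fun j => j ≠ k ∧ R k j) = v := by
      rw [Finset.filter_insert, if_neg (by simp), hv]
    have r2 : ∀ k' ∈ s, ∑ j ∈ s.filter (fun j => j ≠ k' ∧ R k' j),
        (P.real (A k' ∩ A j) + P.real (A k') * P.real (A j)) ≤
        ∑ j ∈ (insert k s).filter (fun j => j ≠ k' ∧ R k' j),
        (P.real (A k' ∩ A j) + P.real (A k') * P.real (A j)) := by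
      intro k' _
      refine Finset.sum_le_sum_of_subset_of_nonneg
        (Finset.filter_subset_filter _ (Finset.subset_insert _ _)) ?_
      intro j _ _
      exact add_nonneg measureReal_nonneg (mul_nonneg measureReal_nonneg measureReal_nonneg)
    rw [Finset.sum_insert hk, Finset.prod_insert hk, e5, r1]
    refine le_trans ?_ (add_le_add le_rfl (Finset.sum_le_sum r2))
    rw [Finset.sum_add_distrib, ← Finset.mul_sum]
    rw [hind'] at e3
    generalize P.real (⋂ j ∈ s, (A j)ᶜ) = y at *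
    generalize P.real (⋂ j ∈ u, (A j)ᶜ) = y' at *
    generalize P.real (A k ∩ ⋂ j ∈ s, (A j)ᶜ) = x at *
    generalize P.real (A k) = p at *
    generalize P.real ((⋂ j ∈ u, (A j)ᶜ) \ (⋂ j ∈ s, (A j)ᶜ)) = a at *
    generalize P.real (A k ∩ ((⋂ j ∈ u, (A j)ᶜ) \ (⋂ j ∈ s, (A j)ᶜ))) = b at *
    generalize ∑ j ∈ v, P.real (A j) = E2 at *
    generalize ∑ j ∈ v, P.real (A k ∩ A j) = E1 at *
    generalize ∏ j ∈ s, (1 - P.real (A j)) = Q at *
    generalize (∑ k ∈ s, ∑ j ∈ s.filter (fun j => j ≠ k ∧ R k j),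
        (P.real (A k ∩ A j) + P.real (A k) * P.real (A j))) = E at *
    have h1 : y - x - (1 - p) * Q = (p * y - x) + (1 - p) * (y - Q) := by ring
    have h2 : |p * y - x| ≤ E1 + p * E2 := by
      have h3 : p * y - x = b - p * a := by
        have : p * y' = p * y + p * a := by rw [e1]; ring
        linarith
      have h4 : p * a ≤ p * E2 := mul_le_mul_of_nonneg_left e2 p0
      have h5 : 0 ≤ p * a := mul_nonneg p0 q0
      rw [h3, abs_le]
      constructor <;> linarith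
    have h3 : |(1 - p) * (y - Q)| ≤ E := by
      rw [abs_mul, abs_of_nonneg (by linarith : (0 : ℝ) ≤ 1 - p)]
      have h4 : (1 - p) * |y - Q| ≤ 1 * |y - Q| := mul_le_mul_of_nonneg_right (by linarith) (abs_nonneg _)
      linarith
    rw [h1]
    refine (abs_add_le _ _).trans ?_
    linarith

end Pool.Agent.KZ
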