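import Mathlib

set_option autoImplicit false
set_option linter.unusedSectionVars false

namespace Pool.Agent.KZ

open MeasureTheory ProbabilityTheory Set Real Filter Topology

/-- second moment bound for the probability that no event occurs.
PROOF. Let `W = ∑_{k ∈ s} 1_{A k}` (real indicator), `M = s.card`. `∫ W = M q`, `∫ W² = ∑_{k,j} P(A k ∩ A j) ≤ ∑_k (q + ∑_{j ≠ k, R} r + ∑_{j ≠ k, ¬R} q²) ≤
M q + M m r + M² q²`. On `D = ⋂ (A j)ᶜ`, `W = 0`, so `(M q)² P(D) ≤ ∫ (W - M q)² = ∫ W² - (M q)² ≤ M q + M m r`. Divide by `(M q)² > 0`. -/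
theorem second_moment {Ω κ : Type*} [MeasurableSpace Ω] (P : Measure Ω) [IsProbabilityMeasure P]
    [DecidableEq κ] (s : Finset κ) (hs : s.Nonempty) (A : κ → Set Ω) (hA : ∀ k, MeasurableSet (A k))
    (R : κ → κ → Prop) [DecidableRel R] (q r : ℝ) (hq : 0 < q) (hr : 0 ≤ r)
    (hp : ∀ k ∈ s, P.real (A k) = q)
    (h2 : ∀ k ∈ s, ∀ j ∈ s, j ≠ k → ¬ R k j → P.real (A k ∩ A j) ≤ q ^ 2)
    (h3 : ∀ k ∈ s, ∀ j ∈ s, j ≠ k → R k j → P.real (A k ∩ A j) ≤ r) (m : ℕ)
    (hm : ∀ k ∈ s, (s.filter (fun j => j ≠ k ∧ R k j)).card ≤ m) :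
    P.real (⋂ j ∈ s, (A j)ᶜ) ≤ 1 / (s.card * q) + m * r / (s.card * q ^ 2) := by
  have hM : (0 : ℝ) < s.card := by exact_mod_cast hs.card_pos
  obtain ⟨M, hMd⟩ : ∃ M : ℝ, M = (s.card : ℝ) := ⟨_, rfl⟩
  rw [← hMd] at hM ⊢
  have hint : ∀ B : Set Ω, MeasurableSet B → Integrable (B.indicator (fun _ => (1 : ℝ))) P :=
    fun B hB => (integrable_const _).indicator hB
  have hval : ∀ B : Set Ω, MeasurableSet B → ∫ ω, B.indicator (fun _ => (1 : ℝ)) ω ∂P = P.real B := by
    intro B hB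
    rw [integral_indicator_const _ hB]
    simp
  have hD : MeasurableSet (⋂ j ∈ s, (A j)ᶜ) := Finset.measurableSet_biInter s (fun j _ => (hA j).compl)
  have hmul : ∀ k j ω, (A k).indicator (fun _ => (1 : ℝ)) ω * (A j).indicator (fun _ => (1 : ℝ)) ω =
      (A k ∩ A j).indicator (fun _ => (1 : ℝ)) ω := by
    intro k j ω
    by_cases h1 : ω ∈ A k
    · by_cases h2 : ω ∈ A j
      · rw [Set.indicator_of_mem h1, Set.indicator_of_mem h2, Set.indicator_of_mem (Set.mem_inter h1 h2), one_mul]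
      · rw [Set.indicator_of_notMem h2, Set.indicator_of_notMem (fun h : ω ∈ A k ∩ A j => h2 h.2), mul_zero]
    · rw [Set.indicator_of_notMem h1, Set.indicator_of_notMem (fun h : ω ∈ A k ∩ A j => h1 h.1), zero_mul]
  have i1 : Integrable (fun ω => ∑ k ∈ s, ∑ j ∈ s, (A k ∩ A j).indicator (fun _ => (1 : ℝ)) ω) P := by
    refine integrable_finsetSum _ fun k _ => integrable_finsetSum _ fun j _ => ?_
    exact hint _ ((hA k).inter (hA j))
  have i2 : Integrable (fun ω => 2 * (M * q) * ∑ k ∈ s, (A k).indicator (fun _ => (1 : ℝ)) ω) P := by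
    refine Integrable.const_mul ?_ _
    exact integrable_finsetSum _ fun k _ => hint _ (hA k)
  have i12 : Integrable (fun ω => ∑ k ∈ s, ∑ j ∈ s, (A k ∩ A j).indicator (fun _ => (1 : ℝ)) ω -
      2 * (M * q) * ∑ k ∈ s, (A k).indicator (fun _ => (1 : ℝ)) ω) P := i1.sub i2
  have i3 : Integrable (fun ω => ∑ k ∈ s, ∑ j ∈ s, (A k ∩ A j).indicator (fun _ => (1 : ℝ)) ω -
      2 * (M * q) * ∑ k ∈ s, (A k).indicator (fun _ => (1 : ℝ)) ω + (M * q) ^ 2) P :=
    i12.add (integrable_const _)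
  have v1 : ∫ ω, ∑ k ∈ s, ∑ j ∈ s, (A k ∩ A j).indicator (fun _ => (1 : ℝ)) ω ∂P =
      ∑ k ∈ s, ∑ j ∈ s, P.real (A k ∩ A j) := by
    rw [integral_finsetSum s (fun k _ => integrable_finsetSum _ fun j _ => hint _ ((hA k).inter (hA j)))]
    refine Finset.sum_congr rfl fun k _ => ?_
    rw [integral_finsetSum s (fun j _ => hint _ ((hA k).inter (hA j)))]
    exact Finset.sum_congr rfl fun j _ => hval _ ((hA k).inter (hA j))
  have v2 : ∫ ω, 2 * (M * q) * ∑ k ∈ s, (A k).indicator (fun _ => (1 : ℝ)) ω ∂P = 2 * (M * q) * (M * q) := by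
    rw [integral_const_mul, integral_finsetSum s (fun k _ => hint _ (hA k))]
    congr 1
    rw [Finset.sum_congr rfl (fun k hk => (hval _ (hA k)).trans (hp k hk)), Finset.sum_const, nsmul_eq_mul, hMd]
  have v3 : ∫ ω, (∑ k ∈ s, ∑ j ∈ s, (A k ∩ A j).indicator (fun _ => (1 : ℝ)) ω -
      2 * (M * q) * ∑ k ∈ s, (A k).indicator (fun _ => (1 : ℝ)) ω + (M * q) ^ 2) ∂P =
      ∑ k ∈ s, ∑ j ∈ s, P.real (A k ∩ A j) - (M * q) ^ 2 := by
    rw [integral_add i12 (integrable_const _), integral_sub i1 i2, v1, v2, integral_const]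
    simp only [probReal_univ, smul_eq_mul]
    ring
  have key : (M * q) ^ 2 * P.real (⋂ j ∈ s, (A j)ᶜ) ≤ ∑ k ∈ s, ∑ j ∈ s, P.real (A k ∩ A j) - (M * q) ^ 2 := by
    rw [← v3, ← hval _ hD, ← integral_const_mul]
    refine integral_mono ((hint _ hD).const_mul _) i3 ?_
    intro ω
    have e : (∑ k ∈ s, ∑ j ∈ s, (A k ∩ A j).indicator (fun _ => (1 : ℝ)) ω) =
        (∑ k ∈ s, (A k).indicator (fun _ => (1 : ℝ)) ω) * ∑ k ∈ s, (A k).indicator (fun _ => (1 : ℝ)) ω := by
      rw [Finset.sum_mul_sum]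
      exact Finset.sum_congr rfl fun k _ => Finset.sum_congr rfl fun j _ => (hmul k j ω).symm
    show (M * q) ^ 2 * (⋂ j ∈ s, (A j)ᶜ).indicator (fun _ => (1 : ℝ)) ω ≤
      ∑ k ∈ s, ∑ j ∈ s, (A k ∩ A j).indicator (fun _ => (1 : ℝ)) ω -
      2 * (M * q) * ∑ k ∈ s, (A k).indicator (fun _ => (1 : ℝ)) ω + (M * q) ^ 2
    rw [e]
    by_cases h : ω ∈ ⋂ j ∈ s, (A j)ᶜ
    · rw [Set.indicator_of_mem h]
      have h0 : ∑ k ∈ s, (A k).indicator (fun _ => (1 : ℝ)) ω = 0 := by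
        refine Finset.sum_eq_zero fun k hk => ?_
        simp only [Set.mem_iInter] at h
        exact Set.indicator_of_notMem (h k hk) _
      rw [h0]
      linarith
    · rw [Set.indicator_of_notMem h]
      generalize ∑ k ∈ s, (A k).indicator (fun _ => (1 : ℝ)) ω = W
      have := sq_nonneg (W - M * q)
      nlinarith [this]
  have bound : ∑ k ∈ s, ∑ j ∈ s, P.real (A k ∩ A j) ≤ M * q + M * (m * r) + (M * q) ^ 2 := by
    have h1 : ∀ k ∈ s, ∑ j ∈ s, P.real (A k ∩ A j) ≤ q + m * r + M * q ^ 2 := by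
      intro k hk
      have h4 : ∀ j ∈ s, P.real (A k ∩ A j) ≤
          (if j = k then q else 0) + (if j ≠ k ∧ R k j then r else 0) + q ^ 2 := by
        intro j hj
        have hq2 : 0 ≤ q ^ 2 := sq_nonneg q
        by_cases e : j = k
        · subst e
          rw [Set.inter_self, hp j hj, if_pos rfl, if_neg (fun h => h.1 rfl)]
          linarith
        · rw [if_neg e]
          by_cases hR : R k j
          · rw [if_pos ⟨e, hR⟩]
            have := h3 k hk j hj e hR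
            linarith
          · rw [if_neg (fun h => hR h.2)]
            have := h2 k hk j hj e hR
            linarith
      refine (Finset.sum_le_sum h4).trans ?_
      rw [Finset.sum_add_distrib, Finset.sum_add_distrib, Finset.sum_ite_eq' s k (fun _ => q), if_pos hk,
        ← Finset.sum_filter, Finset.sum_const, Finset.sum_const, nsmul_eq_mul, nsmul_eq_mul, ← hMd]
      have h5 : (((s.filter (fun j => j ≠ k ∧ R k j)).card : ℕ) : ℝ) ≤ (m : ℝ) := by
        exact_mod_cast hm k hk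
      have h6 := mul_le_mul_of_nonneg_right h5 hr
      linarith
    refine (Finset.sum_le_sum h1).trans ?_
    rw [Finset.sum_const, nsmul_eq_mul, ← hMd]
    apply le_of_eq
    ring
  have hfin : (M * q) ^ 2 * P.real (⋂ j ∈ s, (A j)ᶜ) ≤ M * q + M * (m * r) := by linarith
  have hMq : 0 < (M * q) ^ 2 := by positivity
  have hle : P.real (⋂ j ∈ s, (A j)ᶜ) ≤ (M * q + M * (m * r)) / (M * q) ^ 2 := by
    rw [le_div_iff₀ hMq]
    linarith
  refine hle.trans (le_of_eq ?_)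
  field_simp

end Pool.Agent.KZ
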