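import Pool.Agent.KZ.B1

set_option autoImplicit false
set_option linter.unusedSectionVars false

namespace Pool.Agent.KZ

open MeasureTheory ProbabilityTheory Set Real Filter Topology

variable {ι : Type} [Fintype ι] [DecidableEq ι]

theorem d1a_single (u : ι) (y : ι → ℝ) : lf (Pi.single u 1) y = y u := by
  unfold lf
  rw [Finset.sum_eq_single u]
  · rw [Pi.single_eq_same, one_mul]
  · intro i _ hi
    rw [Pi.single_eq_of_ne hi, zero_mul]
  · intro h
    exact absurd (Finset.mem_univ u) h

/-- PROOF. `∑ i, (Pi.single u 1 : ι → ℝ) i * y i = y u`. -/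
theorem lf_tri (u v w : ι) (y : ι → ℝ) : lf (tri u v w) y = y u + y v - y w := by
  unfold tri
  rw [lf_sub, lf_add, d1a_single, d1a_single, d1a_single]

/-- `1` if `u = v`, `0` otherwise -/
def dl (u v : ι) : ℤ := if u = v then 1 else 0

/-- PROOF. `ip (tri u v w) d = d u + d v - d w` (`lf_tri`), `(Pi.single u' 1 : ι → ℝ) u = if u = u' ..`. -/
theorem ip_tri (u v w u' v' w' : ι) : ip (tri u v w) (tri u' v' w') =
    ((dl u u' + dl u v' + dl v u' + dl v v' + dl w w' - dl u w' - dl v w' - dl w u' - dl w v' : ℤ) :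
      ℝ) := by
  have h1 : ip (tri u v w) (tri u' v' w') = lf (tri u v w) (tri u' v' w') := rfl
  rw [h1, lf_tri]
  unfold tri dl
  simp only [Pi.add_apply, Pi.sub_apply, Pi.single_apply]
  push_cast
  ring

theorem ip_tri_self (u v w : ι) (h1 : u ≠ v) (h2 : u ≠ w) (h3 : v ≠ w) :
    ip (tri u v w) (tri u v w) = 3 := by
  rw [ip_tri]
  unfold dl
  simp only [h1, h2, h3, Ne.symm h1, Ne.symm h2, Ne.symm h3, if_true, if_false]
  norm_num

end Pool.Agent.KZ
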