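import Pool.Agent.KZ.D1a

set_option autoImplicit false
set_option linter.unusedSectionVars false

namespace Pool.Agent.KZ

open MeasureTheory ProbabilityTheory Set Real Filter Topology

variable {a : ℕ} [NeZero a]

/-- the coordinates of a pair -/
def supp3 (p : ZMod a × ZMod a) : Finset (ZMod a) := {p.1, p.2, p.1 + p.2}

/-- the linear form of a pair -/
def tr (p : ZMod a × ZMod a) : ZMod a → ℝ := tri p.1 p.2 (p.1 + p.2)

theorem lf_tr (p : ZMod a × ZMod a) (y : ZMod a → ℝ) :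
    lf (tr p) y = y p.1 + y p.2 - y (p.1 + p.2) := lf_tri _ _ _ _

/-- PROOF. `p.1.val < p.2.val` gives `p.1 ≠ p.2` and `p.2 ≠ 0`; `p.1 ≠ 0`. -/
theorem gen_ne {p : ZMod a × ZMod a} (hp : p ∈ gen a) :
    p.1 ≠ p.2 ∧ p.1 ≠ p.1 + p.2 ∧ p.2 ≠ p.1 + p.2 := by
  simp only [gen, Finset.mem_filter, Finset.mem_univ, true_and] at hp
  obtain ⟨h1, h2, h3⟩ := hp
  refine ⟨?_, ?_, ?_⟩
  · intro h
    rw [h] at h1
    exact lt_irrefl _ h1
  · intro h
    have h0 : p.2 = 0 := left_eq_add.1 h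
    rw [h0, ZMod.val_zero] at h1
    exact Nat.not_lt_zero _ h1
  · intro h
    exact h2 (right_eq_add.1 h)

theorem gen_norm {p : ZMod a × ZMod a} (hp : p ∈ gen a) : ip (tr p) (tr p) = 3 := by
  obtain ⟨h1, h2, h3⟩ := gen_ne hp
  exact ip_tri_self _ _ _ h1 h2 h3

theorem d1b_dl_nonneg {ι : Type} [DecidableEq ι] (u v : ι) : 0 ≤ dl u v := by
  unfold dl
  split_ifs <;> norm_num

theorem d1b_dl_of {ι : Type} [DecidableEq ι] {u v : ι} (h : ¬ u = v) : dl u v = 0 := if_neg h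

theorem d1b_dl_le {ι : Type} [DecidableEq ι] (u v : ι) : dl u v ≤ 1 := by
  unfold dl
  split_ifs <;> norm_num

/-- the diagonal terms sum up to at most `1` -/
theorem d1b_sum {i j k l : ZMod a} (h1 : i.val < j.val) (h2 : k.val < l.val)
    (hne : ¬ (i = k ∧ j = l)) :
    dl i k + dl i l + dl j k + dl j l + dl (i + j) (k + l) ≤ 1 := by
  have hij : i ≠ j := by
    intro h
    rw [h] at h1
    exact lt_irrefl _ h1
  have hkl : k ≠ l := by
    intro h
    rw [h] at h2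
    exact lt_irrefl _ h2
  have hx : ¬ (i = l ∧ j = k) := by
    rintro ⟨rfl, rfl⟩
    omega
  by_cases a1 : i = k
  · have b1 : ¬ i = l := fun h => hkl (a1.symm.trans h)
    have b2 : ¬ j = k := fun h => hij (a1.trans h.symm)
    have b3 : ¬ j = l := fun h => hne ⟨a1, h⟩
    have b4 : ¬ i + j = k + l := fun h => b3 (by rw [a1] at h; exact add_left_cancel h)
    rw [d1b_dl_of b1, d1b_dl_of b2, d1b_dl_of b3, d1b_dl_of b4]
    linarith [d1b_dl_le i k]
  · by_cases a2 : i = l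
    · have b2 : ¬ j = k := fun h => hx ⟨a2, h⟩
      have b3 : ¬ j = l := fun h => hij (a2.trans h.symm)
      have b4 : ¬ i + j = k + l := fun h => b2 (by
        rw [a2, add_comm k l] at h; exact add_left_cancel h)
      rw [d1b_dl_of a1, d1b_dl_of b2, d1b_dl_of b3, d1b_dl_of b4]
      linarith [d1b_dl_le i l]
    · by_cases a3 : j = k
      · have b3 : ¬ j = l := fun h => hkl (a3.symm.trans h)
        have b4 : ¬ i + j = k + l := fun h => a2 (by
          rw [a3, add_comm i k] at h; exact add_left_cancel h)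
        rw [d1b_dl_of a1, d1b_dl_of a2, d1b_dl_of b3, d1b_dl_of b4]
        linarith [d1b_dl_le j k]
      · by_cases a4 : j = l
        · have b4 : ¬ i + j = k + l := fun h => a1 (by
            rw [a4] at h; exact add_right_cancel h)
          rw [d1b_dl_of a1, d1b_dl_of a2, d1b_dl_of a3, d1b_dl_of b4]
          linarith [d1b_dl_le j l]
        · rw [d1b_dl_of a1, d1b_dl_of a2, d1b_dl_of a3, d1b_dl_of a4]
          linarith [d1b_dl_le (i + j) (k + l)]

/-- two different generic pairs have covariance `1` or at most `0`.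
PROOF. `ip_tri` with `p = (i, j)`, `p' = (k, l)`: the value is the integer `n = S - C` with `S = [i=k] + [i=l] + [j=k] + [j=l] + [i+j=k+l] ≤ 1`
(`C ≥ 0` the cross terms). `S ≤ 1`: `i ≠ j`, `k ≠ l`. If `i = k` then `j ≠ l` (`p ≠ p'`), `i ≠ l`, `j ≠ k`, `i + j ≠ k + l`. If `j = l` similarly. If `i = l`
then `j ≠ l`, `i ≠ k`, and `j = k` is impossible because `i.val < j.val`, `k.val < l.val`; `i + j = k + l` would give `j = k`. If `j = k` similarly
(`i + j = k + l` gives `i = l`). An integer `≤ 1` is `1` or `≤ 0`. (Case analysis with `by_cases`, `simp [dl, ..]`, `omega`.) -/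
theorem gen_ip {p p' : ZMod a × ZMod a} (hp : p ∈ gen a) (hp' : p' ∈ gen a) (h : p ≠ p') :
    ip (tr p) (tr p') = 1 ∨ ip (tr p) (tr p') ≤ 0 := by
  simp only [gen, Finset.mem_filter, Finset.mem_univ, true_and] at hp hp'
  have hs := d1b_sum (a := a) hp.1 hp'.1 (fun hh => h (Prod.ext hh.1 hh.2))
  have n1 := d1b_dl_nonneg p.1 (p'.1 + p'.2)
  have n2 := d1b_dl_nonneg p.2 (p'.1 + p'.2)
  have n3 := d1b_dl_nonneg (p.1 + p.2) p'.1
  have n4 := d1b_dl_nonneg (p.1 + p.2) p'.2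
  unfold tr
  rw [ip_tri]
  have hle : dl p.1 p'.1 + dl p.1 p'.2 + dl p.2 p'.1 + dl p.2 p'.2 + dl (p.1 + p.2) (p'.1 + p'.2)
      - dl p.1 (p'.1 + p'.2) - dl p.2 (p'.1 + p'.2) - dl (p.1 + p.2) p'.1
      - dl (p.1 + p.2) p'.2 ≤ 1 := by linarith
  generalize dl p.1 p'.1 + dl p.1 p'.2 + dl p.2 p'.1 + dl p.2 p'.2 + dl (p.1 + p.2) (p'.1 + p'.2)
      - dl p.1 (p'.1 + p'.2) - dl p.2 (p'.1 + p'.2) - dl (p.1 + p.2) p'.1
      - dl (p.1 + p.2) p'.2 = m at hle ⊢
  have hm : m = 1 ∨ m ≤ 0 := by omega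
  rcases hm with hm | hm
  · left
    rw [hm]
    norm_num
  · right
    exact_mod_cast hm

end Pool.Agent.KZ
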