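import Pool.Agent.KZ.Base

set_option autoImplicit false
set_option linter.unusedSectionVars false

namespace Pool.Agent.KZ

open MeasureTheory ProbabilityTheory Set Real Filter Topology

/-- PROOF. `gen a ⊆ {p | p.1.val < p.2.val}`; the swap is an injection into the disjoint set `{p | p.2.val < p.1.val}`, so twice the
number is at most `a²` (`ZMod.card`, `Fintype.card_prod`). -/
theorem gen_card_le (a : ℕ) [NeZero a] : ((gen a).card : ℝ) ≤ (a : ℝ) ^ 2 / 2 := by
  classical
  have h1 : Disjoint (gen a) ((gen a).image Prod.swap) := by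
    rw [Finset.disjoint_left]
    intro p hp hq
    rw [Finset.mem_image] at hq
    obtain ⟨q, hq, hqp⟩ := hq
    rw [gen, Finset.mem_filter] at hp hq
    have h2 := hp.2.1
    have h3 := hq.2.1
    rw [← hqp] at h2
    exact absurd h2 (not_lt.mpr (le_of_lt h3))
  have h2 : (gen a).card + (gen a).card ≤ a * a := by
    have h3 : ((gen a).image Prod.swap).card = (gen a).card :=
      Finset.card_image_of_injective _ Prod.swap_injective
    calc (gen a).card + (gen a).card = (gen a).card + ((gen a).image Prod.swap).card := by rw [h3]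
      _ = (gen a ∪ (gen a).image Prod.swap).card := (Finset.card_union_of_disjoint h1).symm
      _ ≤ Fintype.card (ZMod a × ZMod a) := Finset.card_le_univ _
      _ = a * a := by rw [Fintype.card_prod, ZMod.card]
  have h3 : ((gen a).card : ℝ) + (gen a).card ≤ a * a := by exact_mod_cast h2
  nlinarith

/-- PROOF. Every pair `(i, j)` of `ZMod a × ZMod a` is in `gen a`, or its swap is in `gen a`, or `i = j`, or `i = 0`, or `j = 0`, or `i + j = 0`:
`a² ≤ 2 |gen a| + 4 a`. (Even `≥ a²/2 - 2a`; the statement has `3a` as slack.) -/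
theorem gen_card_ge (a : ℕ) [NeZero a] : (a : ℝ) ^ 2 / 2 - 3 * a ≤ ((gen a).card : ℝ) := by
  classical
  have hsub : (Finset.univ : Finset (ZMod a × ZMod a)) ⊆
      ((gen a ∪ (gen a).image Prod.swap) ∪
      (Finset.univ.filter (fun p : ZMod a × ZMod a => p.1 = p.2) ∪
        Finset.univ.filter (fun p : ZMod a × ZMod a => p.1 = 0))) ∪
      (Finset.univ.filter (fun p : ZMod a × ZMod a => p.2 = 0) ∪
        Finset.univ.filter (fun p : ZMod a × ZMod a => p.1 + p.2 = 0)) := by
    intro p _
    simp only [Finset.mem_union, Finset.mem_filter, Finset.mem_univ, true_and, Finset.mem_image]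
    by_cases e1 : p.1 = p.2
    · exact Or.inl (Or.inr (Or.inl e1))
    by_cases e2 : p.1 = 0
    · exact Or.inl (Or.inr (Or.inr e2))
    by_cases e3 : p.2 = 0
    · exact Or.inr (Or.inl e3)
    by_cases e4 : p.1 + p.2 = 0
    · exact Or.inr (Or.inr e4)
    rcases lt_trichotomy p.1.val p.2.val with h | h | h
    · refine Or.inl (Or.inl (Or.inl ?_))
      rw [gen, Finset.mem_filter]
      exact ⟨Finset.mem_univ _, h, e2, e4⟩
    · exact absurd (ZMod.val_injective a h) e1
    · refine Or.inl (Or.inl (Or.inr ⟨p.swap, ?_, Prod.swap_swap p⟩))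
      rw [gen, Finset.mem_filter]
      refine ⟨Finset.mem_univ _, h, e3, ?_⟩
      show p.2 + p.1 ≠ 0
      rw [add_comm]
      exact e4
  have hc := Finset.card_le_card hsub
  have c1 : (Finset.univ.filter (fun p : ZMod a × ZMod a => p.1 = p.2)).card ≤ a := by
    refine (Finset.card_le_card_of_injOn (t := (Finset.univ : Finset (ZMod a))) (fun p => p.1)
      (fun _ _ => Finset.mem_univ _) ?_).trans (le_of_eq (by rw [Finset.card_univ, ZMod.card]))
    intro p hp q hq h
    simp only [Finset.coe_filter, Finset.mem_univ, true_and, Set.mem_ofPred_eq] at hp hq h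
    exact Prod.ext h (by rw [← hp, ← hq, h])
  have c2 : (Finset.univ.filter (fun p : ZMod a × ZMod a => p.1 = 0)).card ≤ a := by
    refine (Finset.card_le_card_of_injOn (t := (Finset.univ : Finset (ZMod a))) (fun p => p.2)
      (fun _ _ => Finset.mem_univ _) ?_).trans (le_of_eq (by rw [Finset.card_univ, ZMod.card]))
    intro p hp q hq h
    simp only [Finset.coe_filter, Finset.mem_univ, true_and, Set.mem_ofPred_eq] at hp hq h
    exact Prod.ext (by rw [hp, hq]) h
  have c3 : (Finset.univ.filter (fun p : ZMod a × ZMod a => p.2 = 0)).card ≤ a := by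
    refine (Finset.card_le_card_of_injOn (t := (Finset.univ : Finset (ZMod a))) (fun p => p.1)
      (fun _ _ => Finset.mem_univ _) ?_).trans (le_of_eq (by rw [Finset.card_univ, ZMod.card]))
    intro p hp q hq h
    simp only [Finset.coe_filter, Finset.mem_univ, true_and, Set.mem_ofPred_eq] at hp hq h
    exact Prod.ext h (by rw [hp, hq])
  have c4 : (Finset.univ.filter (fun p : ZMod a × ZMod a => p.1 + p.2 = 0)).card ≤ a := by
    refine (Finset.card_le_card_of_injOn (t := (Finset.univ : Finset (ZMod a))) (fun p => p.1)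
      (fun _ _ => Finset.mem_univ _) ?_).trans (le_of_eq (by rw [Finset.card_univ, ZMod.card]))
    intro p hp q hq h
    simp only [Finset.coe_filter, Finset.mem_univ, true_and, Set.mem_ofPred_eq] at hp hq h
    refine Prod.ext h ?_
    have h1 : p.1 + p.2 = q.1 + q.2 := by rw [hp, hq]
    rw [h] at h1
    exact add_left_cancel h1
  have c5 : ((gen a).image Prod.swap).card ≤ (gen a).card := Finset.card_image_le
  have hU : (Finset.univ : Finset (ZMod a × ZMod a)).card = a * a := by
    rw [Finset.card_univ, Fintype.card_prod, ZMod.card]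
  rw [hU] at hc
  have hd : a * a ≤ 2 * (gen a).card + 4 * a := by
    refine hc.trans ?_
    refine (Finset.card_union_le _ _).trans ?_
    have u1 := Finset.card_union_le (gen a ∪ (gen a).image Prod.swap)
      (Finset.univ.filter (fun p : ZMod a × ZMod a => p.1 = p.2) ∪
        Finset.univ.filter (fun p : ZMod a × ZMod a => p.1 = 0))
    have u2 := Finset.card_union_le (gen a) ((gen a).image Prod.swap)
    have u3 := Finset.card_union_le (Finset.univ.filter (fun p : ZMod a × ZMod a => p.1 = p.2))
      (Finset.univ.filter (fun p : ZMod a × ZMod a => p.1 = 0))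
    have u4 := Finset.card_union_le (Finset.univ.filter (fun p : ZMod a × ZMod a => p.2 = 0))
      (Finset.univ.filter (fun p : ZMod a × ZMod a => p.1 + p.2 = 0))
    omega
  have he : (a : ℝ) * a ≤ 2 * (gen a).card + 4 * a := by exact_mod_cast hd
  have ha : (0 : ℝ) ≤ a := Nat.cast_nonneg a
  nlinarith

end Pool.Agent.KZ
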