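import Pool.Agent.KZ.D1b

set_option autoImplicit false
set_option linter.unusedSectionVars false

namespace Pool.Agent.KZ

open MeasureTheory ProbabilityTheory Set Real Filter Topology

variable {a : ℕ} [NeZero a]

/-- number of pairs related to a given one.
PROOF. If the supports meet then for one of the 3 elements `x` of `supp3 p`: `p'.1 = x` or `p'.2 = x` or `p'.1 + p'.2 = x`. Each of these nine conditions is
satisfied by at most `a` pairs `p'` (the map `p' ↦ p'.2`, `p'.1`, `p'.1` is injective on them): union bound
(`Finset.card_union_le`, `Finset.card_biUnion_le`, `Finset.card_le_card_of_injOn` into `Finset.univ : Finset (ZMod a)`, `ZMod.card`). -/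
theorem gen_rel (p : ZMod a × ZMod a) :
    ((gen a).filter (fun p' => p' ≠ p ∧ ¬ Disjoint (supp3 p) (supp3 p'))).card ≤ 9 * a := by
  classical
  have c1 : ∀ x : ZMod a, (Finset.univ.filter (fun q : ZMod a × ZMod a => q.1 = x)).card ≤ a := by
    intro x
    refine (Finset.card_le_card_of_injOn (t := (Finset.univ : Finset (ZMod a))) (fun q => q.2)
      (fun _ _ => Finset.mem_univ _) ?_).trans (le_of_eq (by rw [Finset.card_univ, ZMod.card]))
    intro q hq q' hq' h
    simp only [Finset.coe_filter, Finset.mem_univ, true_and, Set.mem_ofPred_eq] at hq hq' h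
    exact Prod.ext (by rw [hq, hq']) h
  have c2 : ∀ x : ZMod a, (Finset.univ.filter (fun q : ZMod a × ZMod a => q.2 = x)).card ≤ a := by
    intro x
    refine (Finset.card_le_card_of_injOn (t := (Finset.univ : Finset (ZMod a))) (fun q => q.1)
      (fun _ _ => Finset.mem_univ _) ?_).trans (le_of_eq (by rw [Finset.card_univ, ZMod.card]))
    intro q hq q' hq' h
    simp only [Finset.coe_filter, Finset.mem_univ, true_and, Set.mem_ofPred_eq] at hq hq' h
    exact Prod.ext h (by rw [hq, hq'])
  have c3 : ∀ x : ZMod a,
      (Finset.univ.filter (fun q : ZMod a × ZMod a => q.1 + q.2 = x)).card ≤ a := by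
    intro x
    refine (Finset.card_le_card_of_injOn (t := (Finset.univ : Finset (ZMod a))) (fun q => q.1)
      (fun _ _ => Finset.mem_univ _) ?_).trans (le_of_eq (by rw [Finset.card_univ, ZMod.card]))
    intro q hq q' hq' h
    simp only [Finset.coe_filter, Finset.mem_univ, true_and, Set.mem_ofPred_eq] at hq hq' h
    refine Prod.ext h ?_
    have h1 : q.1 + q.2 = q'.1 + q'.2 := by rw [hq, hq']
    rw [h] at h1
    exact add_left_cancel h1
  have hsub : (gen a).filter (fun p' => p' ≠ p ∧ ¬ Disjoint (supp3 p) (supp3 p')) ⊆
      (supp3 p).biUnion (fun x => Finset.univ.filter (fun q : ZMod a × ZMod a => q.1 = x) ∪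
        (Finset.univ.filter (fun q : ZMod a × ZMod a => q.2 = x) ∪
          Finset.univ.filter (fun q : ZMod a × ZMod a => q.1 + q.2 = x))) := by
    intro q hq
    rw [Finset.mem_filter, Finset.not_disjoint_iff] at hq
    obtain ⟨-, -, x, hx, hxq⟩ := hq
    rw [Finset.mem_biUnion]
    refine ⟨x, hx, ?_⟩
    simp only [supp3, Finset.mem_insert, Finset.mem_singleton] at hxq
    simp only [Finset.mem_union, Finset.mem_filter, Finset.mem_univ, true_and]
    rcases hxq with h | h | h
    · exact Or.inl h.symm
    · exact Or.inr (Or.inl h.symm)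
    · exact Or.inr (Or.inr h.symm)
  refine (Finset.card_le_card hsub).trans (Finset.card_biUnion_le.trans ?_)
  have h3 : (supp3 p).card ≤ 3 := Finset.card_le_three
  calc ∑ x ∈ supp3 p, (Finset.univ.filter (fun q : ZMod a × ZMod a => q.1 = x) ∪
        (Finset.univ.filter (fun q : ZMod a × ZMod a => q.2 = x) ∪
          Finset.univ.filter (fun q : ZMod a × ZMod a => q.1 + q.2 = x))).card
      ≤ ∑ _x ∈ supp3 p, 3 * a := by
        refine Finset.sum_le_sum fun x _ => ?_
        have u1 := Finset.card_union_le (Finset.univ.filter (fun q : ZMod a × ZMod a => q.1 = x))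
          (Finset.univ.filter (fun q : ZMod a × ZMod a => q.2 = x) ∪
            Finset.univ.filter (fun q : ZMod a × ZMod a => q.1 + q.2 = x))
        have u2 := Finset.card_union_le (Finset.univ.filter (fun q : ZMod a × ZMod a => q.2 = x))
          (Finset.univ.filter (fun q : ZMod a × ZMod a => q.1 + q.2 = x))
        have a1 := c1 x
        have a2 := c2 x
        have a3 := c3 x
        omega
    _ = (supp3 p).card * (3 * a) := by rw [Finset.sum_const, smul_eq_mul]
    _ ≤ 3 * (3 * a) := Nat.mul_le_mul_right _ h3
    _ = 9 * a := by ring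

end Pool.Agent.KZ
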