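import Pool.Agent.KZ.E1a
import Pool.Agent.KZ.C2a
import Pool.Agent.KZ.C2b
import Pool.Agent.KZ.D1c
import Pool.Agent.KZ.D1d

set_option autoImplicit false
set_option linter.unusedSectionVars false

namespace Pool.Agent.KZ

open MeasureTheory ProbabilityTheory Set Real Filter Topology

variable (a : ℕ) [NeZero a]

/-- Poisson approximation for the generic pairs.
PROOF. `poisson_approx` for `P = gm (ZMod a)`, `s = gen a`, `A = bad a t`, `R p p' := ¬ Disjoint (supp3 p) (supp3 p')` (decidable classically or by instance);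
`hind`: `bad a t p` depends on `supp3 p` (`bad_dep`), `⋂ j ∈ u, (bad j)ᶜ` depends on `u.biUnion supp3` (`Dep.iInter`, `Dep.mono`, `Dep.compl`), disjoint from
`supp3 p`; `ind`. `∏ (1 - P(bad)) = (1 - qq t)^card` (`bad_prob`). Right side: every term is at most
`exp(-t²/4)/t² + exp(-t²/3) + (qq t)² ≤ exp(-t²/4)/t² + 2 exp(-t²/3)` (`bad_pair`, `qq_exp`), the number of terms is at most
`|gen a| * 9a ≤ 9 a³` (`gen_rel`, `gen_card_le`). -/
theorem nb_approx (t : ℝ) (ht : 0 < t) :
    |(gm (ZMod a)).real (NB a t) - (1 - qq t) ^ (gen a).card| ≤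
      9 * (a : ℝ) ^ 3 * (exp (-t ^ 2 / 4) / t ^ 2 + 2 * exp (-t ^ 2 / 3)) := by
  classical
  have hP := poisson_approx (gm (ZMod a)) (gen a) (bad a t) (bad_meas a t)
    (fun p p' => ¬ Disjoint (supp3 p) (supp3 p')) (by
      intro k _ u _ hu
      have hdis : Disjoint (supp3 k) (u.biUnion supp3) := by
        rw [Finset.disjoint_biUnion_right]
        intro j hj
        exact not_not.1 (hu j hj)
      refine ind (supp3 k) (u.biUnion supp3) hdis (bad a t k) (⋂ j ∈ u, (bad a t j)ᶜ)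
        (bad_meas a t k) (Finset.measurableSet_biInter _ fun p _ => (bad_meas a t p).compl)
        (bad_dep a t k) ?_
      refine Dep.iInter fun j hj => ?_
      exact (bad_dep a t j).compl.mono (Finset.subset_biUnion_of_mem supp3 hj))
  have hprod : ∏ j ∈ gen a, (1 - (gm (ZMod a)).real (bad a t j)) = (1 - qq t) ^ (gen a).card := by
    rw [← Finset.prod_const]
    exact Finset.prod_congr rfl fun j hj => by rw [bad_prob a t hj]
  rw [hprod, ← NB_eq] at hP
  refine hP.trans ?_
  obtain ⟨E, hE⟩ : ∃ E, E = exp (-t ^ 2 / 4) / t ^ 2 + 2 * exp (-t ^ 2 / 3) := ⟨_, rfl⟩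
  have hE0 : 0 ≤ E := by rw [hE]; positivity
  rw [← hE]
  have hterm : ∀ k ∈ gen a, ∀ j ∈ (gen a).filter
      (fun j => j ≠ k ∧ ¬ Disjoint (supp3 k) (supp3 j)),
      (gm (ZMod a)).real (bad a t k ∩ bad a t j) +
        (gm (ZMod a)).real (bad a t k) * (gm (ZMod a)).real (bad a t j) ≤ E := by
    intro k hk j hj
    rw [Finset.mem_filter] at hj
    have h1 := bad_pair a t ht hk hj.1 (Ne.symm hj.2.1)
    rw [bad_prob a t hk, bad_prob a t hj.1, hE]
    have h2 := qq_exp t ht.le
    have h3 := mul_le_mul h2 h2 (qq_nonneg t) (exp_pos _).le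
    rw [← exp_add] at h3
    have e : -t ^ 2 / 6 + -t ^ 2 / 6 = -t ^ 2 / 3 := by ring
    rw [e] at h3
    linarith
  have hinner : ∀ k ∈ gen a, ∑ j ∈ (gen a).filter
      (fun j => j ≠ k ∧ ¬ Disjoint (supp3 k) (supp3 j)),
      ((gm (ZMod a)).real (bad a t k ∩ bad a t j) +
        (gm (ZMod a)).real (bad a t k) * (gm (ZMod a)).real (bad a t j)) ≤ 9 * a * E := by
    intro k hk
    refine (Finset.sum_le_sum (hterm k hk)).trans ?_
    rw [Finset.sum_const, nsmul_eq_mul]
    apply mul_le_mul_of_nonneg_right _ hE0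
    exact_mod_cast gen_rel k
  refine (Finset.sum_le_sum hinner).trans ?_
  rw [Finset.sum_const, nsmul_eq_mul]
  have h5 := gen_card_le a
  have ha0 : (0 : ℝ) ≤ a := Nat.cast_nonneg a
  have h6 : 0 ≤ 9 * (a : ℝ) * E := by positivity
  have h7 := mul_le_mul_of_nonneg_right h5 h6
  have h8 : 0 ≤ (a : ℝ) ^ 3 * E := by positivity
  nlinarith

end Pool.Agent.KZ
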