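import Pool.Agent.KZ.A2
import Pool.Agent.KZ.B3
import Pool.Agent.KZ.C1
import Pool.Agent.KZ.D1b

set_option autoImplicit false
set_option linter.unusedSectionVars false

namespace Pool.Agent.KZ

open MeasureTheory ProbabilityTheory Set Real Filter Topology

variable (a : ℕ) [NeZero a]

/-- the bad event of a pair -/
def bad (t : ℝ) (p : ZMod a × ZMod a) : Set (ZMod a → ℝ) := {y | lf (tr p) y < -t}

theorem bad_meas (t : ℝ) (p : ZMod a × ZMod a) : MeasurableSet (bad a t p) :=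
  measurableSet_lt (lf_meas _) measurable_const

/-- PROOF. `lf_tr`. -/
theorem bad_dep (t : ℝ) (p : ZMod a × ZMod a) : Dep (bad a t p) (supp3 p) := by
  intro y y' h
  have h1 : y p.1 = y' p.1 := h _ (by simp [supp3])
  have h2 : y p.2 = y' p.2 := h _ (by simp [supp3])
  have h3 : y (p.1 + p.2) = y' (p.1 + p.2) := h _ (by simp [supp3])
  show lf (tr p) y < -t ↔ lf (tr p) y' < -t
  rw [lf_tr, lf_tr, h1, h2, h3]

/-- PROOF. `lf_tail` with `v = 3`, `gen_norm`. -/
theorem bad_prob (t : ℝ) {p : ZMod a × ZMod a} (hp : p ∈ gen a) :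
    (gm (ZMod a)).real (bad a t p) = qq t :=
  lf_tail (tr p) 3 (by norm_num) (gen_norm hp) t

/-- PROOF. `gen_ip`: covariance `1`: `fine`; covariance `≤ 0`: `joint0`. -/
theorem bad_pair (t : ℝ) (ht : 0 < t) {p p' : ZMod a × ZMod a} (hp : p ∈ gen a)
    (hp' : p' ∈ gen a) (h : p ≠ p') : (gm (ZMod a)).real (bad a t p ∩ bad a t p') ≤
      exp (-t ^ 2 / 4) / t ^ 2 + exp (-t ^ 2 / 3) := by
  have e : bad a t p ∩ bad a t p' = {y | lf (tr p) y < -t ∧ lf (tr p') y < -t} := rfl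
  rw [e]
  have h1 : 0 ≤ exp (-t ^ 2 / 4) / t ^ 2 := by positivity
  have h2 : 0 ≤ exp (-t ^ 2 / 3) := (exp_pos _).le
  rcases gen_ip hp hp' h with h3 | h3
  · have h4 := fine (tr p) (tr p') (gen_norm hp) (gen_norm hp') h3 t ht
    linarith
  · have h4 := joint0 (tr p) (tr p') (gen_norm hp) (gen_norm hp') h3 t ht.le
    linarith

theorem NB_eq (t : ℝ) : NB a t = ⋂ p ∈ gen a, (bad a t p)ᶜ := by
  ext y
  rw [mem_iInter₂]
  show (∀ p ∈ gen a, -t ≤ y p.1 + y p.2 - y (p.1 + p.2)) ↔ _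
  refine forall₂_congr fun p _ => ?_
  show _ ↔ ¬ (lf (tr p) y < -t)
  rw [lf_tr, not_lt]

theorem NB_meas (t : ℝ) : MeasurableSet (NB a t) := by
  rw [NB_eq]
  exact Finset.measurableSet_biInter _ fun p _ => (bad_meas a t p).compl

end Pool.Agent.KZ
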