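import Pool.Agent.KZ.E1a

set_option autoImplicit false
set_option linter.unusedSectionVars false

namespace Pool.Agent.KZ

open MeasureTheory ProbabilityTheory Set Real Filter Topology

variable (a : ℕ) [NeZero a]

theorem e2_lf {ι : Type} [Fintype ι] [DecidableEq ι] (u : ι) (x : ℝ) (y : ι → ℝ) :
    lf (Pi.single u x) y = x * y u := by
  unfold lf
  rw [Finset.sum_eq_single u]
  · rw [Pi.single_eq_same]
  · intro i _ hi
    rw [Pi.single_eq_of_ne hi, zero_mul]
  · intro h
    exact absurd (Finset.mem_univ u) h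

theorem e2_ip {ι : Type} [Fintype ι] [DecidableEq ι] (u : ι) (x : ℝ) (y : ι → ℝ) :
    ip (Pi.single u x) y = x * y u := e2_lf u x y

/-- violated inequality `(i, i)` -/
def e2_A (t : ℝ) (i : ZMod a) : Set (ZMod a → ℝ) :=
  {y | i ≠ 0 ∧ i + i ≠ 0 ∧ 2 * y i - y (i + i) < -t}

/-- violated inequality `(i, -i)` -/
def e2_B (t : ℝ) (i : ZMod a) : Set (ZMod a → ℝ) := {y | y i + y (-i) < -(2 * t)}

/-- PROOF. `measureReal_mono`: for `p = (i, j) ∈ gen a` the coordinates `i`, `j`, `i + j` are not `0`, so `Function.update y 0 (-t)` agrees with `y` there and is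
`-t` at `0`; the inequality of the cone for `(i, j)` is `y (i + j) + (-t) ≤ y i + y j`. -/
theorem pp_le_nb (t : ℝ) : PP a t ≤ (gm (ZMod a)).real (NB a t) := by
  unfold PP
  refine measureReal_mono ?_ (measure_ne_top _ _)
  intro y hy p hp
  have hy' : ∀ i j : ZMod a, Function.update y 0 (-t) (i + j) + Function.update y 0 (-t) 0 ≤
    Function.update y 0 (-t) i + Function.update y 0 (-t) j := hy
  have h1 := hy' p.1 p.2
  unfold gen at hp
  rw [Finset.mem_filter] at hp
  obtain ⟨-, h2, h3, h4⟩ := hp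
  have h5 : p.2 ≠ 0 := by
    intro h
    rw [h, ZMod.val_zero] at h2
    exact absurd h2 (Nat.not_lt_zero _)
  rw [Function.update_self, Function.update_of_ne h3, Function.update_of_ne h5,
    Function.update_of_ne h4] at h1
  linarith

/-- the nongeneric inequalities are violated with small probability.
PROOF. Let `u = update y 0 (-t)`. The inequality `u (i+j) + u 0 ≤ u i + u j` is an equality if `i = 0` or `j = 0`. If `i, j ≠ 0`, `i + j = 0` it is
`-2t ≤ y i + y (-i)`; if `i = j ≠ 0`, `2 i ≠ 0`, it is `y (i+i) - t ≤ 2 y i`; in the remaining cases `(i, j)` or `(j, i)` is in `gen a`. So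
`NB a t ⊆ {update ∈ Cone} ∪ ⋃_i {lf c_i < -t} ∪ ⋃_i {lf d_i < -(2t)}` over `i ≠ 0` (resp. `i ≠ 0`, `i + i ≠ 0`) with
`c_i = Pi.single i 2 - Pi.single (i+i) 1` (`ip c_i c_i = 5`: `i ≠ i + i`) and `d_i = Pi.single i 1 + Pi.single (-i) 1` (`ip d_i d_i ≤ 4`). `lf_chernoff`:
`exp (-t²/10)` and `exp (-(2t)²/8) = exp (-t²/2) ≤ exp (-t²/10)`. Union bound (`measureReal_union_le`, `measureReal_biUnion_finset_le`): at most `2 a exp (-t²/10)`. -/
theorem pp_ge_nb (t : ℝ) (ht : 0 ≤ t) :
    (gm (ZMod a)).real (NB a t) - 2 * a * exp (-t ^ 2 / 10) ≤ PP a t := by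
  have hA : ∀ i : ZMod a, (gm (ZMod a)).real (e2_A a t i) ≤ exp (-t ^ 2 / 10) := by
    intro i
    by_cases h : i ≠ 0 ∧ i + i ≠ 0
    · have hne : i ≠ i + i := fun h2 => h.1 (by simpa using h2.symm)
      have e : e2_A a t i = {y | lf (Pi.single i 2 - Pi.single (i + i) 1) y < -t} := by
        ext y
        show (i ≠ 0 ∧ i + i ≠ 0 ∧ 2 * y i - y (i + i) < -t) ↔ lf _ y < -t
        rw [lf_sub, e2_lf, e2_lf, one_mul]
        exact ⟨fun h2 => h2.2.2, fun h2 => ⟨h.1, h.2, h2⟩⟩
      rw [e]
      have h3 := lf_chernoff (ι := ZMod a) (Pi.single i 2 - Pi.single (i + i) 1) 5 (by norm_num) (by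
        rw [ip_sub_left, e2_ip, e2_ip, Pi.sub_apply, Pi.sub_apply, Pi.single_eq_same,
          Pi.single_eq_same, Pi.single_eq_of_ne hne, Pi.single_eq_of_ne hne.symm]
        norm_num) t ht
      refine h3.trans (le_of_eq ?_)
      norm_num
    · have e : e2_A a t i = ∅ := by
        ext y
        simp only [mem_empty_iff_false, iff_false]
        rintro ⟨h1, h2, -⟩
        exact h ⟨h1, h2⟩
      rw [e, measureReal_empty]
      exact (exp_pos _).le
  have hB : ∀ i : ZMod a, (gm (ZMod a)).real (e2_B a t i) ≤ exp (-t ^ 2 / 10) := by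
    intro i
    have e : e2_B a t i = {y | lf (Pi.single i 1 + Pi.single (-i) 1) y < -(2 * t)} := by
      ext y
      show (y i + y (-i) < -(2 * t)) ↔ lf _ y < -(2 * t)
      rw [lf_add, e2_lf, e2_lf, one_mul, one_mul]
    rw [e]
    have h3 := lf_chernoff (ι := ZMod a) (Pi.single i 1 + Pi.single (-i) 1) 4 (by norm_num) (by
      rw [ip_add_left, e2_ip, e2_ip, Pi.add_apply, Pi.add_apply, Pi.single_eq_same,
        Pi.single_eq_same]
      have h1 : ∀ u v : ZMod a, (Pi.single u (1 : ℝ) : ZMod a → ℝ) v ≤ 1 := by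
        intro u v
        rw [Pi.single_apply]
        split_ifs <;> norm_num
      have h2 := h1 (-i) i
      have h3 := h1 i (-i)
      linarith) (2 * t) (by linarith)
    refine h3.trans ?_
    apply exp_le_exp.2
    nlinarith [sq_nonneg t]
  have hsub : NB a t ⊆ {y | Function.update y 0 (-t) ∈ Cone a} ∪
      ((⋃ i ∈ (Finset.univ : Finset (ZMod a)), e2_A a t i) ∪
        ⋃ i ∈ (Finset.univ : Finset (ZMod a)), e2_B a t i) := by
    intro y hy
    by_contra hcon
    rw [mem_union, mem_union, not_or, not_or] at hcon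
    obtain ⟨h1, h2, h3⟩ := hcon
    apply h1
    have h2' : ∀ i : ZMod a, i ≠ 0 → i + i ≠ 0 → -t ≤ 2 * y i - y (i + i) := by
      intro i hi hi2
      by_contra h4
      apply h2
      rw [mem_iUnion₂]
      exact ⟨i, Finset.mem_univ i, hi, hi2, not_le.1 h4⟩
    have h3' : ∀ i : ZMod a, -(2 * t) ≤ y i + y (-i) := by
      intro i
      by_contra h4
      apply h3
      rw [mem_iUnion₂]
      exact ⟨i, Finset.mem_univ i, not_le.1 h4⟩
    have hlt : ∀ i j : ZMod a, i ≠ 0 → i + j ≠ 0 → i.val < j.val → -t ≤ y i + y j - y (i + j) := by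
      intro i j hi hij hv
      exact hy (i, j) (by
        unfold gen
        rw [Finset.mem_filter]
        exact ⟨Finset.mem_univ _, hv, hi, hij⟩)
    show ∀ i j : ZMod a, Function.update y 0 (-t) (i + j) + Function.update y 0 (-t) 0 ≤
      Function.update y 0 (-t) i + Function.update y 0 (-t) j
    intro i j
    by_cases hi : i = 0
    · rw [hi, zero_add, add_comm]
    by_cases hj : j = 0
    · rw [hj, add_zero]
    rw [Function.update_self, Function.update_of_ne hi, Function.update_of_ne hj]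
    by_cases hij : i + j = 0
    · rw [hij, Function.update_self]
      have e : j = -i := by
        rw [eq_neg_iff_add_eq_zero, add_comm]
        exact hij
      have h4 := h3' i
      rw [e]
      linarith
    rw [Function.update_of_ne hij]
    rcases lt_trichotomy i.val j.val with h4 | h4 | h4
    · have h5 := hlt i j hi hij h4
      linarith
    · have e : i = j := ZMod.val_injective a h4
      subst e
      have h5 := h2' i hi hij
      linarith
    · have h5 := hlt j i hj (by rw [add_comm]; exact hij) h4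
      rw [add_comm j i] at h5
      linarith
  have h1 := measureReal_mono (μ := gm (ZMod a)) hsub
  have h2 := h1.trans (measureReal_union_le _ _)
  have h3 := measureReal_union_le (μ := gm (ZMod a))
    (⋃ i ∈ (Finset.univ : Finset (ZMod a)), e2_A a t i)
    (⋃ i ∈ (Finset.univ : Finset (ZMod a)), e2_B a t i)
  have h4 := measureReal_biUnion_finset_le (μ := gm (ZMod a)) Finset.univ (e2_A a t)
  have h5 := measureReal_biUnion_finset_le (μ := gm (ZMod a)) Finset.univ (e2_B a t)
  have h6 : ∑ i : ZMod a, (gm (ZMod a)).real (e2_A a t i) ≤ a * exp (-t ^ 2 / 10) := by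
    refine (Finset.sum_le_sum fun i _ => hA i).trans (le_of_eq ?_)
    rw [Finset.sum_const, nsmul_eq_mul, Finset.card_univ, ZMod.card]
  have h7 : ∑ i : ZMod a, (gm (ZMod a)).real (e2_B a t i) ≤ a * exp (-t ^ 2 / 10) := by
    refine (Finset.sum_le_sum fun i _ => hB i).trans (le_of_eq ?_)
    rw [Finset.sum_const, nsmul_eq_mul, Finset.card_univ, ZMod.card]
  unfold PP
  linarith

end Pool.Agent.KZ
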