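import Pool.Agent.KZ.E3d
import Pool.Agent.KZ.C1

set_option autoImplicit false
set_option linter.unusedSectionVars false

namespace Pool.Agent.KZ

open MeasureTheory ProbabilityTheory Set Real Filter Topology

variable (a : ℕ) [NeZero a]

/-- the upper bound from 16 independent blocks.
PROOF. `NB a t ⊆ ⋂ k ∈ range 16, ⋂ i ∈ bs l, (bad a t (bp a l k i))ᶜ` (`NB_eq`, `bp_gen`); the `k`-th event depends on `bsupp a l k` (`bad_dep`, `Dep.compl`, `Dep.mono`, `Dep.iInter`),
`bsupp_disj`; `prod_ind` with `K = 16`; each factor is in `[0, bound]` (`block_one`): `Finset.prod_le_pow_card`. -/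
theorem block_bound {l : ℕ} (hl0 : 0 < l) (hl : 130 * l ≤ a) (t : ℝ) :
    (gm (ZMod a)).real (NB a t) ≤ (1 / (l ^ 2 * qq t) + 3 * rr t / (l * qq t ^ 2)) ^ 16 := by
  classical
  have hA : ∀ k, MeasurableSet (⋂ i ∈ bs l, (bad a t (bp a l k i))ᶜ) := fun k =>
    Finset.measurableSet_biInter _ fun i _ => (bad_meas a t _).compl
  have hD : ∀ k < 16, Dep (⋂ i ∈ bs l, (bad a t (bp a l k i))ᶜ) (bsupp a l k) := by
    intro k _
    refine Dep.iInter fun i hi => ?_
    refine ((bad_dep a t (bp a l k i)).compl).mono ?_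
    exact Finset.subset_biUnion_of_mem (fun i => supp3 (bp a l k i)) hi
  have hP := prod_ind (ι := ZMod a) 16 (fun k => bsupp a l k)
    (fun k hk k' hk' h => bsupp_disj a hl hk hk' h)
    (fun k => ⋂ i ∈ bs l, (bad a t (bp a l k i))ᶜ) hA hD
  have h1 : (gm (ZMod a)).real (NB a t) ≤
      (gm (ZMod a)).real (⋂ k ∈ Finset.range 16, ⋂ i ∈ bs l, (bad a t (bp a l k i))ᶜ) := by
    refine measureReal_mono ?_
    rw [NB_eq]
    intro y hy
    simp only [mem_iInter] at hy ⊢
    intro k hk i hi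
    exact hy _ (bp_gen a hl (Finset.mem_range.mp hk) hi)
  refine h1.trans ?_
  rw [hP]
  calc ∏ k ∈ Finset.range 16, (gm (ZMod a)).real (⋂ i ∈ bs l, (bad a t (bp a l k i))ᶜ)
      ≤ ∏ _k ∈ Finset.range 16, (1 / (l ^ 2 * qq t) + 3 * rr t / (l * qq t ^ 2)) :=
        Finset.prod_le_prod (fun k _ => measureReal_nonneg)
          (fun k hk => block_one a hl0 hl (Finset.mem_range.mp hk) t)
    _ = _ := by rw [Finset.prod_const, Finset.card_range]

end Pool.Agent.KZ
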