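import Pool.Agent.KZ.E3z

set_option autoImplicit false
set_option linter.unusedSectionVars false

namespace Pool.Agent.KZ

open MeasureTheory ProbabilityTheory Set Real Filter Topology

variable (a : ℕ) [NeZero a]

theorem e3a_bx {l k : ℕ} (hl : 130 * l ≤ a) (hk : k < 16) {i : ℕ} (hi : i < l) :
    bx l k i < a := by
  unfold bx
  have h1 : 2 * l * (1 + 2 * k) ≤ 2 * l * 31 := Nat.mul_le_mul_left _ (by omega)
  omega

theorem e3a_by {l k : ℕ} (hl : 130 * l ≤ a) {i : ℕ} (hi : i < l) :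
    by' l k i < a := by
  unfold by'
  have h1 : 2 * l * (48 - k) ≤ 2 * l * 48 := Nat.mul_le_mul_left _ (by omega)
  omega

theorem e3a_sum {l k : ℕ} (hk : k < 16) (i j : ℕ) :
    bx l k i + by' l k j = 2 * l * (49 + k) + (i + j) := by
  unfold bx by'
  have h1 : 2 * l * (1 + 2 * k) + 2 * l * (48 - k) = 2 * l * (49 + k) := by
    rw [← Nat.mul_add]
    congr 1
    omega
  omega

theorem e3a_sumlt {l k : ℕ} (hl : 130 * l ≤ a) (hk : k < 16) {i j : ℕ} (hi : i < l) (hj : j < l) :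
    bx l k i + by' l k j < a := by
  rw [e3a_sum hk]
  have h1 : 2 * l * (49 + k) ≤ 2 * l * 64 := Nat.mul_le_mul_left _ (by omega)
  omega

theorem e3a_mem {l : ℕ} {i : ℕ × ℕ} (hi : i ∈ bs l) : i.1 < l ∧ i.2 < l := by
  unfold bs at hi
  rw [Finset.mem_product, Finset.mem_range, Finset.mem_range] at hi
  exact hi

theorem e3a_v1 {l k : ℕ} (hl : 130 * l ≤ a) (hk : k < 16) {i : ℕ × ℕ} (hi : i ∈ bs l) :
    (bp a l k i).1.val = bx l k i.1 :=
  ZMod.val_cast_of_lt (e3a_bx a hl hk (e3a_mem hi).1)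

theorem e3a_v2 {l k : ℕ} (hl : 130 * l ≤ a) {i : ℕ × ℕ} (hi : i ∈ bs l) :
    (bp a l k i).2.val = by' l k i.2 :=
  ZMod.val_cast_of_lt (e3a_by a hl (e3a_mem hi).2)

theorem e3a_v3 {l k : ℕ} (hl : 130 * l ≤ a) (hk : k < 16) {i : ℕ × ℕ} (hi : i ∈ bs l) :
    ((bp a l k i).1 + (bp a l k i).2).val = bx l k i.1 + by' l k i.2 := by
  have e : (bp a l k i).1 + (bp a l k i).2 = ((bx l k i.1 + by' l k i.2 : ℕ) : ZMod a) := by
    rw [Nat.cast_add]
    rfl
  rw [e]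
  exact ZMod.val_cast_of_lt (e3a_sumlt a hl hk (e3a_mem hi).1 (e3a_mem hi).2)

/-- PROOF (for all lemmas of this file). `130 l ≤ a`, so the naturals `x = bx l k i.1` (in `[2l(1+2k), 2l(1+2k) + l)`), `y = by' l k i.2`
(in `[2l(48-k), 2l(48-k) + l)`) and `x + y` (in `[2l(49+k), 2l(49+k) + 2l - 1)`) are `< a` (`k ≤ 15`: `2l * 64 + 2l ≤ 130 l`), so their `ZMod.val` is the number itself
(`ZMod.val_natCast_of_lt`), `(x : ZMod a) + y = ((x + y : ℕ) : ZMod a)`. `x < y` because `1 + 2k ≤ 31 < 33 ≤ 48 - k`; `0 < x`; `0 < x + y < a`.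
(`k < 16` : `interval_cases k` makes everything linear in `l`, `i.1`, `i.2`: `omega`.) -/
theorem bp_gen {l k : ℕ} (hl : 130 * l ≤ a) (hk : k < 16) {i : ℕ × ℕ} (hi : i ∈ bs l) :
    bp a l k i ∈ gen a := by
  obtain ⟨h1, h2⟩ := e3a_mem hi
  have hx : 2 * l * 1 ≤ 2 * l * (1 + 2 * k) := Nat.mul_le_mul_left _ (by omega)
  have hx2 : 2 * l * (1 + 2 * k) ≤ 2 * l * 31 := Nat.mul_le_mul_left _ (by omega)
  have hy : 2 * l * 33 ≤ 2 * l * (48 - k) := Nat.mul_le_mul_left _ (by omega)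
  unfold gen
  rw [Finset.mem_filter]
  refine ⟨Finset.mem_univ _, ?_, ?_, ?_⟩
  · rw [e3a_v1 a hl hk hi, e3a_v2 a hl hi]
    unfold bx by'
    omega
  · intro h
    have h3 := e3a_v1 a hl hk hi
    rw [h, ZMod.val_zero] at h3
    unfold bx at h3
    omega
  · intro h
    have h3 := e3a_v3 a hl hk hi
    rw [h, ZMod.val_zero] at h3
    unfold bx by' at h3
    omega

theorem bp_inj {l k : ℕ} (hl : 130 * l ≤ a) (hk : k < 16) {i j : ℕ × ℕ} (hi : i ∈ bs l)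
    (hj : j ∈ bs l) (h : bp a l k i = bp a l k j) : i = j := by
  have h1 := e3a_v1 a hl hk hi
  have h2 := e3a_v1 a hl hk hj
  have h3 := e3a_v2 (k := k) a hl hi
  have h4 := e3a_v2 (k := k) a hl hj
  rw [h, h2] at h1
  rw [h, h4] at h3
  unfold bx at h1
  unfold by' at h3
  exact Prod.ext (by omega) (by omega)

/-- the cells of the coordinates of a block -/
theorem e3a_cell {l k : ℕ} (hl : 130 * l ≤ a) (hk : k < 16) {i : ℕ × ℕ} (hi : i ∈ bs l)
    {z : ZMod a} (hz : z ∈ supp3 (bp a l k i)) :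
    (z.val / (2 * l) = 1 + 2 * k ∧ z.val = bx l k i.1) ∨
    (z.val / (2 * l) = 48 - k ∧ z.val = by' l k i.2) ∨
    (z.val / (2 * l) = 49 + k ∧ z.val = bx l k i.1 + by' l k i.2) := by
  obtain ⟨h1, h2⟩ := e3a_mem hi
  have hl0 : 0 < 2 * l := by omega
  unfold supp3 at hz
  rw [Finset.mem_insert, Finset.mem_insert, Finset.mem_singleton] at hz
  rcases hz with hz | hz | hz
  · left
    rw [hz, e3a_v1 a hl hk hi]
    refine ⟨?_, rfl⟩
    unfold bx
    rw [Nat.mul_add_div hl0, Nat.div_eq_of_lt (by omega), add_zero]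
  · right; left
    rw [hz, e3a_v2 a hl hi]
    refine ⟨?_, rfl⟩
    unfold by'
    rw [Nat.mul_add_div hl0, Nat.div_eq_of_lt (by omega), add_zero]
  · right; right
    rw [hz, e3a_v3 a hl hk hi]
    refine ⟨?_, rfl⟩
    rw [e3a_sum hk, Nat.mul_add_div hl0, Nat.div_eq_of_lt (by omega), add_zero]

/-- PROOF. The values lie in the cells `[2l c, 2l(c+1))` with `c ∈ {1 + 2k, 48 - k, 49 + k}`; these cells are all different for different `k` and different types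
(`1 + 2k ≤ 31` odd, `33 ≤ 48 - k ≤ 48`, `49 ≤ 49 + k`). -/
theorem bsupp_disj {l k k' : ℕ} (hl : 130 * l ≤ a) (hk : k < 16) (hk' : k' < 16) (h : k ≠ k') :
    Disjoint (bsupp a l k) (bsupp a l k') := by
  rw [Finset.disjoint_left]
  intro z hz hz'
  unfold bsupp at hz hz'
  rw [Finset.mem_biUnion] at hz hz'
  obtain ⟨i, hi, hzi⟩ := hz
  obtain ⟨j, hj, hzj⟩ := hz'
  have h1 := e3a_cell a hl hk hi hzi
  have h2 := e3a_cell a hl hk' hj hzj
  rcases h1 with ⟨h1, -⟩ | ⟨h1, -⟩ | ⟨h1, -⟩ <;> rcases h2 with ⟨h2, -⟩ | ⟨h2, -⟩ | ⟨h2, -⟩ <;>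
    rw [h1] at h2 <;> omega

end Pool.Agent.KZ
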