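import Pool.Agent.KZ.E3z
import Pool.Agent.KZ.E3a

set_option autoImplicit false
set_option linter.unusedSectionVars false

namespace Pool.Agent.KZ

open MeasureTheory ProbabilityTheory Set Real Filter Topology

variable (a : ℕ) [NeZero a]

/-- equality of casts -/
theorem e3b_dl {x y : ℕ} (hx : x < a) (hy : y < a) :
    dl (x : ZMod a) (y : ZMod a) = if x = y then 1 else 0 := by
  unfold dl
  by_cases h : x = y
  · rw [if_pos h, if_pos (by rw [h])]
  · rw [if_neg h, if_neg]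
    intro h2
    have h3 := congrArg ZMod.val h2
    rw [ZMod.val_cast_of_lt hx, ZMod.val_cast_of_lt hy] at h3
    exact h h3

/-- inside a block, related pairs are related in exactly one of three ways and have covariance 1.
PROOF. As in E3a all coordinates are (casts of) naturals `< a`, the `x`-values, `y`-values and sums lie in three disjoint ranges, so in `ip_tri` all cross terms and
all terms `[x = y']` vanish, and the value is `[i.1 = j.1] + [i.2 = j.2] + [i.1 + i.2 = j.1 + j.2]`, of which exactly one is `1` if `i ≠ j` and one holds. -/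
theorem bp_ip {l k : ℕ} (hl : 130 * l ≤ a) (hk : k < 16) {i j : ℕ × ℕ} (hi : i ∈ bs l)
    (hj : j ∈ bs l) (h : i ≠ j) (hr : i.1 = j.1 ∨ i.2 = j.2 ∨ i.1 + i.2 = j.1 + j.2) :
    ip (tr (bp a l k i)) (tr (bp a l k j)) = 1 := by
  obtain ⟨i1, i2⟩ := i
  obtain ⟨j1, j2⟩ := j
  obtain ⟨hi1, hi2⟩ := e3a_mem hi
  obtain ⟨hj1, hj2⟩ := e3a_mem hj
  simp only at hi1 hi2 hj1 hj2 hr
  have hne : ¬ (i1 = j1 ∧ i2 = j2) := fun h2 => h (Prod.ext h2.1 h2.2)
  have bx1 := e3a_bx a hl hk hi1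
  have bx2 := e3a_bx a hl hk hj1
  have by1 := e3a_by (k := k) a hl hi2
  have by2 := e3a_by (k := k) a hl hj2
  have bs1 := e3a_sumlt a hl hk hi1 hi2
  have bs2 := e3a_sumlt a hl hk hj1 hj2
  have hx2 : 2 * l * (1 + 2 * k) ≤ 2 * l * 31 := Nat.mul_le_mul_left _ (by omega)
  have hy : 2 * l * 33 ≤ 2 * l * (48 - k) := Nat.mul_le_mul_left _ (by omega)
  have hy2 : 2 * l * (48 - k) ≤ 2 * l * 48 := Nat.mul_le_mul_left _ (by omega)
  have hz : 2 * l * 49 ≤ 2 * l * (49 + k) := Nat.mul_le_mul_left _ (by omega)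
  have s1 := e3a_sum (l := l) hk i1 i2
  have s2 := e3a_sum (l := l) hk j1 j2
  have e1 : (bp a l k (i1, i2)).1 + (bp a l k (i1, i2)).2 =
      ((bx l k i1 + by' l k i2 : ℕ) : ZMod a) := by
    rw [Nat.cast_add]
    rfl
  have e2 : (bp a l k (j1, j2)).1 + (bp a l k (j1, j2)).2 =
      ((bx l k j1 + by' l k j2 : ℕ) : ZMod a) := by
    rw [Nat.cast_add]
    rfl
  unfold tr
  rw [ip_tri, e1, e2]
  have f1 : (bp a l k (i1, i2)).1 = ((bx l k i1 : ℕ) : ZMod a) := rfl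
  have f2 : (bp a l k (i1, i2)).2 = ((by' l k i2 : ℕ) : ZMod a) := rfl
  have g1 : (bp a l k (j1, j2)).1 = ((bx l k j1 : ℕ) : ZMod a) := rfl
  have g2 : (bp a l k (j1, j2)).2 = ((by' l k j2 : ℕ) : ZMod a) := rfl
  rw [f1, f2, g1, g2, e3b_dl a bx1 bx2, e3b_dl a bx1 by2, e3b_dl a by1 bx2, e3b_dl a by1 by2,
    e3b_dl a bs1 bs2, e3b_dl a bx1 bs2, e3b_dl a by1 bs2, e3b_dl a bs1 bx2, e3b_dl a bs1 by2]
  have c2 : ¬ (bx l k i1 = by' l k j2) := by unfold bx by'; omega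
  have c3 : ¬ (by' l k i2 = bx l k j1) := by unfold bx by'; omega
  have c6 : ¬ (bx l k i1 = bx l k j1 + by' l k j2) := by rw [s2]; unfold bx; omega
  have c7 : ¬ (by' l k i2 = bx l k j1 + by' l k j2) := by rw [s2]; unfold by'; omega
  have c8 : ¬ (bx l k i1 + by' l k i2 = bx l k j1) := by rw [s1]; unfold bx; omega
  have c9 : ¬ (bx l k i1 + by' l k i2 = by' l k j2) := by rw [s1]; unfold by'; omega
  have d1 : (bx l k i1 = bx l k j1) ↔ i1 = j1 := by unfold bx; omega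
  have d4 : (by' l k i2 = by' l k j2) ↔ i2 = j2 := by unfold by'; omega
  have d5 : (bx l k i1 + by' l k i2 = bx l k j1 + by' l k j2) ↔ i1 + i2 = j1 + j2 := by
    rw [s1, s2]
    omega
  rw [if_neg c2, if_neg c3, if_neg c6, if_neg c7, if_neg c8, if_neg c9]
  have key : ((if bx l k i1 = bx l k j1 then (1 : ℤ) else 0) + 0 + 0 +
      (if by' l k i2 = by' l k j2 then (1 : ℤ) else 0) +
      (if bx l k i1 + by' l k i2 = bx l k j1 + by' l k j2 then (1 : ℤ) else 0) - 0 - 0 - 0 - 0) = 1 := by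
    simp only [d1, d4, d5]
    split_ifs <;> omega
  rw [key]
  norm_num

theorem bp_ip0 {l k : ℕ} (hl : 130 * l ≤ a) (hk : k < 16) {i j : ℕ × ℕ} (hi : i ∈ bs l)
    (hj : j ∈ bs l) (hr : ¬ (i.1 = j.1 ∨ i.2 = j.2 ∨ i.1 + i.2 = j.1 + j.2)) :
    Disjoint (supp3 (bp a l k i)) (supp3 (bp a l k j)) := by
  rw [Finset.disjoint_left]
  intro z hz hz'
  have h1 := e3a_cell a hl hk hi hz
  have h2 := e3a_cell a hl hk hj hz'
  have s1 := e3a_sum (l := l) hk i.1 i.2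
  have s2 := e3a_sum (l := l) hk j.1 j.2
  rcases h1 with ⟨h1, v1⟩ | ⟨h1, v1⟩ | ⟨h1, v1⟩ <;> rcases h2 with ⟨h2, v2⟩ | ⟨h2, v2⟩ | ⟨h2, v2⟩ <;>
    rw [h1] at h2 <;> try omega
  · rw [v1] at v2
    unfold bx at v2
    exact hr (Or.inl (by omega))
  · rw [v1] at v2
    unfold by' at v2
    exact hr (Or.inr (Or.inl (by omega)))

end Pool.Agent.KZ
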