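import Pool.Agent.KZ.E3z

set_option autoImplicit false
set_option linter.unusedSectionVars false

namespace Pool.Agent.KZ

open MeasureTheory ProbabilityTheory Set Real Filter Topology

/-- number of related pairs inside a block.
PROOF. Three conditions, each satisfied by at most `l` pairs `j` of `bs l`: `j.1 = i.1` (injective in `j.2 < l`), `j.2 = i.2`, `j.1 + j.2 = i.1 + i.2` (injective in `j.1 < l`). -/
theorem bs_rel (l : ℕ) (i : ℕ × ℕ) :
    ((bs l).filter (fun j => j ≠ i ∧ (i.1 = j.1 ∨ i.2 = j.2 ∨ i.1 + i.2 = j.1 + j.2))).card ≤
      3 * l := by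
  have h1 : ((bs l).filter (fun j => i.1 = j.1)).card ≤ l := by
    have h : ((bs l).filter (fun j => i.1 = j.1)).card ≤ (Finset.range l).card := by
      apply Finset.card_le_card_of_injOn Prod.snd
      · intro j hj
        simp only [bs, Finset.coe_filter, Finset.mem_product, mem_ofPred_eq] at hj
        exact hj.1.2
      · intro j hj k hk hjk
        simp only [Finset.coe_filter, mem_ofPred_eq] at hj hk
        exact Prod.ext (hj.2.symm.trans hk.2) hjk
    rwa [Finset.card_range] at h
  have h2 : ((bs l).filter (fun j => i.2 = j.2)).card ≤ l := by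
    have h : ((bs l).filter (fun j => i.2 = j.2)).card ≤ (Finset.range l).card := by
      apply Finset.card_le_card_of_injOn Prod.fst
      · intro j hj
        simp only [bs, Finset.coe_filter, Finset.mem_product, mem_ofPred_eq] at hj
        exact hj.1.1
      · intro j hj k hk hjk
        simp only [Finset.coe_filter, mem_ofPred_eq] at hj hk
        exact Prod.ext hjk (hj.2.symm.trans hk.2)
    rwa [Finset.card_range] at h
  have h3 : ((bs l).filter (fun j => i.1 + i.2 = j.1 + j.2)).card ≤ l := by
    have h : ((bs l).filter (fun j => i.1 + i.2 = j.1 + j.2)).card ≤ (Finset.range l).card := by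
      apply Finset.card_le_card_of_injOn Prod.fst
      · intro j hj
        simp only [bs, Finset.coe_filter, Finset.mem_product, mem_ofPred_eq] at hj
        exact hj.1.1
      · intro j hj k hk hjk
        simp only [Finset.coe_filter, mem_ofPred_eq] at hj hk
        have e := hj.2.symm.trans hk.2
        rw [hjk] at e
        exact Prod.ext hjk (Nat.add_left_cancel e)
    rwa [Finset.card_range] at h
  have hsub : ((bs l).filter (fun j => j ≠ i ∧ (i.1 = j.1 ∨ i.2 = j.2 ∨ i.1 + i.2 = j.1 + j.2))) ⊆
      ((bs l).filter (fun j => i.1 = j.1)) ∪ (((bs l).filter (fun j => i.2 = j.2)) ∪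
        ((bs l).filter (fun j => i.1 + i.2 = j.1 + j.2))) := by
    intro j hj
    simp only [Finset.mem_union, Finset.mem_filter] at hj ⊢
    tauto
  have h4 := (Finset.card_le_card hsub).trans (Finset.card_union_le _ _)
  have h5 := Finset.card_union_le ((bs l).filter (fun j => i.2 = j.2))
    ((bs l).filter (fun j => i.1 + i.2 = j.1 + j.2))
  omega

end Pool.Agent.KZ
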