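import Pool.Agent.KZ.E3a
import Pool.Agent.KZ.E3b
import Pool.Agent.KZ.E3c
import Pool.Agent.KZ.E1a
import Pool.Agent.KZ.C2b

set_option autoImplicit false
set_option linter.unusedSectionVars false

namespace Pool.Agent.KZ

open MeasureTheory ProbabilityTheory Set Real Filter Topology

variable (a : ℕ) [NeZero a]

/-- bound for a joint probability, valid for all `t` -/
noncomputable def rr (t : ℝ) : ℝ := if t ≤ 1 then 1 else exp (-t ^ 2 / 4) / t ^ 2

/-- no violated inequality in block `k`.
PROOF. `second_moment` for `P = gm (ZMod a)`, `s = bs l` (card `l²`), `A i = bad a t (bp a l k i)`, `R i j := i.1 = j.1 ∨ i.2 = j.2 ∨ i.1 + i.2 = j.1 + j.2`,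
`q = qq t > 0` (`qq_low`, `qq_half`), `r = rr t`, `m = 3 l` (`bs_rel`). `hp`: `bad_prob`, `bp_gen`. `h2`: the supports are disjoint (`bp_ip0`): `ind` gives equality. `h3`: for `t ≤ 1` trivial
(`measureReal_le_one`), for `t > 1` `fine` with `gen_norm`, `bp_ip`. Finally `3 l * rr / (l² q²) = 3 rr/(l q²)`. -/
theorem block_one {l k : ℕ} (hl0 : 0 < l) (hl : 130 * l ≤ a) (hk : k < 16) (t : ℝ) :
    (gm (ZMod a)).real (⋂ i ∈ bs l, (bad a t (bp a l k i))ᶜ) ≤
      1 / (l ^ 2 * qq t) + 3 * rr t / (l * qq t ^ 2) := by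
  have hs : (bs l).Nonempty := ⟨(0, 0), by
    unfold bs
    rw [Finset.mem_product]
    exact ⟨Finset.mem_range.mpr hl0, Finset.mem_range.mpr hl0⟩⟩
  have hq : 0 < qq t := by
    rcases le_total t 0 with h | h
    · have := qq_half t h
      linarith
    · have h1 := qq_low t h
      have h2 : 0 < exp (-t ^ 2 / 6) / (12 * (1 + t)) := by positivity
      linarith
  have hr : 0 ≤ rr t := by
    unfold rr
    split_ifs
    · norm_num
    · positivity
  have hcard : ((bs l).card : ℝ) = (l : ℝ) ^ 2 := by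
    unfold bs
    rw [Finset.card_product, Finset.card_range]
    push_cast
    ring
  have h := second_moment (gm (ZMod a)) (bs l) hs (fun i => bad a t (bp a l k i))
    (fun i => bad_meas a t _)
    (fun i j : ℕ × ℕ => i.1 = j.1 ∨ i.2 = j.2 ∨ i.1 + i.2 = j.1 + j.2) (qq t) (rr t) hq hr
    (fun i hi => bad_prob a t (bp_gen a hl hk hi))
    (by
      intro i hi j hj hji hR
      have h1 := ind (supp3 (bp a l k i)) (supp3 (bp a l k j)) (bp_ip0 a hl hk hi hj hR)
        (bad a t (bp a l k i)) (bad a t (bp a l k j)) (bad_meas a t _) (bad_meas a t _)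
        (bad_dep a t _) (bad_dep a t _)
      rw [bad_prob a t (bp_gen a hl hk hi), bad_prob a t (bp_gen a hl hk hj)] at h1
      rw [h1]
      apply le_of_eq
      ring)
    (by
      intro i hi j hj hji hR
      unfold rr
      split_ifs with ht
      · exact measureReal_le_one
      · exact fine (tr (bp a l k i)) (tr (bp a l k j)) (gen_norm (bp_gen a hl hk hi))
          (gen_norm (bp_gen a hl hk hj)) (bp_ip a hl hk hi hj (Ne.symm hji) hR) t (by linarith))
    (3 * l) (fun i _ => bs_rel l i)
  rw [hcard] at h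
  refine h.trans (le_of_eq ?_)
  have hl' : (0 : ℝ) < l := by exact_mod_cast hl0
  congr 1
  push_cast
  field_simp

end Pool.Agent.KZ
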