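import Pool.Agent.KZ.D1b

set_option autoImplicit false
set_option linter.unusedSectionVars false

namespace Pool.Agent.KZ

open MeasureTheory ProbabilityTheory Set Real Filter Topology

variable (a : ℕ) [NeZero a]

/-- first coordinate of the pair `(i, j)` of block `k` (block length `l`) -/
def bx (l k i : ℕ) : ℕ := 2 * l * (1 + 2 * k) + i

/-- second coordinate -/
def by' (l k j : ℕ) : ℕ := 2 * l * (48 - k) + j

/-- the pair `(i, j)` of block `k` -/
def bp (l k : ℕ) (i : ℕ × ℕ) : ZMod a × ZMod a := ((bx l k i.1 : ℕ), (by' l k i.2 : ℕ))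

/-- index set of a block -/
def bs (l : ℕ) : Finset (ℕ × ℕ) := Finset.range l ×ˢ Finset.range l

/-- coordinates of a block -/
def bsupp (l k : ℕ) : Finset (ZMod a) := (bs l).biUnion fun i => supp3 (bp a l k i)

end Pool.Agent.KZ
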