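import Pool.Agent.KZ.Base

set_option autoImplicit false
set_option linter.unusedSectionVars false

namespace Pool.Agent.KZ

open MeasureTheory ProbabilityTheory Set Real Filter Topology

variable {ι : Type} [Fintype ι] [DecidableEq ι]

/-- resampling one coordinate preserves the measure.
PROOF. Measurability: `measurable_pi_iff`, `Function.update_apply`. The image measure is `Measure.pi`: `Measure.pi_eq` : for a box `Set.pi univ s` the preimage is
`s i₀ ×ˢ Set.pi univ (Function.update s i₀ univ)`, of measure `γ(s i₀) * ∏ i, γ (update s i₀ univ i) = ∏ i, γ (s i)` (`Finset.prod_update_of_mem`,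
`Finset.mul_prod_erase`). -/
theorem update_pres (i₀ : ι) : MeasurePreserving (fun p : ℝ × (ι → ℝ) => Function.update p.2 i₀ p.1)
    ((gaussianReal 0 1).prod (gm ι)) (gm ι) := by
  have hm : Measurable (fun p : ℝ × (ι → ℝ) => Function.update p.2 i₀ p.1) := by
    rw [measurable_pi_iff]
    intro i
    by_cases h : i = i₀
    · subst h
      simp only [Function.update_self]
      exact measurable_fst
    · simp only [Function.update_of_ne h]
      exact (measurable_pi_apply i).comp measurable_snd
  refine ⟨hm, ?_⟩
  symm
  unfold gm
  refine Measure.pi_eq fun s hs => ?_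
  rw [Measure.map_apply hm (MeasurableSet.univ_pi hs)]
  have e : (fun p : ℝ × (ι → ℝ) => Function.update p.2 i₀ p.1) ⁻¹' (pi univ s) =
      s i₀ ×ˢ pi univ (Function.update s i₀ univ) := by
    ext ⟨x, y⟩
    simp only [mem_preimage, Set.mem_pi, mem_univ, true_implies, mem_prod]
    constructor
    · intro h
      refine ⟨?_, fun i => ?_⟩
      · have := h i₀
        rwa [Function.update_self] at this
      · by_cases hi : i = i₀
        · subst hi
          rw [Function.update_self]
          exact mem_univ _
        · have := h i
          rw [Function.update_of_ne hi] at this ⊢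
          exact this
    · rintro ⟨h1, h2⟩ i
      by_cases hi : i = i₀
      · subst hi
        rwa [Function.update_self]
      · have := h2 i
        rw [Function.update_of_ne hi] at this ⊢
        exact this
  rw [e, Measure.prod_prod, Measure.pi_pi]
  have e2 : ∀ i, (gaussianReal 0 1) (Function.update s i₀ univ i) =
      Function.update (fun i => (gaussianReal 0 1) (s i)) i₀ 1 i := by
    intro i
    by_cases hi : i = i₀
    · subst hi
      rw [Function.update_self, Function.update_self, measure_univ]
    · rw [Function.update_of_ne hi, Function.update_of_ne hi]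
  rw [Finset.prod_congr rfl fun i _ => e2 i, Finset.prod_update_of_mem (Finset.mem_univ i₀), one_mul,
    Finset.sdiff_singleton_eq_erase, Finset.mul_prod_erase Finset.univ (fun i => (gaussianReal 0 1) (s i))
      (Finset.mem_univ i₀)]

/-- PROOF. Finite intersection of closed sets (or of measurable sets). -/
theorem cone_meas (a : ℕ) [NeZero a] : MeasurableSet (Cone a) := by
  have e : Cone a = ⋂ i : ZMod a, ⋂ j : ZMod a, {y : ZMod a → ℝ | y (i + j) + y 0 ≤ y i + y j} := by
    ext y
    simp only [Cone, mem_setOf_eq, mem_iInter]
  rw [e]
  refine MeasurableSet.iInter fun i => MeasurableSet.iInter fun j => ?_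
  exact measurableSet_le (by fun_prop) (by fun_prop)

/-- PROOF. `measurable_measure_prodMk_left` for the measurable set `{p | Function.update p.2 0 (-p.1) ∈ Cone a}`, and `toReal`. -/
theorem pp_meas (a : ℕ) [NeZero a] : Measurable (PP a) := by
  have hm : Measurable (fun p : ℝ × (ZMod a → ℝ) => Function.update p.2 0 (-p.1)) := by
    rw [measurable_pi_iff]
    intro i
    by_cases h : i = 0
    · subst h
      simp only [Function.update_self]
      exact measurable_fst.neg
    · simp only [Function.update_of_ne h]
      exact (measurable_pi_apply i).comp measurable_snd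
  have h := measurable_measure_prodMk_left (ν := gm (ZMod a)) (hm (cone_meas a))
  exact h.ennreal_toReal

/-- disintegration over the coordinate `y 0`.
PROOF. `update_pres 0` and `Measure.prod_apply`: `gm(Cone) = ∫⁻ x, gm {y | update y 0 x ∈ Cone} dγ(x)`, in `ℝ`: `∫ x, PP a (-x) ∂γ`
(`integral_toReal` or `measureReal_prod`-type lemma), `integral_gaussianReal_eq_integral_smul` with the density `gaussianPDFReal 0 1 x = (√(2π))⁻¹ exp (-x²/2)`,
and the substitution `x = -t` (`integral_neg_eq_self`). -/
theorem fub (a : ℕ) [NeZero a] : (gm (ZMod a)).real (Cone a) =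
    ∫ t : ℝ, PP a t * (exp (-t ^ 2 / 2) / √(2 * π)) := by
  have hp := update_pres (0 : ZMod a)
  have hS : MeasurableSet ((fun p : ℝ × (ZMod a → ℝ) => Function.update p.2 0 p.1) ⁻¹' Cone a) :=
    hp.measurable (cone_meas a)
  have h1 : (gm (ZMod a)) (Cone a) = ∫⁻ x, (gm (ZMod a))
      (Prod.mk x ⁻¹' ((fun p : ℝ × (ZMod a → ℝ) => Function.update p.2 0 p.1) ⁻¹' Cone a))
        ∂(gaussianReal 0 1) := by
    rw [← Measure.prod_apply hS, hp.measure_preimage (cone_meas a).nullMeasurableSet]
  have h2 : (gm (ZMod a)).real (Cone a) = ∫ x, PP a (-x) ∂(gaussianReal 0 1) := by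
    rw [measureReal_def, h1, ← integral_toReal]
    · refine integral_congr_ae (Eventually.of_forall fun x => ?_)
      show _ = (gm (ZMod a)).real {y | Function.update y 0 (- -x) ∈ Cone a}
      rw [neg_neg]
      rfl
    · exact (measurable_measure_prodMk_left hS).aemeasurable
    · exact Eventually.of_forall fun x => measure_lt_top _ _
  rw [h2, integral_gaussianReal_eq_integral_smul one_ne_zero]
  have h3 := integral_neg_eq_self (fun x : ℝ => gaussianPDFReal 0 1 x • PP a (-x)) volume
  rw [← h3]
  refine integral_congr_ae (Eventually.of_forall fun x => ?_)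
  simp only [smul_eq_mul, neg_neg, gaussianPDFReal_def, sub_zero, NNReal.coe_one, mul_one, neg_sq]
  ring

end Pool.Agent.KZ
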