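import Pool.Agent.KZ.Base

set_option autoImplicit false
set_option linter.unusedSectionVars false

namespace Pool.Agent.KZ

open MeasureTheory ProbabilityTheory Set Real Filter Topology

theorem c1_pos : 0 < c1 := by
  unfold c1; positivity

/-- the scale `τ`.
PROOF. Intermediate value theorem: `f τ = τ exp (τ²/6)` is continuous, `f 0 = 0 < x` and `f x ≥ x`; so there is `τ ∈ [0, x]` with `f τ = x`, and `τ ≠ 0`. -/
theorem tau_exists (x : ℝ) (hx : 0 < x) : ∃ τ : ℝ, 0 < τ ∧ τ * exp (τ ^ 2 / 6) = x := by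
  have hc : ContinuousOn (fun τ : ℝ => τ * exp (τ ^ 2 / 6)) (Icc 0 x) := by fun_prop
  have h1 := intermediate_value_Icc hx.le hc
  have h2 : x ∈ Icc ((fun τ : ℝ => τ * exp (τ ^ 2 / 6)) 0) ((fun τ : ℝ => τ * exp (τ ^ 2 / 6)) x) := by
    constructor
    · simp only [zero_mul]
      exact hx.le
    · show x ≤ x * exp (x ^ 2 / 6)
      have h3 : 1 ≤ exp (x ^ 2 / 6) := one_le_exp (by positivity)
      nlinarith
  obtain ⟨τ, ⟨h3, -⟩, h4⟩ := h1 h2
  have h4' : τ * exp (τ ^ 2 / 6) = x := h4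
  refine ⟨τ, lt_of_le_of_ne h3 ?_, h4'⟩
  intro h5
  rw [← h5, zero_mul] at h4'
  exact hx.ne h4'

noncomputable def tau (a : ℕ) : ℝ :=
  if h : 1 ≤ a then (tau_exists (c1 * (a : ℝ) ^ 2) (by have := c1_pos; positivity)).choose else 1

theorem tau_spec (a : ℕ) (ha : 1 ≤ a) : 0 < tau a ∧ tau a * exp (tau a ^ 2 / 6) = c1 * (a : ℝ) ^ 2 := by
  unfold tau
  rw [dif_pos ha]
  exact (tau_exists (c1 * (a : ℝ) ^ 2) (by have := c1_pos; positivity)).choose_spec

theorem tau_pos (a : ℕ) : 0 < tau a := by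
  by_cases ha : 1 ≤ a
  · exact (tau_spec a ha).1
  · unfold tau
    rw [dif_neg ha]
    exact one_pos

theorem tau_eq (a : ℕ) (ha : 1 ≤ a) : tau a * exp (tau a ^ 2 / 6) = c1 * (a : ℝ) ^ 2 :=
  (tau_spec a ha).2

/-- PROOF. For `M > 0`: if `tau a ≤ M` then `c1 a² = τ exp (τ²/6) ≤ M exp (M²/6)`, which fails for large `a`. -/
theorem tau_atTop : Tendsto tau atTop atTop := by
  rw [tendsto_atTop]
  intro b
  obtain ⟨M, hM⟩ : ∃ M, M = max b 1 := ⟨_, rfl⟩
  have hM1 : 1 ≤ M := by rw [hM]; exact le_max_right _ _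
  have hMb : b ≤ M := by rw [hM]; exact le_max_left _ _
  have h1 : Tendsto (fun a : ℕ => c1 * (a : ℝ) ^ 2) atTop atTop := by
    refine Tendsto.const_mul_atTop c1_pos ?_
    exact (tendsto_pow_atTop two_ne_zero).comp tendsto_natCast_atTop_atTop
  filter_upwards [h1.eventually_gt_atTop (M * exp (M ^ 2 / 6)), eventually_ge_atTop 1] with a h2 h3
  have h4 := tau_eq a h3
  have h5 := tau_pos a
  by_contra h6
  have h7 : tau a ≤ M := by linarith [not_le.1 h6]
  have h8 : tau a * exp (tau a ^ 2 / 6) ≤ M * exp (M ^ 2 / 6) := by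
    apply mul_le_mul h7 _ (exp_pos _).le (by linarith)
    apply exp_le_exp.2
    have := pow_le_pow_left₀ h5.le h7 2
    linarith
  linarith

/-- PROOF. Taking logarithms: `log τ + τ²/6 = log c1 + 2 log a`. Divide by `τ²`: `log τ/τ² → 0` (`Real.isLittleO_log_id_atTop`, `log x / x → 0`, `tau_atTop`), `log c1/τ² → 0`; so
`log a/τ² → 1/12`, and invert. -/
theorem f1_logx : Tendsto (fun x : ℝ => log x / x ^ 2) atTop (𝓝 0) := by
  have h1 := Real.tendsto_pow_log_div_mul_add_atTop 1 0 1 one_ne_zero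
  have h2 := h1.mul (tendsto_inv_atTop_zero (𝕜 := ℝ))
  rw [mul_zero] at h2
  refine h2.congr' ?_
  filter_upwards [eventually_gt_atTop 0] with x hx
  rw [pow_one, one_mul, add_zero]
  field_simp

theorem tau_log : Tendsto (fun a : ℕ => tau a ^ 2 / log a) atTop (𝓝 12) := by
  have h1 : Tendsto (fun a : ℕ => log (tau a) / tau a ^ 2) atTop (𝓝 0) := f1_logx.comp tau_atTop
  have h2 : Tendsto (fun a : ℕ => log c1 / tau a ^ 2) atTop (𝓝 0) :=
    tendsto_const_nhds.div_atTop ((tendsto_pow_atTop two_ne_zero).comp tau_atTop)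
  have h3 : Tendsto (fun a : ℕ => (1 / 6 + log (tau a) / tau a ^ 2 - log c1 / tau a ^ 2) / 2) atTop
      (𝓝 ((1 / 6 + 0 - 0) / 2)) := ((tendsto_const_nhds.add h1).sub h2).div_const 2
  have e0 : ((1 : ℝ) / 6 + 0 - 0) / 2 = 12⁻¹ := by norm_num
  rw [e0] at h3
  have h4 := h3.inv₀ (by norm_num)
  rw [inv_inv] at h4
  refine h4.congr' ?_
  filter_upwards [eventually_ge_atTop 1] with a ha
  have h5 := tau_eq a ha
  have h6 := tau_pos a
  have ha0 : (0 : ℝ) < a := by exact_mod_cast ha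
  have h7 : log (tau a) + tau a ^ 2 / 6 = log c1 + 2 * log a := by
    have h8 := congrArg log h5
    rw [log_mul h6.ne' (exp_pos _).ne', log_exp, log_mul c1_pos.ne' (by positivity), log_pow] at h8
    exact_mod_cast h8
  have h8 : (1 / 6 + log (tau a) / tau a ^ 2 - log c1 / tau a ^ 2) / 2 = log a / tau a ^ 2 := by
    have h9 : log (tau a) = log c1 + 2 * log a - tau a ^ 2 / 6 := by linarith
    rw [h9]
    field_simp
    ring
  rw [h8, inv_div]

/-- the points `t = τ + 3 s / τ` -/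
noncomputable def tt (s : ℝ) (a : ℕ) : ℝ := tau a + 3 * s / tau a

/-- PROOF. `tau → ∞` and `3 s/τ → 0` (`Tendsto.atTop_add`). -/
theorem tt_atTop (s : ℝ) : Tendsto (tt s) atTop atTop := by
  unfold tt
  exact tau_atTop.atTop_add (tendsto_const_nhds.div_atTop tau_atTop)

theorem tt_sq (s : ℝ) (a : ℕ) : tt s a ^ 2 = tau a ^ 2 + 6 * s + 9 * s ^ 2 / tau a ^ 2 := by
  have := tau_pos a
  unfold tt
  field_simp
  ring

end Pool.Agent.KZ
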