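import Pool.Agent.KZ.F1

set_option autoImplicit false
set_option linter.unusedSectionVars false

namespace Pool.Agent.KZ

open MeasureTheory ProbabilityTheory Set Real Filter Topology

theorem f2b_gauss (c : ℝ) (hc : 0 < c) (n : ℕ) :
    Tendsto (fun τ : ℝ => τ ^ n * exp (-(c * τ ^ 2))) atTop (𝓝 0) := by
  have h1 : Tendsto (fun τ : ℝ => c * τ ^ 2) atTop atTop :=
    (tendsto_pow_atTop two_ne_zero).const_mul_atTop hc
  have h2 := ((Real.tendsto_pow_mul_exp_neg_atTop_nhds_zero n).comp h1).const_mul ((c⁻¹) ^ n)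
  rw [mul_zero] at h2
  refine squeeze_zero' ?_ ?_ h2
  · filter_upwards [eventually_ge_atTop 0] with τ hτ
    positivity
  · filter_upwards [eventually_ge_atTop 1] with τ hτ
    show τ ^ n * exp (-(c * τ ^ 2)) ≤ (c⁻¹) ^ n * ((c * τ ^ 2) ^ n * exp (-(c * τ ^ 2)))
    have e : (c⁻¹) ^ n * ((c * τ ^ 2) ^ n * exp (-(c * τ ^ 2))) =
        (τ ^ 2) ^ n * exp (-(c * τ ^ 2)) := by
      rw [← mul_assoc, ← mul_pow, ← mul_assoc, inv_mul_cancel₀ hc.ne', one_mul]
    rw [e]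
    apply mul_le_mul_of_nonneg_right _ (exp_pos _).le
    exact pow_le_pow_left₀ (by linarith) (by nlinarith) n

/-- `a = r exp (τ²/12)` with `r² = τ/c1` -/
theorem f2b_a (a : ℕ) (ha : 1 ≤ a) :
    (a : ℝ) = √(tau a / c1) * exp (tau a ^ 2 / 12) := by
  have h5 := tau_eq a ha
  have h6 := tau_pos a
  have hc := c1_pos
  have h7 : 0 < tau a / c1 := div_pos h6 hc
  have h8 : (a : ℝ) ^ 2 = (√(tau a / c1) * exp (tau a ^ 2 / 12)) ^ 2 := by
    rw [mul_pow, Real.sq_sqrt h7.le, ← exp_nat_mul]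
    have e : ((2 : ℕ) : ℝ) * (tau a ^ 2 / 12) = tau a ^ 2 / 6 := by push_cast; ring
    rw [e, div_mul_eq_mul_div, h5]
    field_simp
  exact (sq_eq_sq₀ (Nat.cast_nonneg a) (by positivity)).1 h8

theorem f2b_r (a : ℕ) : √(tau a / c1) ≤ 1 + tau a / c1 := by
  have h7 : 0 < tau a / c1 := div_pos (tau_pos a) c1_pos
  rw [Real.sqrt_le_left (by linarith)]
  nlinarith

/-- PROOF (for the three lemmas; `a ≥ 1`, `tt ≥ τ/2`, `τ ≥ 1` eventually). `a² = τ exp (τ²/6)/c1` (`tau_eq`), `tt² ≥ τ² + 6 s` (`tt_sq`). The square of the expression is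
`a⁶ exp (-tt²/2)/tt⁴ ≤ (τ/c1)³ exp (τ²/2) exp (-τ²/2 - 3 s) * 16/τ⁴ = 16 c1⁻³ exp (-3 s)/τ → 0`; a nonnegative sequence whose square tends to `0` tends to `0`
(`tendsto_pow..`, or `Real.sqrt` continuity, or `abs_le_of_sq_le`..). -/
theorem err1 (s : ℝ) : Tendsto (fun a : ℕ => (a : ℝ) ^ 3 * (exp (-tt s a ^ 2 / 4) / tt s a ^ 2))
    atTop (𝓝 0) := by
  have hc := c1_pos
  -- `r/τ → 0`
  have h1 : Tendsto (fun a : ℕ => √(c1⁻¹ * (tau a)⁻¹)) atTop (𝓝 0) := by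
    have h2 : Tendsto (fun a : ℕ => c1⁻¹ * (tau a)⁻¹) atTop (𝓝 (c1⁻¹ * 0)) :=
      (tendsto_inv_atTop_zero.comp tau_atTop).const_mul _
    rw [mul_zero] at h2
    have h3 := (Real.continuous_sqrt.tendsto 0).comp h2
    rw [Real.sqrt_zero] at h3
    exact h3
  have h2 := h1.const_mul (4 * exp (-(3 / 2 * s)) / c1)
  rw [mul_zero] at h2
  refine squeeze_zero' ?_ ?_ h2
  · filter_upwards with a
    positivity
  · have hbig : ∀ᶠ a : ℕ in atTop, -(tau a ^ 2) / 2 ≤ 6 * s := by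
      have h4 : Tendsto (fun a : ℕ => tau a ^ 2) atTop atTop :=
        (tendsto_pow_atTop two_ne_zero).comp tau_atTop
      filter_upwards [h4.eventually_ge_atTop (-12 * s)] with a ha
      linarith
    filter_upwards [eventually_ge_atTop 1, hbig] with a ha hb
    have h6 := tau_pos a
    have h7 : 0 < tau a / c1 := div_pos h6 hc
    obtain ⟨r, hr⟩ : ∃ r, r = √(tau a / c1) := ⟨_, rfl⟩
    have hr2 : r ^ 2 = tau a / c1 := by rw [hr, Real.sq_sqrt h7.le]
    have hr0 : 0 ≤ r := by rw [hr]; exact Real.sqrt_nonneg _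
    have ea := f2b_a a ha
    rw [← hr] at ea
    have htt := tt_sq s a
    have h9 : 0 ≤ 9 * s ^ 2 / tau a ^ 2 := by positivity
    have ht1 : tau a ^ 2 / 2 ≤ tt s a ^ 2 := by rw [htt]; linarith
    have ht2 : tau a ^ 2 + 6 * s ≤ tt s a ^ 2 := by rw [htt]; linarith
    have e1 : √(c1⁻¹ * (tau a)⁻¹) = r / tau a := by
      have e2 : c1⁻¹ * (tau a)⁻¹ = (r / tau a) ^ 2 := by
        rw [div_pow, hr2]
        field_simp
      rw [e2, Real.sqrt_sq (by positivity)]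
    rw [e1]
    have e3 : (a : ℝ) ^ 3 = r * (tau a / c1) * exp (tau a ^ 2 / 4) := by
      conv_lhs => rw [ea]
      rw [mul_pow, ← exp_nat_mul, ← hr2]
      have e : ((3 : ℕ) : ℝ) * (tau a ^ 2 / 12) = tau a ^ 2 / 4 := by push_cast; ring
      rw [e]
      ring
    rw [e3]
    have h10 : exp (tau a ^ 2 / 4) * exp (-tt s a ^ 2 / 4) ≤ exp (-(3 / 2 * s)) := by
      rw [← exp_add]
      apply exp_le_exp.2
      linarith
    have h11 : (tt s a ^ 2)⁻¹ ≤ (tau a ^ 2 / 2)⁻¹ := inv_anti₀ (by positivity) ht1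
    have h11' : (tt s a ^ 2)⁻¹ ≤ 4 / tau a ^ 2 := by
      refine h11.trans ?_
      rw [inv_div]
      apply div_le_div_of_nonneg_right (by norm_num) (by positivity)
    have h12 : 0 ≤ (tt s a ^ 2)⁻¹ := by positivity
    have h13 : 0 ≤ r * (tau a / c1) := by positivity
    calc r * (tau a / c1) * exp (tau a ^ 2 / 4) * (exp (-tt s a ^ 2 / 4) / tt s a ^ 2)
        = r * (tau a / c1) * ((exp (tau a ^ 2 / 4) * exp (-tt s a ^ 2 / 4)) * (tt s a ^ 2)⁻¹) := by
          rw [div_eq_mul_inv]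
          ring
      _ ≤ r * (tau a / c1) * (exp (-(3 / 2 * s)) * (4 / tau a ^ 2)) :=
          mul_le_mul_of_nonneg_left (mul_le_mul h10 h11' h12 (exp_pos _).le) h13
      _ = 4 * exp (-(3 / 2 * s)) / c1 * (r / tau a) := by
          field_simp

/-- PROOF. Square: `a⁶ exp (-2 tt²/3) ≤ (τ/c1)³ exp (τ²/2 - 2τ²/3 - 4 s) = c1⁻³ exp (-4s) τ³ exp (-τ²/6) → 0`. -/
theorem err2 (s : ℝ) : Tendsto (fun a : ℕ => (a : ℝ) ^ 3 * exp (-tt s a ^ 2 / 3)) atTop (𝓝 0) := by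
  have hc := c1_pos
  have g1 := (f2b_gauss (1 / 12) (by norm_num) 1).comp tau_atTop
  have g2 := (f2b_gauss (1 / 12) (by norm_num) 2).comp tau_atTop
  have h2 := ((g1.const_mul (c1⁻¹)).add (g2.const_mul (c1⁻¹ ^ 2))).const_mul (exp (-(2 * s)))
  rw [mul_zero, mul_zero, add_zero, mul_zero] at h2
  refine squeeze_zero' ?_ ?_ h2
  · filter_upwards with a
    positivity
  · filter_upwards [eventually_ge_atTop 1] with a ha
    have h6 := tau_pos a
    have h7 : 0 < tau a / c1 := div_pos h6 hc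
    have hrle := f2b_r a
    obtain ⟨r, hr⟩ : ∃ r, r = √(tau a / c1) := ⟨_, rfl⟩
    rw [← hr] at hrle
    have hr2 : r ^ 2 = tau a / c1 := by rw [hr, Real.sq_sqrt h7.le]
    have hr0 : 0 ≤ r := by rw [hr]; exact Real.sqrt_nonneg _
    have ea := f2b_a a ha
    rw [← hr] at ea
    have htt := tt_sq s a
    have h9 : 0 ≤ 9 * s ^ 2 / tau a ^ 2 := by positivity
    have ht2 : tau a ^ 2 + 6 * s ≤ tt s a ^ 2 := by rw [htt]; linarith
    have e3 : (a : ℝ) ^ 3 = r * (tau a / c1) * exp (tau a ^ 2 / 4) := by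
      conv_lhs => rw [ea]
      rw [mul_pow, ← exp_nat_mul, ← hr2]
      have e : ((3 : ℕ) : ℝ) * (tau a ^ 2 / 12) = tau a ^ 2 / 4 := by push_cast; ring
      rw [e]
      ring
    show (a : ℝ) ^ 3 * exp (-tt s a ^ 2 / 3) ≤ exp (-(2 * s)) *
      (c1⁻¹ * (tau a ^ 1 * exp (-(1 / 12 * tau a ^ 2))) +
        c1⁻¹ ^ 2 * (tau a ^ 2 * exp (-(1 / 12 * tau a ^ 2))))
    rw [e3]
    have h10 : exp (tau a ^ 2 / 4) * exp (-tt s a ^ 2 / 3) ≤
        exp (-(2 * s)) * exp (-(1 / 12 * tau a ^ 2)) := by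
      rw [← exp_add, ← exp_add]
      apply exp_le_exp.2
      linarith
    have h13 : r * (tau a / c1) ≤ (1 + tau a / c1) * (tau a / c1) :=
      mul_le_mul_of_nonneg_right hrle h7.le
    calc r * (tau a / c1) * exp (tau a ^ 2 / 4) * exp (-tt s a ^ 2 / 3)
        = r * (tau a / c1) * (exp (tau a ^ 2 / 4) * exp (-tt s a ^ 2 / 3)) := by ring
      _ ≤ (1 + tau a / c1) * (tau a / c1) * (exp (-(2 * s)) * exp (-(1 / 12 * tau a ^ 2))) :=
          mul_le_mul h13 h10 (by positivity) (by positivity)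
      _ = _ := by
          rw [div_eq_mul_inv]
          ring

/-- PROOF. Square: `a² exp (-tt²/5) ≤ (τ/c1) exp (τ²/6 - τ²/5 - 6 s/5) = c1⁻¹ exp (-6s/5) τ exp (-τ²/30) → 0`. -/
theorem err3 (s : ℝ) : Tendsto (fun a : ℕ => (a : ℝ) * exp (-tt s a ^ 2 / 10)) atTop (𝓝 0) := by
  have hc := c1_pos
  have g0 := (f2b_gauss (1 / 60) (by norm_num) 0).comp tau_atTop
  have g1 := (f2b_gauss (1 / 60) (by norm_num) 1).comp tau_atTop
  have h2 := (g0.add (g1.const_mul (c1⁻¹))).const_mul (exp (-(3 / 5 * s)))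
  rw [mul_zero, add_zero, mul_zero] at h2
  refine squeeze_zero' ?_ ?_ h2
  · filter_upwards with a
    positivity
  · filter_upwards [eventually_ge_atTop 1] with a ha
    have h6 := tau_pos a
    have h7 : 0 < tau a / c1 := div_pos h6 hc
    have hrle := f2b_r a
    have ea := f2b_a a ha
    have htt := tt_sq s a
    have h9 : 0 ≤ 9 * s ^ 2 / tau a ^ 2 := by positivity
    have ht2 : tau a ^ 2 + 6 * s ≤ tt s a ^ 2 := by rw [htt]; linarith
    show (a : ℝ) * exp (-tt s a ^ 2 / 10) ≤ exp (-(3 / 5 * s)) *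
      (tau a ^ 0 * exp (-(1 / 60 * tau a ^ 2)) + c1⁻¹ * (tau a ^ 1 * exp (-(1 / 60 * tau a ^ 2))))
    have h10 : exp (tau a ^ 2 / 12) * exp (-tt s a ^ 2 / 10) ≤
        exp (-(3 / 5 * s)) * exp (-(1 / 60 * tau a ^ 2)) := by
      rw [← exp_add, ← exp_add]
      apply exp_le_exp.2
      linarith
    calc (a : ℝ) * exp (-tt s a ^ 2 / 10)
        = √(tau a / c1) * (exp (tau a ^ 2 / 12) * exp (-tt s a ^ 2 / 10)) := by
          conv_lhs => rw [ea]
          ring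
      _ ≤ (1 + tau a / c1) * (exp (-(3 / 5 * s)) * exp (-(1 / 60 * tau a ^ 2))) :=
          mul_le_mul hrle h10 (by positivity) (by positivity)
      _ = _ := by
          rw [div_eq_mul_inv]
          ring

end Pool.Agent.KZ
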