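import Pool.Agent.KZ.F2a

set_option autoImplicit false
set_option linter.unusedSectionVars false

namespace Pool.Agent.KZ

open MeasureTheory ProbabilityTheory Set Real Filter Topology

/-- powers `(1 - q)^N`.
PROOF. For `0 ≤ q ≤ 1/2`: `-q - q² ≤ log (1 - q) ≤ -q`, i.e. `exp (-(q + q²)) ≤ 1 - q ≤ exp (-q)`; so `exp (-(N q) - (N q) q) ≤ (1 - q)^N ≤ exp (-(N q))`; both bounds tend to
`exp (-l)`; squeeze. (Upper bound: `Real.add_one_le_exp`; lower bound: `1 - q ≥ exp (-q - q²)` follows from `(1 - q)(1 + q + q²) ≥ ..` or `Real.one_sub_inv_le_log_of_pos`.) -/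
theorem pow_lim (q : ℕ → ℝ) (N : ℕ → ℕ) (l : ℝ) (h0 : ∀ n, 0 ≤ q n) (hq : Tendsto q atTop (𝓝 0))
    (h : Tendsto (fun n => (N n : ℝ) * q n) atTop (𝓝 l)) :
    Tendsto (fun n => (1 - q n) ^ N n) atTop (𝓝 (exp (-l))) := by
  have hup : Tendsto (fun n => exp (-((N n : ℝ) * q n))) atTop (𝓝 (exp (-l))) :=
    (continuous_exp.tendsto _).comp h.neg
  have hlo : Tendsto (fun n => exp (-((N n : ℝ) * q n * (1 + 2 * q n)))) atTop (𝓝 (exp (-l))) := by
    have h1 := h.mul ((tendsto_const_nhds (x := (1 : ℝ))).add (hq.const_mul 2))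
    rw [mul_zero, add_zero, mul_one] at h1
    exact (continuous_exp.tendsto _).comp h1.neg
  have hsmall : ∀ᶠ n in atTop, q n < 1 / 2 := hq.eventually (gt_mem_nhds (by norm_num))
  refine tendsto_of_tendsto_of_tendsto_of_le_of_le' hlo hup ?_ ?_
  · filter_upwards [hsmall] with n hn
    have hq0 := h0 n
    have h1 : exp (-(q n * (1 + 2 * q n))) ≤ 1 - q n := by
      rw [exp_neg]
      have h2 : 1 + q n * (1 + 2 * q n) ≤ exp (q n * (1 + 2 * q n)) := by
        have := add_one_le_exp (q n * (1 + 2 * q n))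
        linarith
      have h3 : (1 - q n)⁻¹ ≤ exp (q n * (1 + 2 * q n)) := by
        refine le_trans ?_ h2
        rw [inv_le_iff_one_le_mul₀ (by linarith)]
        nlinarith [mul_nonneg hq0 hq0]
      exact inv_le_of_inv_le₀ (by linarith) h3
    have e : exp (-((N n : ℝ) * q n * (1 + 2 * q n))) = exp (-(q n * (1 + 2 * q n))) ^ N n := by
      rw [← exp_nat_mul]
      congr 1
      ring
    rw [e]
    exact pow_le_pow_left₀ (exp_pos _).le h1 _
  · filter_upwards [hsmall] with n hn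
    have h1 : 1 - q n ≤ exp (-q n) := by
      have := add_one_le_exp (-q n)
      linarith
    have e : exp (-((N n : ℝ) * q n)) = exp (-q n) ^ N n := by
      rw [← exp_nat_mul]
      congr 1
      ring
    rw [e]
    exact pow_le_pow_left₀ (by linarith) h1 _

/-- the limit of the main term.
PROOF. `N qq ≤ a²/2 qq → exp (-s)` and `N qq ≥ a²/2 qq - 3 a qq → exp (-s)` (`lam_lim`, `qq_tt`), `qq → 0` (`0 ≤ qq ≤ a qq`); `pow_lim`. -/
theorem main_lim (N : ℕ → ℕ) (hN1 : ∀ a : ℕ, 1 ≤ a → (N a : ℝ) ≤ (a : ℝ) ^ 2 / 2)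
    (hN2 : ∀ a : ℕ, 1 ≤ a → (a : ℝ) ^ 2 / 2 - 3 * a ≤ N a) (s : ℝ) :
    Tendsto (fun a : ℕ => (1 - qq (tt s a)) ^ N a) atTop (𝓝 (exp (-exp (-s)))) := by
  have h1 := lam_lim s
  have h2 := qq_tt s
  have h3 : Tendsto (fun a : ℕ => (a : ℝ) ^ 2 / 2 * qq (tt s a) - 3 * ((a : ℝ) * qq (tt s a))) atTop
      (𝓝 (exp (-s))) := by
    have := h1.sub (h2.const_mul 3)
    rwa [mul_zero, sub_zero] at this
  refine pow_lim (fun a => qq (tt s a)) N (exp (-s)) (fun a => qq_nonneg _) ?_ ?_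
  · refine squeeze_zero' ?_ ?_ h2
    · filter_upwards with a
      exact qq_nonneg _
    · filter_upwards [eventually_ge_atTop 1] with a ha
      have ha0 : (1 : ℝ) ≤ a := by exact_mod_cast ha
      have := qq_nonneg (tt s a)
      nlinarith
  · refine tendsto_of_tendsto_of_tendsto_of_le_of_le' h3 h1 ?_ ?_
    · filter_upwards [eventually_ge_atTop 1] with a ha
      have h4 := mul_le_mul_of_nonneg_right (hN2 a ha) (qq_nonneg (tt s a))
      linarith
    · filter_upwards [eventually_ge_atTop 1] with a ha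
      exact mul_le_mul_of_nonneg_right (hN1 a ha) (qq_nonneg (tt s a))

end Pool.Agent.KZ
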