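import Pool.Agent.KZ.F1
import Pool.Agent.KZ.A2

set_option autoImplicit false
set_option linter.unusedSectionVars false

namespace Pool.Agent.KZ

open MeasureTheory ProbabilityTheory Set Real Filter Topology

/-- PROOF. `tt² /6 = τ²/6 + s + 3 s²/(2 τ²)` (`tt_sq`), `exp (τ²/6) = c1 a²/τ` (`tau_eq`). So (`a ≥ 1`, `tt > 0`)
`a²/2 * qq tt = [tt exp (tt²/6) qq tt] * a²/(2 tt exp (tt²/6)) = [..] * (τ/tt) * exp (-s) * exp (-3 s²/(2 τ²)) / (2 c1)`, and `[..] → 2 c1` (`qq_lim`, `tt_atTop`), `τ/tt → 1`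
(`tt/τ = 1 + 3 s/τ²`), `exp (-3 s²/(2τ²)) → 1`. -/
theorem lam_lim (s : ℝ) :
    Tendsto (fun a : ℕ => (a : ℝ) ^ 2 / 2 * qq (tt s a)) atTop (𝓝 (exp (-s))) := by
  have hτ := tau_atTop
  have hτ2 : Tendsto (fun a : ℕ => tau a ^ 2) atTop atTop := (tendsto_pow_atTop two_ne_zero).comp hτ
  have h1 : Tendsto (fun a : ℕ => tt s a * exp (tt s a ^ 2 / 6) * qq (tt s a)) atTop (𝓝 (2 * c1)) :=
    qq_lim.comp (tt_atTop s)
  have h2 : Tendsto (fun a : ℕ => (1 + 3 * s / tau a ^ 2)⁻¹) atTop (𝓝 ((1 + 0)⁻¹)) :=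
    (tendsto_const_nhds.add (tendsto_const_nhds.div_atTop hτ2)).inv₀ (by norm_num)
  have h3 : Tendsto (fun a : ℕ => exp (-s - 3 * s ^ 2 / 2 / tau a ^ 2)) atTop (𝓝 (exp (-s - 0))) :=
    (continuous_exp.tendsto _).comp (tendsto_const_nhds.sub (tendsto_const_nhds.div_atTop hτ2))
  have h4 := ((h1.mul h2).mul h3).div_const (2 * c1)
  have hc := c1_pos
  have e0 : 2 * c1 * (1 + 0)⁻¹ * exp (-s - 0) / (2 * c1) = exp (-s) := by
    rw [add_zero, inv_one, sub_zero]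
    field_simp
  rw [e0] at h4
  refine h4.congr' ?_
  filter_upwards [eventually_ge_atTop 1, (tt_atTop s).eventually_gt_atTop 0] with a ha ht
  have h5 := tau_eq a ha
  have h6 := tau_pos a
  have e1 : (1 + 3 * s / tau a ^ 2)⁻¹ = tau a / tt s a := by
    have e2 : 1 + 3 * s / tau a ^ 2 = tt s a / tau a := by
      unfold tt
      field_simp
    rw [e2, inv_div]
  have e2 : exp (-s - 3 * s ^ 2 / 2 / tau a ^ 2) = exp (tau a ^ 2 / 6) / exp (tt s a ^ 2 / 6) := by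
    rw [← exp_sub]
    congr 1
    rw [tt_sq]
    field_simp
    ring
  have e3 : (a : ℝ) ^ 2 = tau a * exp (tau a ^ 2 / 6) / c1 := by
    rw [h5]
    field_simp
  rw [e1, e2, e3]
  have h7 := (exp_pos (tt s a ^ 2 / 6)).ne'
  field_simp

/-- PROOF. `a qq = (2/a) (a²/2 qq)`, `lam_lim`. -/
theorem qq_tt (s : ℝ) : Tendsto (fun a : ℕ => (a : ℝ) * qq (tt s a)) atTop (𝓝 0) := by
  have h1 : Tendsto (fun a : ℕ => (2 : ℝ) / a) atTop (𝓝 0) := tendsto_const_div_atTop_nhds_zero_nat 2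
  have h2 := h1.mul (lam_lim s)
  rw [zero_mul] at h2
  refine h2.congr' ?_
  filter_upwards [eventually_ge_atTop 1] with a ha
  have ha0 : (0 : ℝ) < a := by exact_mod_cast ha
  field_simp

end Pool.Agent.KZ
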