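import Pool.Agent.KZ.F1

set_option autoImplicit false
set_option linter.unusedSectionVars false

namespace Pool.Agent.KZ

open MeasureTheory ProbabilityTheory Set Real Filter Topology

theorem f3b_l (a : ℕ) (ha : 130 ≤ a) : 0 < ((a / 130 : ℕ) : ℝ) ∧ (a : ℝ) ≤ 260 * ((a / 130 : ℕ) : ℝ) ∧
    1 ≤ ((a / 130 : ℕ) : ℝ) := by
  have h1 : 1 ≤ a / 130 := by omega
  have h2 : a ≤ 260 * (a / 130) := by omega
  have h3 : (1 : ℝ) ≤ ((a / 130 : ℕ) : ℝ) := by exact_mod_cast h1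
  refine ⟨by linarith, by exact_mod_cast h2, h3⟩

/-- if `X² ≤ c1 * Y²` then `X ≤ (1 + c1) Y` -/
theorem f3b_sq (X Y : ℝ) (hY : 0 ≤ Y) (h : X ^ 2 ≤ c1 * Y ^ 2) :
    X ≤ (1 + c1) * Y := by
  have hc := c1_pos
  apply abs_le_of_sq_le_sq' _ (by positivity) |>.2
  nlinarith [mul_nonneg hc.le (sq_nonneg Y), mul_nonneg (mul_nonneg hc.le hc.le) (sq_nonneg Y), sq_nonneg Y]

/-- the ratio bound at the points `tt s a`, `s ≤ 0`.
PROOF. Take `a ≥ 130` with `τ ≥ 1`; `l = a/130 ≥ a/260` (as reals). `-(τ²/3) ≤ s ≤ 0` gives `tt s a ≥ 0`, `tt ≤ τ` and (`tt_sq`)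
`tt²/6 = τ²/6 + s + 3 s²/(2τ²) ≤ τ²/6 + s/2` (`s² ≤ -s τ²/3`). `a² = τ exp (τ²/6)/c1`. First term:
`(1 + tt) exp (tt²/6)/l² ≤ 260² c1 (1 + τ)/τ exp (s/2) ≤ 2 * 260² c1 exp (s/4)`. Second term: `exp (tt²/12)/l ≤ 260 exp (tt²/12)/a` and
`(exp (tt²/12)/a)² = exp (tt²/6)/a² ≤ c1 exp (s/2)/τ ≤ c1 exp (s/2)`, so it is `≤ 260 √c1 exp (s/4)`. -/
theorem ratio_tt : ∃ C : ℝ, 0 < C ∧ ∀ᶠ a : ℕ in atTop, ∀ s ≤ (0 : ℝ), -(tau a ^ 2 / 3) ≤ s →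
    (1 + max (tt s a) 0) * exp ((max (tt s a) 0) ^ 2 / 6) / ((a / 130 : ℕ) : ℝ) ^ 2 +
      exp ((max (tt s a) 0) ^ 2 / 12) / ((a / 130 : ℕ) : ℝ) ≤ C * exp (s / 4) := by
  have hc := c1_pos
  refine ⟨2 * 260 ^ 2 * c1 + 260 * (1 + c1), by positivity, ?_⟩
  filter_upwards [eventually_ge_atTop 130, tau_atTop.eventually_ge_atTop 1] with a ha hτ s hs hs2
  obtain ⟨hl0, hl1, hl2⟩ := f3b_l a ha
  obtain ⟨l, hl⟩ : ∃ l : ℝ, l = ((a / 130 : ℕ) : ℝ) := ⟨_, rfl⟩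
  rw [← hl] at hl0 hl1 hl2 ⊢
  have ha1 : 1 ≤ a := by omega
  have ha0 : (0 : ℝ) < a := by exact_mod_cast ha1
  have hE := tau_eq a ha1
  have hsq := tt_sq s a
  have hT : tt s a = tau a + 3 * s / tau a := rfl
  generalize tau a = τ at *
  generalize tt s a = t at *
  have hτ0 : 0 < τ := by linarith
  have ht0 : 0 ≤ t := by
    rw [hT]
    have h1 : 3 * s / τ = -(τ * (-(3 * s) / τ ^ 2)) := by field_simp
    have h2 : -(3 * s) / τ ^ 2 ≤ 1 := by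
      rw [div_le_one (by positivity)]
      linarith
    rw [h1]
    nlinarith
  have htτ : t ≤ τ := by
    rw [hT]
    have h1 : 3 * s / τ ≤ 0 := div_nonpos_of_nonpos_of_nonneg (by linarith) hτ0.le
    linarith
  have h6 : t ^ 2 / 6 ≤ τ ^ 2 / 6 + s / 2 := by
    rw [hsq]
    have h1 : 9 * s ^ 2 / τ ^ 2 ≤ -(3 * s) := by
      rw [div_le_iff₀ (by positivity)]
      nlinarith
    linarith
  rw [max_eq_left ht0]
  have hexp : exp (t ^ 2 / 6) ≤ exp (τ ^ 2 / 6) * exp (s / 2) := by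
    rw [← exp_add]
    exact exp_le_exp.2 h6
  have hs24 : exp (s / 2) ≤ exp (s / 4) := exp_le_exp.2 (by linarith)
  have hA : (0 : ℝ) < exp (τ ^ 2 / 6) := exp_pos _
  -- first term
  have e1 : (1 + t) * exp (t ^ 2 / 6) / l ^ 2 ≤ 2 * 260 ^ 2 * c1 * exp (s / 4) := by
    rw [div_le_iff₀ (by positivity)]
    have e2 : (1 + t) * exp (t ^ 2 / 6) ≤ 2 * τ * (exp (τ ^ 2 / 6) * exp (s / 2)) := by
      apply mul_le_mul (by linarith) hexp (exp_pos _).le (by linarith)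
    have e3 : 2 * τ * (exp (τ ^ 2 / 6) * exp (s / 2)) = 2 * c1 * (a : ℝ) ^ 2 * exp (s / 2) := by
      have : 2 * τ * (exp (τ ^ 2 / 6) * exp (s / 2)) = 2 * (τ * exp (τ ^ 2 / 6)) * exp (s / 2) := by ring
      rw [this, hE]
      ring
    have e4 : (a : ℝ) ^ 2 ≤ 260 ^ 2 * l ^ 2 := by
      have := pow_le_pow_left₀ ha0.le hl1 2
      nlinarith
    calc (1 + t) * exp (t ^ 2 / 6) ≤ 2 * c1 * (a : ℝ) ^ 2 * exp (s / 2) := by rw [← e3]; exact e2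
      _ ≤ 2 * c1 * (260 ^ 2 * l ^ 2) * exp (s / 4) := by
        apply mul_le_mul _ hs24 (exp_pos _).le (by positivity)
        apply mul_le_mul_of_nonneg_left e4 (by positivity)
      _ = 2 * 260 ^ 2 * c1 * exp (s / 4) * l ^ 2 := by ring
  -- second term
  have e5 : exp (t ^ 2 / 12) / l ≤ 260 * (1 + c1) * exp (s / 4) := by
    have e6 : (exp (t ^ 2 / 12) / a) ^ 2 ≤ c1 * (exp (s / 4)) ^ 2 := by
      rw [div_pow, div_le_iff₀ (by positivity), ← exp_nat_mul, ← exp_nat_mul]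
      have e7 : ((2 : ℕ) : ℝ) * (t ^ 2 / 12) = t ^ 2 / 6 := by push_cast; ring
      have e8 : ((2 : ℕ) : ℝ) * (s / 4) = s / 2 := by push_cast; ring
      rw [e7, e8]
      have e9 : c1 * exp (s / 2) * (a : ℝ) ^ 2 = τ * (exp (τ ^ 2 / 6) * exp (s / 2)) := by
        have : c1 * exp (s / 2) * (a : ℝ) ^ 2 = (c1 * (a : ℝ) ^ 2) * exp (s / 2) := by ring
        rw [this, ← hE]
        ring
      rw [e9]
      have e10 : 0 < exp (τ ^ 2 / 6) * exp (s / 2) := by positivity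
      nlinarith
    have e7 := f3b_sq _ _ (exp_pos (s / 4)).le e6
    rw [div_le_iff₀ hl0]
    rw [div_le_iff₀ ha0] at e7
    have e8 : 0 < exp (s / 4) := exp_pos _
    calc exp (t ^ 2 / 12) ≤ (1 + c1) * exp (s / 4) * a := e7
      _ ≤ (1 + c1) * exp (s / 4) * (260 * l) := by
        apply mul_le_mul_of_nonneg_left hl1 (by positivity)
      _ = 260 * (1 + c1) * exp (s / 4) * l := by ring
  have e11 : (2 * 260 ^ 2 * c1 + 260 * (1 + c1)) * exp (s / 4) =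
      2 * 260 ^ 2 * c1 * exp (s / 4) + 260 * (1 + c1) * exp (s / 4) := by ring
  linarith

/-- PROOF. `s < -τ²/3` gives `tt s a < 0`, `max = 0`: the sum is `1/l² + 1/l ≤ 2/l ≤ 520/a`, and `(1/a)² = c1/(τ exp (τ²/6)) ≤ c1 exp (-τ²/6)` (`τ ≥ 1`), so `1/a ≤ √c1 exp (-τ²/12)`. -/
theorem ratio_neg : ∃ C : ℝ, 0 < C ∧ ∀ᶠ a : ℕ in atTop, ∀ s < -(tau a ^ 2 / 3),
    (1 + max (tt s a) 0) * exp ((max (tt s a) 0) ^ 2 / 6) / ((a / 130 : ℕ) : ℝ) ^ 2 +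
      exp ((max (tt s a) 0) ^ 2 / 12) / ((a / 130 : ℕ) : ℝ) ≤ C * exp (-tau a ^ 2 / 12) := by
  have hc := c1_pos
  refine ⟨520 * (1 + c1), by positivity, ?_⟩
  filter_upwards [eventually_ge_atTop 130, tau_atTop.eventually_ge_atTop 1] with a ha hτ s hs
  obtain ⟨hl0, hl1, hl2⟩ := f3b_l a ha
  obtain ⟨l, hl⟩ : ∃ l : ℝ, l = ((a / 130 : ℕ) : ℝ) := ⟨_, rfl⟩
  rw [← hl] at hl0 hl1 hl2 ⊢
  have ha1 : 1 ≤ a := by omega
  have ha0 : (0 : ℝ) < a := by exact_mod_cast ha1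
  have hE := tau_eq a ha1
  have hT : tt s a = tau a + 3 * s / tau a := rfl
  generalize tau a = τ at *
  generalize tt s a = t at *
  have hτ0 : 0 < τ := by linarith
  have ht0 : t ≤ 0 := by
    rw [hT]
    have h1 : 3 * s / τ = -(τ * (-(3 * s) / τ ^ 2)) := by field_simp
    have h2 : 1 ≤ -(3 * s) / τ ^ 2 := by
      rw [le_div_iff₀ (by positivity)]
      linarith
    rw [h1]
    nlinarith
  rw [max_eq_right ht0]
  have e1 : (1 + (0 : ℝ)) * exp ((0 : ℝ) ^ 2 / 6) / l ^ 2 ≤ 1 / l := by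
    have : (1 + (0 : ℝ)) * exp ((0 : ℝ) ^ 2 / 6) = 1 := by simp
    rw [this]
    apply one_div_le_one_div_of_le hl0
    nlinarith
  have e2 : exp ((0 : ℝ) ^ 2 / 12) / l = 1 / l := by simp
  have e3 : 1 / l ≤ 260 * (1 / (a : ℝ)) := by
    rw [mul_one_div, div_le_div_iff₀ hl0 ha0]
    linarith
  have e4 : (1 / (a : ℝ)) ^ 2 ≤ c1 * (exp (-τ ^ 2 / 12)) ^ 2 := by
    rw [div_pow, one_pow, div_le_iff₀ (by positivity), ← exp_nat_mul]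
    have e5 : ((2 : ℕ) : ℝ) * (-τ ^ 2 / 12) = -(τ ^ 2 / 6) := by push_cast; ring
    rw [e5]
    have e6 : c1 * exp (-(τ ^ 2 / 6)) * (a : ℝ) ^ 2 = (c1 * (a : ℝ) ^ 2) * exp (-(τ ^ 2 / 6)) := by ring
    rw [e6, ← hE, mul_assoc, ← exp_add]
    have e7 : τ ^ 2 / 6 + -(τ ^ 2 / 6) = 0 := by ring
    rw [e7, exp_zero]
    linarith
  have e5 := f3b_sq _ _ (exp_pos _).le e4
  rw [e2]
  calc (1 + (0 : ℝ)) * exp ((0 : ℝ) ^ 2 / 6) / l ^ 2 + 1 / l ≤ 1 / l + 1 / l := by linarith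
    _ ≤ 520 * (1 / (a : ℝ)) := by linarith
    _ ≤ 520 * (1 + c1) * exp (-τ ^ 2 / 12) := by nlinarith

end Pool.Agent.KZ
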