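import Pool.Agent.KZ.F3a
import Pool.Agent.KZ.F3b

set_option autoImplicit false
set_option linter.unusedSectionVars false

namespace Pool.Agent.KZ

open MeasureTheory ProbabilityTheory Set Real Filter Topology

/-- domination.
PROOF. Let `C₁`, `C₂` be the constants of `ratio_tt`, `ratio_neg`, `a` large (`a ≥ 130`, so `l = a/130 > 0`, `130 l ≤ a`), `C = max 1 (max ((5000 C₁)^16) ((5000 C₂)^16))`, and use
`-3 s - 9 s²/(2τ²) ≤ -3 s`. `s ≥ 0`: `P ≤ 1`, `exp (-3s) ≤ exp (-s)`. `-(τ²/3) ≤ s ≤ 0`: `P ≤ (5000 C₁ exp (s/4))^16 = (5000 C₁)^16 exp (4 s)` (`ratio_bound`, `ratio_tt`, `pow_le_pow_left₀`), times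
`exp (-3 s)` is `(..) exp s = (..) exp (-|s|)`. `s < -τ²/3`: `P ≤ (5000 C₂)^16 exp (-4τ²/3)` and
`-4τ²/3 - 3 s - 9 s²/(2τ²) ≤ s` because `4 x - 9 x²/(2τ²) ≤ 8τ²/9 ≤ 4τ²/3` for `x = -s`. -/
theorem dom (P : ℕ → ℝ → ℝ) (h0 : ∀ a t, 0 ≤ P a t) (h1 : ∀ a t, P a t ≤ 1)
    (hdom : ∀ a l : ℕ, 0 < l → 130 * l ≤ a → ∀ t : ℝ,
      P a t ≤ (1 / ((l : ℝ) ^ 2 * qq t) + 3 * rr t / (l * qq t ^ 2)) ^ 16) :
    ∃ C : ℝ, ∀ᶠ a : ℕ in atTop, ∀ s : ℝ,
      P a (tt s a) * exp (-3 * s - 9 * s ^ 2 / (2 * tau a ^ 2)) ≤ C * exp (-|s|) := by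
  obtain ⟨C1, hC1, hr1⟩ := ratio_tt
  obtain ⟨C2, hC2, hr2⟩ := ratio_neg
  refine ⟨1 + (5000 * C1) ^ 16 + (5000 * C2) ^ 16, ?_⟩
  filter_upwards [eventually_ge_atTop 130, hr1, hr2] with a ha hb1 hb2 s
  have hl : 0 < a / 130 := by omega
  have hl2 : 130 * (a / 130) ≤ a := by omega
  have hl0 : (0 : ℝ) < ((a / 130 : ℕ) : ℝ) := by exact_mod_cast hl
  have hP := hdom a (a / 130) hl hl2 (tt s a)
  have hq := ratio_bound (a / 130) hl (tt s a)
  have hτ0 := tau_pos a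
  have hb1' := hb1 s
  have hb2' := hb2 s
  clear hb1 hb2
  have hA1 : (0 : ℝ) < (5000 * C1) ^ 16 := by positivity
  have hA2 : (0 : ℝ) < (5000 * C2) ^ 16 := by positivity
  have hrr : 0 ≤ rr (tt s a) := by
    unfold rr
    split_ifs
    · norm_num
    · positivity
  have hR0 : 0 ≤ 1 / (((a / 130 : ℕ) : ℝ) ^ 2 * qq (tt s a)) +
      3 * rr (tt s a) / (((a / 130 : ℕ) : ℝ) * qq (tt s a) ^ 2) := by
    have := qq_nonneg (tt s a)
    positivity
  have hxx : 9 * s ^ 2 / (2 * tau a ^ 2) = (9 / 2) * (s ^ 2 / tau a ^ 2) := by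
    field_simp
  have hxp : 0 ≤ s ^ 2 / tau a ^ 2 := by positivity
  -- the general step
  have key : ∀ (C w : ℝ), 0 < C → 
      1 / (((a / 130 : ℕ) : ℝ) ^ 2 * qq (tt s a)) +
      3 * rr (tt s a) / (((a / 130 : ℕ) : ℝ) * qq (tt s a) ^ 2) ≤ 5000 * (C * exp w) →
      16 * w - 3 * s - 9 * s ^ 2 / (2 * tau a ^ 2) ≤ -|s| →
      P a (tt s a) * exp (-3 * s - 9 * s ^ 2 / (2 * tau a ^ 2)) ≤ (5000 * C) ^ 16 * exp (-|s|) := by
    intro C w hC hk1 hk2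
    have h3 : P a (tt s a) ≤ (5000 * C) ^ 16 * exp (16 * w) := by
      refine hP.trans ((pow_le_pow_left₀ hR0 hk1 16).trans ?_)
      have : 5000 * (C * exp w) = (5000 * C) * exp w := by ring
      rw [this, mul_pow, ← exp_nat_mul]
      have e1 : ((16 : ℕ) : ℝ) * w = 16 * w := by norm_num
      rw [e1]
    calc P a (tt s a) * exp (-3 * s - 9 * s ^ 2 / (2 * tau a ^ 2))
        ≤ ((5000 * C) ^ 16 * exp (16 * w)) * exp (-3 * s - 9 * s ^ 2 / (2 * tau a ^ 2)) :=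
          mul_le_mul_of_nonneg_right h3 (exp_pos _).le
      _ = (5000 * C) ^ 16 * exp (16 * w - 3 * s - 9 * s ^ 2 / (2 * tau a ^ 2)) := by
          rw [mul_assoc, ← exp_add]
          ring_nf
      _ ≤ (5000 * C) ^ 16 * exp (-|s|) := by
          apply mul_le_mul_of_nonneg_left (exp_le_exp.2 hk2) (by positivity)
  have hfin : ∀ D : ℝ, D ≤ 1 + (5000 * C1) ^ 16 + (5000 * C2) ^ 16 →
      P a (tt s a) * exp (-3 * s - 9 * s ^ 2 / (2 * tau a ^ 2)) ≤ D * exp (-|s|) →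
      P a (tt s a) * exp (-3 * s - 9 * s ^ 2 / (2 * tau a ^ 2)) ≤
        (1 + (5000 * C1) ^ 16 + (5000 * C2) ^ 16) * exp (-|s|) := by
    intro D hD hk
    exact hk.trans (mul_le_mul_of_nonneg_right hD (exp_pos _).le)
  rcases le_or_gt 0 s with hs | hs
  · apply hfin 1 (by linarith)
    have h3 : exp (-3 * s - 9 * s ^ 2 / (2 * tau a ^ 2)) ≤ exp (-|s|) := by
      apply exp_le_exp.2
      rw [abs_of_nonneg hs, hxx]
      linarith
    calc P a (tt s a) * exp (-3 * s - 9 * s ^ 2 / (2 * tau a ^ 2))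
        ≤ 1 * exp (-3 * s - 9 * s ^ 2 / (2 * tau a ^ 2)) :=
          mul_le_mul_of_nonneg_right (h1 _ _) (exp_pos _).le
      _ ≤ 1 * exp (-|s|) := by linarith
  · rcases le_or_gt (-(tau a ^ 2 / 3)) s with hs2 | hs2
    · apply hfin _ (by linarith) (key C1 (s / 4) hC1 (hq.trans ?_) ?_)
      · exact mul_le_mul_of_nonneg_left (hb1' hs.le hs2) (by norm_num)
      · rw [abs_of_neg hs, hxx]
        linarith
    · apply hfin _ (by linarith) (key C2 (-tau a ^ 2 / 12) hC2 (hq.trans ?_) ?_)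
      · exact mul_le_mul_of_nonneg_left (hb2' hs2) (by norm_num)
      · rw [abs_of_neg hs, hxx]
        obtain ⟨z, hz⟩ : ∃ z, z = s / tau a ^ 2 := ⟨_, rfl⟩
        have h4 : s = z * tau a ^ 2 := by
          rw [hz]
          field_simp
        have h5 : s ^ 2 / tau a ^ 2 = z ^ 2 * tau a ^ 2 := by
          rw [h4]
          field_simp
        rw [h5, h4]
        have h6 : 0 < tau a ^ 2 := by positivity
        have h7 : 0 ≤ tau a ^ 2 * (4 / 3 + 4 * z + 9 / 2 * z ^ 2) := by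
          apply mul_nonneg h6.le
          nlinarith [sq_nonneg (z + 4 / 9)]
        nlinarith

end Pool.Agent.KZ
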