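import Pool.Agent.KZ.A2
import Pool.Agent.KZ.E3d

set_option autoImplicit false
set_option linter.unusedSectionVars false

namespace Pool.Agent.KZ

open MeasureTheory ProbabilityTheory Set Real Filter Topology

theorem f3a_gen (l q q0 r A B : ℝ) (hl : 0 < l) (hq0 : 0 < q0) (hq : q0 ≤ q) (hr : 0 ≤ r)
    (hA : 1 ≤ 5000 * A * q0) (hB : 3 * r ≤ 5000 * B * q0 ^ 2) :
    1 / (l ^ 2 * q) + 3 * r / (l * q ^ 2) ≤ 5000 * (A / l ^ 2 + B / l) := by
  have hq1 : 0 < q := lt_of_lt_of_le hq0 hq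
  have h1 : 1 / (l ^ 2 * q) ≤ 5000 * A / l ^ 2 := by
    have h2 : 1 / (l ^ 2 * q) ≤ 1 / (l ^ 2 * q0) := by
      apply one_div_le_one_div_of_le (by positivity)
      apply mul_le_mul_of_nonneg_left hq (by positivity)
    refine h2.trans ?_
    rw [div_le_div_iff₀ (by positivity) (by positivity)]
    have h3 : 0 < l ^ 2 := by positivity
    nlinarith
  have h2 : 3 * r / (l * q ^ 2) ≤ 5000 * B / l := by
    have h3 : 3 * r / (l * q ^ 2) ≤ 3 * r / (l * q0 ^ 2) := by
      apply div_le_div_of_nonneg_left (by positivity) (by positivity)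
      apply mul_le_mul_of_nonneg_left _ hl.le
      exact pow_le_pow_left₀ hq0.le hq 2
    refine h3.trans ?_
    rw [div_le_div_iff₀ (by positivity) (by positivity)]
    nlinarith
  have h3 : 5000 * (A / l ^ 2 + B / l) = 5000 * A / l ^ 2 + 5000 * B / l := by ring
  linarith

/-- the ratio bound, in elementary terms.
PROOF. `t ≤ 0` (`max t 0 = 0`): `qq t ≥ 1/2`, `rr t = 1`: `1/(l² qq) ≤ 2/l²`, `3/(l qq²) ≤ 12/l`. `t > 0`: `qq t ≥ exp (-t²/6)/(12 (1+t))` (`qq_low`):
`1/(l² qq) ≤ 12 (1+t) exp (t²/6)/l²`, `3 rr/(l qq²) ≤ 432 rr (1+t)² exp (t²/3)/l`; for `t ≤ 1`: `(1+t)² ≤ 4`, `rr = 1`, `exp (t²/3) = exp (t²/12) exp (t²/4) ≤ exp (t²/12) * exp (1/4)`, `exp (1/4) ≤ 2`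
: `≤ 3456 exp (t²/12)/l`; for `t > 1`: `rr = exp (-t²/4)/t²`, `(1+t)²/t² ≤ 4`: `≤ 1728 exp (t²/12)/l`. -/
theorem ratio_bound (l : ℕ) (hl : 0 < l) (t : ℝ) :
    1 / ((l : ℝ) ^ 2 * qq t) + 3 * rr t / (l * qq t ^ 2) ≤
      5000 * ((1 + max t 0) * exp ((max t 0) ^ 2 / 6) / (l : ℝ) ^ 2 + exp ((max t 0) ^ 2 / 12) / l) := by
  have hl0 : (0 : ℝ) < l := by exact_mod_cast hl
  rcases le_or_gt t 0 with ht | ht
  · rw [max_eq_right ht]
    have h1 := qq_half t ht
    have h2 : rr t = 1 := by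
      unfold rr
      rw [if_pos (by linarith)]
    rw [h2]
    apply f3a_gen (l : ℝ) (qq t) (1 / 2) 1 _ _ hl0 (by norm_num) h1 (by norm_num)
    · norm_num
    · norm_num
  · rw [max_eq_left ht.le]
    have h1 := qq_low t ht.le
    have he : exp (-t ^ 2 / 6) * exp (t ^ 2 / 6) = 1 := by
      rw [← exp_add]
      have : -t ^ 2 / 6 + t ^ 2 / 6 = 0 := by ring
      rw [this, exp_zero]
    have h1t : 0 < 1 + t := by linarith
    have hr : 0 ≤ rr t := by
      unfold rr
      split_ifs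
      · norm_num
      · positivity
    apply f3a_gen (l : ℝ) (qq t) _ (rr t) _ _ hl0 (by positivity) h1 hr
    · have h2 : 5000 * ((1 + t) * exp (t ^ 2 / 6)) * (exp (-t ^ 2 / 6) / (12 * (1 + t))) =
          5000 / 12 * (exp (-t ^ 2 / 6) * exp (t ^ 2 / 6)) := by
        field_simp
      rw [h2, he]
      norm_num
    · have e1 : (exp (-t ^ 2 / 6) / (12 * (1 + t))) ^ 2 = exp (-t ^ 2 / 3) / (144 * (1 + t) ^ 2) := by
        rw [div_pow, ← exp_nat_mul]
        have e2 : ((2 : ℕ) : ℝ) * (-t ^ 2 / 6) = -t ^ 2 / 3 := by push_cast; ring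
        rw [e2]
        ring
      rw [e1]
      have e3 : 5000 * exp (t ^ 2 / 12) * (exp (-t ^ 2 / 3) / (144 * (1 + t) ^ 2)) =
          5000 * exp (-t ^ 2 / 4) / (144 * (1 + t) ^ 2) := by
        have e4 : exp (t ^ 2 / 12) * exp (-t ^ 2 / 3) = exp (-t ^ 2 / 4) := by
          rw [← exp_add]
          ring_nf
        rw [← e4]
        ring
      rw [e3, le_div_iff₀ (by positivity)]
      have hE := exp_pos (-t ^ 2 / 4)
      rcases le_or_gt t 1 with h3 | h3
      · have h4 : rr t = 1 := by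
          unfold rr
          rw [if_pos h3]
        rw [h4]
        have h5 : (1 / 2 : ℝ) ≤ exp (-t ^ 2 / 4) := by
          have h6 := add_one_le_exp (-t ^ 2 / 4)
          nlinarith
        nlinarith
      · have h4 : rr t = exp (-t ^ 2 / 4) / t ^ 2 := by
          unfold rr
          rw [if_neg (by linarith)]
        rw [h4]
        have h5 : 3 * (exp (-t ^ 2 / 4) / t ^ 2) * (144 * (1 + t) ^ 2) =
            exp (-t ^ 2 / 4) * (432 * (1 + t) ^ 2 / t ^ 2) := by
          field_simp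
          ring
        rw [h5]
        have h6 : 432 * (1 + t) ^ 2 / t ^ 2 ≤ 5000 := by
          rw [div_le_iff₀ (by positivity)]
          nlinarith
        nlinarith

end Pool.Agent.KZ
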