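import Pool.Agent.KZ.Base

set_option autoImplicit false
set_option linter.unusedSectionVars false

namespace Pool.Agent.KZ

open MeasureTheory ProbabilityTheory Set Real Filter Topology

/-- PROOF. `integrable_exp_neg_abs`-type lemma, or integrable on `Iic 0` and `Ioi 0`. -/
theorem exp_abs_int : Integrable (fun s : ℝ => exp (-|s|)) := by
  have h1 : IntegrableOn (fun s : ℝ => exp (-|s|)) (Iic 0) := by
    refine (integrableOn_exp_Iic 0).congr_fun (fun s hs => ?_) measurableSet_Iic
    have hs' : s ≤ 0 := hs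
    show exp s = exp (-|s|)
    rw [abs_of_nonpos hs', neg_neg]
  have h2 : IntegrableOn (fun s : ℝ => exp (-|s|)) (Ioi 0) := by
    refine (exp_neg_integrableOn_Ioi 0 one_pos).congr_fun (fun s hs => ?_) measurableSet_Ioi
    have hs' : 0 < s := hs
    show exp (-1 * s) = exp (-|s|)
    rw [abs_of_pos hs', neg_one_mul]
  rw [← integrableOn_univ, ← Iic_union_Ioi (a := (0 : ℝ))]
  exact h1.union h2

theorem f4b_bound (s : ℝ) : exp (-exp (-s)) * exp (-3 * s) ≤ 24 * exp (-|s|) := by
  rcases le_total 0 s with h | h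
  · rw [abs_of_nonneg h]
    have h1 : exp (-exp (-s)) ≤ 1 := exp_le_one_iff.2 (by have := exp_pos (-s); linarith)
    have h2 : exp (-3 * s) ≤ exp (-s) := exp_le_exp.2 (by linarith)
    calc exp (-exp (-s)) * exp (-3 * s) ≤ 1 * exp (-s) :=
          mul_le_mul h1 h2 (exp_pos _).le zero_le_one
      _ ≤ 24 * exp (-s) := by
          have := exp_pos (-s)
          linarith
  · rw [abs_of_nonpos h, neg_neg]
    set x := exp (-s) with hx
    have hx0 : 0 < x := exp_pos _
    have e1 : exp (-3 * s) = x ^ 3 := by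
      rw [hx, ← exp_nat_mul]
      congr 1
      push_cast
      ring
    have e2 : exp s = x⁻¹ := by rw [hx, exp_neg, inv_inv]
    have h1 : x ^ 4 / 24 ≤ exp x := by
      have := pow_div_factorial_le_exp x hx0.le 4
      have h4 : ((Nat.factorial 4 : ℕ) : ℝ) = 24 := by norm_num [Nat.factorial]
      rw [h4] at this
      exact this
    rw [e1, e2, exp_neg, ← div_eq_inv_mul, div_le_iff₀ (exp_pos x)]
    calc x ^ 3 = 24 * x⁻¹ * (x ^ 4 / 24) := by field_simp
      _ ≤ 24 * x⁻¹ * exp x := mul_le_mul_of_nonneg_left h1 (by positivity)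

/-- the limiting integral.
PROOF. With `x = exp (-s)`: the antiderivative in `s` is `F s = exp (-x) (x² + 2 x + 2)` (`dF/ds = -x dF/dx = x³ exp (-x)`, and `exp (-3s) = x³`), `F → 2` for `s → ∞` (`x → 0`) and
`F → 0` for `s → -∞` (`x → ∞`). `integral_of_hasDerivAt_of_tendsto`; integrability: the derivative is nonnegative
(`integrable_of_hasDerivAt_of_tendsto`-type lemma / `integrableOn_Ioi_deriv_of_nonneg`, `integrableOn_Iic_deriv..`, `IntegrableOn.union`). -/
theorem gamma3 : ∫ s : ℝ, exp (-exp (-s)) * exp (-3 * s) = 2 := by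
  have hder : ∀ s : ℝ, HasDerivAt (fun s : ℝ => exp (-exp (-s)) * (exp (-s) ^ 2 + 2 * exp (-s) + 2))
      (exp (-exp (-s)) * exp (-3 * s)) s := by
    intro s
    have h1 : HasDerivAt (fun s : ℝ => exp (-s)) (-exp (-s)) s := by
      have := (hasDerivAt_neg s).exp
      simpa using this
    have h2 : HasDerivAt (fun s : ℝ => exp (-exp (-s))) (exp (-exp (-s)) * exp (-s)) s := by
      have := h1.neg.exp
      simpa using this
    have h3 : HasDerivAt (fun s : ℝ => exp (-s) ^ 2 + 2 * exp (-s) + 2)
        (2 * exp (-s) * (-exp (-s)) + 2 * (-exp (-s))) s := by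
      have := ((h1.pow 2).add (h1.const_mul 2)).add_const 2
      simpa using this
    have h4 := h2.mul h3
    refine h4.congr_deriv ?_
    have e1 : exp (-3 * s) = exp (-s) ^ 3 := by
      rw [← exp_nat_mul]
      congr 1
      push_cast
      ring
    rw [e1]
    ring
  have hint : Integrable (fun s : ℝ => exp (-exp (-s)) * exp (-3 * s)) := by
    refine (exp_abs_int.const_mul 24).mono' ?_ ?_
    · fun_prop
    · refine Eventually.of_forall fun s => ?_
      rw [Real.norm_eq_abs, abs_of_nonneg (by positivity)]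
      exact f4b_bound s
  have htop : Tendsto (fun s : ℝ => exp (-exp (-s)) * (exp (-s) ^ 2 + 2 * exp (-s) + 2)) atTop
      (𝓝 2) := by
    have h1 : Tendsto (fun s : ℝ => exp (-s)) atTop (𝓝 0) :=
      tendsto_exp_neg_atTop_nhds_zero
    have h2 : Tendsto (fun s : ℝ => exp (-exp (-s)) * (exp (-s) ^ 2 + 2 * exp (-s) + 2)) atTop
        (𝓝 (exp (-0) * (0 ^ 2 + 2 * 0 + 2))) :=
      ((continuous_exp.tendsto _).comp h1.neg).mul (((h1.pow 2).add (h1.const_mul 2)).add_const 2)
    simpa using h2
  have hbot : Tendsto (fun s : ℝ => exp (-exp (-s)) * (exp (-s) ^ 2 + 2 * exp (-s) + 2)) atBot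
      (𝓝 0) := by
    have h1 : Tendsto (fun s : ℝ => exp (-s)) atBot atTop :=
      tendsto_exp_atTop.comp tendsto_neg_atBot_atTop
    have h2 : Tendsto (fun x : ℝ => exp (-x) * (x ^ 2 + 2 * x + 2)) atTop (𝓝 0) := by
      have k2 := tendsto_pow_mul_exp_neg_atTop_nhds_zero 2
      have k1 := tendsto_pow_mul_exp_neg_atTop_nhds_zero 1
      have k0 := tendsto_pow_mul_exp_neg_atTop_nhds_zero 0
      have k := (k2.add (k1.const_mul 2)).add (k0.const_mul 2)
      rw [mul_zero, add_zero, add_zero] at k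
      refine k.congr fun x => ?_
      ring
    exact h2.comp h1
  rw [integral_of_hasDerivAt_of_tendsto hder hint hbot htop, sub_zero]

end Pool.Agent.KZ
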