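import Pool.Agent.KZ.F4a
import Pool.Agent.KZ.F4b

set_option autoImplicit false
set_option linter.unusedSectionVars false

namespace Pool.Agent.KZ

open MeasureTheory ProbabilityTheory Set Real Filter Topology



end Pool.Agent.KZ
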