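import Pool.Agent.KZ.F1

set_option autoImplicit false
set_option linter.unusedSectionVars false

namespace Pool.Agent.KZ

open MeasureTheory ProbabilityTheory Set Real Filter Topology

/-- change of variables `t = τ + 3 s / τ`.
PROOF. `∫ f(t) dt = ∫ f(τ + u) du = (3/τ) ∫ f(τ + (3/τ) s) ds` (`integral_add_left_eq_self`, `Measure.integral_comp_mul_left`; no integrability needed), with
`tt² /2 = τ²/2 + 3 s + 9 s²/(2τ²)` (`tt_sq`), constants pulled out (`integral_const_mul`). -/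
theorem subst (P : ℝ → ℝ) (a : ℕ) :
    ∫ t : ℝ, P t * (exp (-t ^ 2 / 2) / √(2 * π)) =
      3 / (tau a * √(2 * π)) * exp (-tau a ^ 2 / 2) *
        ∫ s : ℝ, P (tt s a) * exp (-3 * s - 9 * s ^ 2 / (2 * tau a ^ 2)) := by
  have hτ := tau_pos a
  have h1 : ∫ t : ℝ, P t * (exp (-t ^ 2 / 2) / √(2 * π)) =
      ∫ u : ℝ, P (tau a + u) * (exp (-(tau a + u) ^ 2 / 2) / √(2 * π)) :=
    (integral_add_left_eq_self (fun t : ℝ => P t * (exp (-t ^ 2 / 2) / √(2 * π))) (tau a)).symm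
  have h2 := Measure.integral_comp_mul_left
    (fun u : ℝ => P (tau a + u) * (exp (-(tau a + u) ^ 2 / 2) / √(2 * π))) (3 / tau a)
  have h3 : |(3 / tau a)⁻¹| = (3 / tau a)⁻¹ := abs_of_pos (by positivity)
  rw [h3, smul_eq_mul] at h2
  have h4 : ∫ u : ℝ, P (tau a + u) * (exp (-(tau a + u) ^ 2 / 2) / √(2 * π)) =
      3 / tau a * ∫ s : ℝ, P (tau a + 3 / tau a * s) *
        (exp (-(tau a + 3 / tau a * s) ^ 2 / 2) / √(2 * π)) := by
    rw [h2]
    field_simp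
  rw [h1, h4]
  have h5 : (fun s : ℝ => P (tau a + 3 / tau a * s) *
        (exp (-(tau a + 3 / tau a * s) ^ 2 / 2) / √(2 * π))) =
      fun s : ℝ => (exp (-tau a ^ 2 / 2) / √(2 * π)) *
        (P (tt s a) * exp (-3 * s - 9 * s ^ 2 / (2 * tau a ^ 2))) := by
    funext s
    have e1 : tau a + 3 / tau a * s = tt s a := by
      unfold tt
      ring
    rw [e1, tt_sq]
    have e2 : -(tau a ^ 2 + 6 * s + 9 * s ^ 2 / tau a ^ 2) / 2 =
        -tau a ^ 2 / 2 + (-3 * s - 9 * s ^ 2 / (2 * tau a ^ 2)) := by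
      field_simp
      ring
    rw [e2, exp_add]
    ring
  rw [h5, integral_const_mul]
  generalize (∫ s : ℝ, P (tt s a) * exp (-3 * s - 9 * s ^ 2 / (2 * tau a ^ 2))) = J
  have hp2 : 0 < √(2 * π) := Real.sqrt_pos.2 (by positivity)
  field_simp

/-- the constant.
PROOF. `a⁶ = (τ exp (τ²/6)/c1)³ = τ³ exp (τ²/2)/c1³` (`tau_eq`, `a ≥ 1`), so the expression is `3/(√(2π) c1³) * τ²/log a → 36/(√(2π) c1³)` (`tau_log`), and
`c1³ = 3√3/(8 (2π)^{3/2})`: `36 * 8 * (2π)^{3/2}/(3√3 √(2π)) = 96 * 2π/√3 = 64 √3 π`. -/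
theorem const_lim : Tendsto (fun a : ℕ => 3 / (tau a * √(2 * π)) * exp (-tau a ^ 2 / 2) *
    (a : ℝ) ^ 6 / log a) atTop (𝓝 (64 * √3 * π)) := by
  have h := tau_log.const_mul (3 / (√(2 * π) * c1 ^ 3))
  have hc := c1_pos
  have e : 3 / (√(2 * π) * c1 ^ 3) * 12 = 64 * √3 * π := by
    have hs2 : √(2 * π) ^ 2 = 2 * π := Real.sq_sqrt (by positivity)
    have hs3 : √3 ^ 2 = (3 : ℝ) := Real.sq_sqrt (by norm_num)
    have hp2 : 0 < √(2 * π) := Real.sqrt_pos.2 (by positivity)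
    have hp3 : 0 < √(3 : ℝ) := Real.sqrt_pos.2 (by norm_num)
    have e1 : c1 ^ 3 = √3 ^ 3 / (8 * √(2 * π) ^ 3) := by
      unfold c1
      rw [div_pow, mul_pow]
      norm_num
    rw [e1]
    have e2 : 3 / (√(2 * π) * (√3 ^ 3 / (8 * √(2 * π) ^ 3))) * 12 =
        288 * √(2 * π) ^ 2 / (√3 ^ 2 * √3) := by
      field_simp
      ring
    rw [e2, hs2, hs3, div_eq_iff (by positivity)]
    have e3 : 64 * √3 * π * (3 * √3) = 192 * π * √3 ^ 2 := by ring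
    rw [e3, hs3]
    ring
  rw [e] at h
  refine h.congr' ?_
  filter_upwards [eventually_ge_atTop 1] with a ha
  have hτ := tau_pos a
  have h1 := tau_eq a ha
  have h2 : (a : ℝ) ^ 6 = (tau a * exp (tau a ^ 2 / 6) / c1) ^ 3 := by
    rw [h1]
    field_simp
  have h3 : exp (tau a ^ 2 / 6) ^ 3 = exp (tau a ^ 2 / 2) := by
    rw [← exp_nat_mul]
    congr 1
    push_cast
    ring
  have h4 : exp (-tau a ^ 2 / 2) * exp (tau a ^ 2 / 2) = 1 := by
    rw [← exp_add]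
    have : -tau a ^ 2 / 2 + tau a ^ 2 / 2 = 0 := by ring
    rw [this, exp_zero]
  have h5 : (a : ℝ) ^ 6 = tau a ^ 3 * exp (tau a ^ 2 / 2) / c1 ^ 3 := by
    rw [h2, div_pow, mul_pow, h3]
  rw [h5]
  have h6 : 3 / (tau a * √(2 * π)) * exp (-tau a ^ 2 / 2) *
      (tau a ^ 3 * exp (tau a ^ 2 / 2) / c1 ^ 3) =
      3 / (√(2 * π) * c1 ^ 3) * tau a ^ 2 * (exp (-tau a ^ 2 / 2) * exp (tau a ^ 2 / 2)) := by
    field_simp
  rw [h6, h4, mul_one]
  ring

end Pool.Agent.KZ
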