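import Pool.Agent.KZ.F2
import Pool.Agent.KZ.E1
import Pool.Agent.KZ.F3
import Pool.Agent.KZ.F4
import Pool.Agent.KZ.E2
import Pool.Agent.KZ.E3
import Pool.Agent.KZ.E4

set_option autoImplicit false

namespace Pool.Agent.KZ

open MeasureTheory ProbabilityTheory Set Real Filter Topology

/-- the analytic part -/
theorem analysis (P : ℕ → ℝ → ℝ) (N : ℕ → ℕ) (hm : ∀ a, Measurable (P a))
    (h0 : ∀ a t, 0 ≤ P a t) (h1 : ∀ a t, P a t ≤ 1)
    (hN1 : ∀ a : ℕ, 1 ≤ a → (N a : ℝ) ≤ (a : ℝ) ^ 2 / 2)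
    (hN2 : ∀ a : ℕ, 1 ≤ a → (a : ℝ) ^ 2 / 2 - 3 * a ≤ N a)
    (happ : ∀ a : ℕ, 1 ≤ a → ∀ t : ℝ, 0 < t → |P a t - (1 - qq t) ^ N a| ≤
      9 * (a : ℝ) ^ 3 * (exp (-t ^ 2 / 4) / t ^ 2 + 2 * exp (-t ^ 2 / 3)) +
        2 * a * exp (-t ^ 2 / 10))
    (hdom : ∀ a l : ℕ, 0 < l → 130 * l ≤ a → ∀ t : ℝ,
      P a t ≤ (1 / ((l : ℝ) ^ 2 * qq t) + 3 * rr t / (l * qq t ^ 2)) ^ 16) :
    Tendsto (fun a : ℕ => (∫ t : ℝ, P a t * (exp (-t ^ 2 / 2) / √(2 * π))) * (a : ℝ) ^ 6 / log a)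
      atTop (𝓝 (128 * √3 * π)) := by
  obtain ⟨C, hC⟩ := dom P h0 h1 hdom
  have hpt : ∀ s : ℝ, Tendsto (fun a : ℕ => P a (tt s a)) atTop (𝓝 (exp (-exp (-s)))) := by
    intro s
    have hmain := main_lim N hN1 hN2 s
    have herr : Tendsto (fun a : ℕ => 9 * ((a : ℝ) ^ 3 * (exp (-tt s a ^ 2 / 4) / tt s a ^ 2)) +
        18 * ((a : ℝ) ^ 3 * exp (-tt s a ^ 2 / 3)) + 2 * ((a : ℝ) * exp (-tt s a ^ 2 / 10)))
        atTop (𝓝 (9 * 0 + 18 * 0 + 2 * 0)) :=
      (((err1 s).const_mul 9).add ((err2 s).const_mul 18)).add ((err3 s).const_mul 2)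
    rw [mul_zero, mul_zero, mul_zero, add_zero, add_zero] at herr
    have hd : Tendsto (fun a : ℕ => P a (tt s a) - (1 - qq (tt s a)) ^ N a) atTop (𝓝 0) := by
      refine squeeze_zero_norm' ?_ herr
      filter_upwards [eventually_ge_atTop 1, (tt_atTop s).eventually (eventually_gt_atTop 0)]
        with a ha ht
      rw [Real.norm_eq_abs]
      refine (happ a ha _ ht).trans (le_of_eq ?_)
      ring
    have := hd.add hmain
    simpa using this
  have hint : Tendsto (fun a : ℕ => ∫ s : ℝ, P a (tt s a) *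
      exp (-3 * s - 9 * s ^ 2 / (2 * tau a ^ 2))) atTop
      (𝓝 (∫ s : ℝ, exp (-exp (-s)) * exp (-3 * s))) := by
    refine tendsto_integral_filter_of_dominated_convergence (fun s => C * exp (-|s|)) ?_ ?_ ?_ ?_
    · refine Eventually.of_forall fun a => ?_
      refine Measurable.aestronglyMeasurable ?_
      refine Measurable.mul ((hm a).comp ?_) ?_
      · unfold tt; fun_prop
      · fun_prop
    · filter_upwards [hC] with a ha
      refine Eventually.of_forall fun s => ?_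
      rw [Real.norm_eq_abs, abs_of_nonneg (mul_nonneg (h0 _ _) (exp_pos _).le)]
      exact ha s
    · exact exp_abs_int.const_mul C
    · refine Eventually.of_forall fun s => ?_
      refine (hpt s).mul ?_
      have h2 : Tendsto (fun a : ℕ => -3 * s - 9 * s ^ 2 / (2 * tau a ^ 2)) atTop (𝓝 (-3 * s - 0)) := by
        refine tendsto_const_nhds.sub ?_
        refine Tendsto.div_atTop tendsto_const_nhds ?_
        exact Tendsto.const_mul_atTop (by norm_num) ((tendsto_pow_atTop (by norm_num)).comp tau_atTop)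
      rw [sub_zero] at h2
      exact (continuous_exp.tendsto _).comp h2
  rw [gamma3] at hint
  have h3 := const_lim.mul hint
  have e : (64 * √3 * π * 2 : ℝ) = 128 * √3 * π := by ring
  rw [e] at h3
  refine h3.congr fun a => ?_
  rw [subst (P a) a]
  ring

/-- the conditional probability, for all `a` -/
noncomputable def PA (a : ℕ) (t : ℝ) : ℝ := if h : a = 0 then 0 else @PP a ⟨h⟩ t

/-- the number of generic pairs, for all `a` -/
noncomputable def NA (a : ℕ) : ℕ := if h : a = 0 then 0 else (@gen a ⟨h⟩).card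

theorem PA_eq (a : ℕ) [h : NeZero a] (t : ℝ) : PA a t = PP a t := by
  unfold PA
  rw [dif_neg h.out]

theorem NA_eq (a : ℕ) [h : NeZero a] : NA a = (gen a).card := by
  unfold NA
  rw [dif_neg h.out]

theorem PA_nonneg (a : ℕ) (t : ℝ) : 0 ≤ PA a t := by
  unfold PA
  split_ifs with h
  · exact le_rfl
  · exact measureReal_nonneg

theorem PA_le_one (a : ℕ) (t : ℝ) : PA a t ≤ 1 := by
  unfold PA
  split_ifs with h
  · exact zero_le_one
  · exact measureReal_le_one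

theorem PA_meas (a : ℕ) : Measurable (PA a) := by
  by_cases h : a = 0
  · have e : PA a = fun _ => 0 := by
      funext t
      unfold PA
      rw [dif_pos h]
    rw [e]
    exact measurable_const
  · have : NeZero a := ⟨h⟩
    have e : PA a = PP a := funext fun t => PA_eq a t
    rw [e]
    exact pp_meas a

theorem PA_app (a : ℕ) (ha : 1 ≤ a) (t : ℝ) (ht : 0 < t) : |PA a t - (1 - qq t) ^ NA a| ≤
      9 * (a : ℝ) ^ 3 * (exp (-t ^ 2 / 4) / t ^ 2 + 2 * exp (-t ^ 2 / 3)) +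
        2 * a * exp (-t ^ 2 / 10) := by
  have : NeZero a := ⟨by omega⟩
  rw [PA_eq, NA_eq]
  have h1 := nb_approx a t ht
  have h2 := pp_le_nb a t
  have h3 := pp_ge_nb a t ht.le
  have h4 : 0 ≤ 2 * (a : ℝ) * exp (-t ^ 2 / 10) := by positivity
  rw [abs_le] at h1 ⊢
  constructor <;> linarith [h1.1, h1.2]

theorem PA_dom (a l : ℕ) (hl : 0 < l) (hla : 130 * l ≤ a) (t : ℝ) :
    PA a t ≤ (1 / ((l : ℝ) ^ 2 * qq t) + 3 * rr t / (l * qq t ^ 2)) ^ 16 := by
  have : NeZero a := ⟨by omega⟩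
  rw [PA_eq]
  exact (pp_le_nb a t).trans (block_bound a hl hla t)

theorem asymp : Tendsto (fun a : ℕ => (∫ t : ℝ, PA a t * (exp (-t ^ 2 / 2) / √(2 * π))) *
    (a : ℝ) ^ 6 / log a) atTop (𝓝 (128 * √3 * π)) := by
  refine analysis PA NA PA_meas PA_nonneg PA_le_one ?_ ?_ PA_app PA_dom
  · intro a ha
    have : NeZero a := ⟨by omega⟩
    rw [NA_eq]
    exact gen_card_le a
  · intro a ha
    have : NeZero a := ⟨by omega⟩
    rw [NA_eq]
    exact gen_card_ge a

/-- the final formula -/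
theorem cone_asymp (L : ℕ → ℝ)
    (hL : ∀ a : ℕ, ∀ _ : NeZero a, L a = (a : ℝ) * (gm (ZMod a)).real (Cone a)) :
    Tendsto (fun a : ℕ => L a * (a : ℝ) ^ 5 / log a) atTop (𝓝 (128 * √3 * π)) := by
  refine asymp.congr' ?_
  filter_upwards [eventually_ge_atTop 1] with a ha
  have : NeZero a := ⟨by omega⟩
  rw [hL a this, fub a]
  have e : (fun t : ℝ => PA a t * (exp (-t ^ 2 / 2) / √(2 * π))) =
      fun t : ℝ => PP a t * (exp (-t ^ 2 / 2) / √(2 * π)) := by
    funext t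
    rw [PA_eq]
  rw [e]
  ring

end Pool.Agent.KZ
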